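import Pool.Agent.Work.MP_8aaf67_al.PS.Stmts

/-!
# MP_8aaf67_al, project PS, item ABS: all involutions are values
-/

set_option autoImplicit false

open Subgroup

namespace MP_8aaf67.PS

theorem ABS_prep {T : Type} [Group T] [Finite T] (M : Subgroup T) [M.Normal]
    (hM : ¬ 2 ∣ Nat.card M) (V : Subgroup (T ⧸ M)) (g : T ⧸ M) (hV : ∀ x ∈ V, x * x = 1)
    (hgV : ∀ x ∈ V, g * x * g⁻¹ ∈ V) :
    ∃ (Q : Subgroup T) (g1 : T), IsPGroup 2 Q ∧ (∀ q ∈ Q, (QuotientGroup.mk q : T ⧸ M) ∈ V) ∧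
      (∀ v ∈ V, ∃ q ∈ Q, (QuotientGroup.mk q : T ⧸ M) = v) ∧ (∀ q ∈ Q, q ∈ M → q = 1) ∧
      (∀ q ∈ Q, g1 * q * g1⁻¹ ∈ Q) ∧ (QuotientGroup.mk g1 : T ⧸ M) = g := by
  have : Fact (Nat.Prime 2) := ⟨Nat.prime_two⟩
  obtain ⟨g0, rfl⟩ := QuotientGroup.mk_surjective g
  set Vh : Subgroup T := V.comap (QuotientGroup.mk' M) with hVh
  have hmem : ∀ x, x ∈ Vh ↔ (QuotientGroup.mk x : T ⧸ M) ∈ V := fun x => Iff.rfl
  obtain ⟨Q, _, hQ⟩ := SylIn.exists_ge (p := 2) (R := (⊥ : Subgroup T)) (K := Vh)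
    IsPGroup.of_bot bot_le
  -- surjectivity
  have hsurj : ∀ v ∈ V, ∃ q ∈ Q, (QuotientGroup.mk q : T ⧸ M) = v := by
    have hV2 : IsPGroup 2 V := by
      intro x
      refine ⟨1, ?_⟩
      rw [pow_one, pow_two]
      exact Subtype.ext (hV x x.2)
    set f := (QuotientGroup.mk' M).subgroupComap V with hf
    have hfs : Function.Surjective f :=
      MonoidHom.subgroupComap_surjective_of_surjective _ _ (QuotientGroup.mk'_surjective M)
    have h1 : ((Q.subgroupOf Vh).map f).index ∣ (Q.subgroupOf Vh).index :=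
      Subgroup.index_map_dvd _ hfs
    obtain ⟨n, hn⟩ := hV2.index ((Q.subgroupOf Vh).map f)
    have h2 : ((Q.subgroupOf Vh).map f).index = 1 :=
      eq_one_of_pow_of_not_dvd (p := 2) (dvd_of_eq hn) (fun h => hQ.2.2 (h.trans h1))
    rw [Subgroup.index_eq_one] at h2
    intro v hv
    have h3 : (⟨v, hv⟩ : V) ∈ (Q.subgroupOf Vh).map f := by rw [h2]; trivial
    obtain ⟨q, hq, hqv⟩ := h3
    exact ⟨q, hq, congrArg Subtype.val hqv⟩
  have hQV : ∀ q ∈ Q, (QuotientGroup.mk q : T ⧸ M) ∈ V := fun q hq => hQ.1 hq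
  have hQM : ∀ q ∈ Q, q ∈ M → q = 1 := by
    intro q hq hqM
    obtain ⟨j, hj⟩ := hQ.2.1 ⟨q, hq⟩
    have h1 : q ^ 2 ^ j = 1 := congrArg Subtype.val hj
    have h2 : orderOf q = 1 := eq_one_of_pow_of_not_dvd (p := 2) (orderOf_dvd_of_pow_eq_one h1)
      (fun h => hM (h.trans (Subgroup.orderOf_dvd_natCard M hqM)))
    exact orderOf_eq_one_iff.1 h2
  -- the conjugate
  have hC : IsPGroup 2 (Q.map (MulAut.conj g0).toMonoidHom) := hQ.2.1.map _
  have hCV : Q.map (MulAut.conj g0).toMonoidHom ≤ Vh := by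
    rintro _ ⟨q, hq, rfl⟩
    rw [hmem]
    exact hgV _ (hQV q hq)
  obtain ⟨B, hCB, hB⟩ := SylIn.exists_ge hC hCV
  obtain ⟨k, hk, hkB⟩ := hQ.conj hB
  obtain ⟨q1, hq1, hq1k⟩ := hsurj _ (inv_mem ((hmem k).1 hk))
  refine ⟨Q, q1⁻¹ * k⁻¹ * g0, hQ.2.1, hQV, hsurj, hQM, ?_, ?_⟩
  · intro q hq
    have h1 : g0 * q * g0⁻¹ ∈ B := hCB ⟨q, hq, rfl⟩
    have h2 := (hkB _).1 h1
    have h3 := Q.mul_mem (Q.mul_mem (Q.inv_mem hq1) h2) hq1
    have h4 : q1⁻¹ * k⁻¹ * g0 * q * (q1⁻¹ * k⁻¹ * g0)⁻¹ =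
        q1⁻¹ * (k⁻¹ * (g0 * q * g0⁻¹) * k) * q1 := by group
    rw [h4]
    exact h3
  · rw [QuotientGroup.mk_mul, QuotientGroup.mk_mul, QuotientGroup.mk_inv, QuotientGroup.mk_inv,
      hq1k]
    group

theorem prf_ABS (hGV : GV) (hGTL : GTL) (hFus : Fus) : ABS := by
  intro T _ _ M _ hMf hM hconj V g v hV hgV hv hne hg
  have : Fact (Nat.Prime 2) := ⟨Nat.prime_two⟩
  obtain ⟨Q, g1, hQ2, hQV, hsurj, hQM, hg1, hmk⟩ := ABS_prep M hM V g hV hgV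
  obtain ⟨v1, hv1, hv1v⟩ := hsurj v hv
  have hsq : ∀ q ∈ Q, q * q = 1 := by
    intro q hq
    refine hQM _ (Q.mul_mem hq hq) ?_
    rw [← QuotientGroup.eq_one_iff, QuotientGroup.mk_mul]
    exact hV _ (hQV q hq)
  have hv1ne : v1 ≠ 1 := by
    rintro rfl
    apply hne
    rw [← hv1v]
    simp [cm]
  intro k
  induction k with
  | zero => exact fun t _ _ => trivial
  | succ k ih =>
    obtain ⟨c, hcM, hcQ, hcT⟩ := hGTL 2 T M hMf hM Q hQ2 k g1 hg1 (by rw [hmk]; exact hg k)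
    set g2 := g1 * c with hg2
    have hg2Q : ∀ q ∈ Q, g2 * q * g2⁻¹ ∈ Q := by
      intro q hq
      have h1 : g2 * q * g2⁻¹ = g1 * q * g1⁻¹ := by
        have h2 : g2 * q * g2⁻¹ = g1 * (c * q) * c⁻¹ * g1⁻¹ := by rw [hg2]; group
        rw [h2, hcQ q hq]
        group
      rw [h1]
      exact hg1 q hq
    have hg2Q' : g2⁻¹ * v1 * g2 ∈ Q := by
      have hinj : Function.Injective (fun q : Q => (⟨g2 * q * g2⁻¹, hg2Q q q.2⟩ : Q)) := by
        intro a b hab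
        have h1 : g2 * (a : T) * g2⁻¹ = g2 * b * g2⁻¹ := congrArg Subtype.val hab
        exact Subtype.ext (mul_left_cancel (mul_right_cancel h1))
      obtain ⟨q', hq'⟩ := (Finite.injective_iff_surjective.1 hinj) ⟨v1, hv1⟩
      have h1 : g2 * (q' : T) * g2⁻¹ = v1 := congrArg Subtype.val hq'
      have h2 : g2⁻¹ * v1 * g2 = q' := by rw [← h1]; group
      rw [h2]
      exact q'.2
    have hyQ : cm v1 g2 ∈ Q := by
      have h1 : cm v1 g2 = v1⁻¹ * (g2⁻¹ * v1 * g2) := by unfold cm; group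
      rw [h1]
      exact Q.mul_mem (Q.inv_mem hv1) hg2Q'
    have hmk2 : (QuotientGroup.mk g2 : T ⧸ M) = g := by
      rw [hg2, QuotientGroup.mk_mul, hmk, (QuotientGroup.eq_one_iff c).2 hcM, mul_one]
    have hyne : cm v1 g2 ≠ 1 := by
      intro h
      apply hne
      have h1 : (QuotientGroup.mk (cm v1 g2) : T ⧸ M) = cm v g := by
        unfold cm
        rw [QuotientGroup.mk_mul, QuotientGroup.mk_mul, QuotientGroup.mk_mul,
          QuotientGroup.mk_inv, QuotientGroup.mk_inv, hmk2, hv1v]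
      rw [← h1, h, QuotientGroup.mk_one]
    have hyv : cm v1 g2 ∈ vals (dtree (k + 1)) T :=
      ⟨v1, ih v1 (hsq v1 hv1) hv1ne, g2, hGV T k hcT, rfl⟩
    intro t ht ht1
    obtain ⟨c', hc'⟩ := isConj_iff.1 (hFus T M hM hconj (cm v1 g2) t hyne ht1 (hsq _ hyQ) ht)
    rw [← hc']
    exact conj_mem_vals _ c' hyv

end MP_8aaf67.PS
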