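import Pool.Agent.Work.MP_8aaf67_al.PS.Stmts

/-!
# The configuration: a four-group (or the unipotent group) and an element acting on it
-/

set_option autoImplicit false
set_option linter.style.haveILetI false

open Subgroup Matrix

namespace MP_8aaf67.PS

private theorem Cfg_pr_mul {F : Type} [Field F] (A B : SL2 F) : pr (A * B) = pr A * pr B :=
  map_mul _ _ _

private theorem Cfg_pr_one {F : Type} [Field F] : pr (1 : SL2 F) = 1 := map_one _

private theorem Cfg_pr_eq {F : Type} [Field F] (A B : SL2 F)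
    (h : (A : Matrix (Fin 2) (Fin 2) F) = -(B : Matrix (Fin 2) (Fin 2) F)) : pr A = pr B := by
  have h1 : (QuotientGroup.mk' (center (SL2 F))) A = (QuotientGroup.mk' (center (SL2 F))) B := by
    rw [QuotientGroup.mk'_eq_mk']
    refine ⟨-1, ?_, ?_⟩
    · rw [Subgroup.mem_center_iff]
      intro g
      simp
    · apply Subtype.ext
      rw [mul_neg, mul_one, Matrix.SpecialLinearGroup.coe_neg, h, neg_neg]
  exact h1

private theorem Cfg_central {F : Type} [Field F] (A : SL2 F) (h : pr A = 1) :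
    A 0 1 = 0 ∧ A 1 0 = 0 ∧ A 0 0 = A 1 1 := by
  have h1 : A ∈ center (SL2 F) := (QuotientGroup.eq_one_iff A).1 h
  rw [Matrix.SpecialLinearGroup.mem_center_iff] at h1
  obtain ⟨r, -, hr⟩ := h1
  have e : ∀ i j, (A : Matrix (Fin 2) (Fin 2) F) i j = Matrix.scalar (Fin 2) r i j := fun i j => by
    rw [← hr]
  refine ⟨?_, ?_, ?_⟩
  · rw [e 0 1]; simp
  · rw [e 1 0]; simp
  · rw [e 0 0, e 1 1]; simp

private theorem Cfg_odd (F : Type) [Field F] [Finite F] (h2 : (2 : F) ≠ 0) :
    ∃ (V : Subgroup (PSL2 F)) (C : SL2 F) (v : PSL2 F), (∀ x ∈ V, x * x = 1) ∧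
    (∀ x ∈ V, pr C * x * (pr C)⁻¹ ∈ V) ∧ v ∈ V ∧ cm v (pr C) ≠ 1 ∧
    ((2 : F) ≠ 0 → tr C = -1) ∧ ((2 : F) = 0 → tr C ≠ 0) := by
  obtain ⟨a, b, hab⟩ : ∃ a b : F, a ^ 2 + b ^ 2 = -1 := by
    haveI := Fintype.ofFinite F
    obtain ⟨a, b, h⟩ := FiniteField.exists_root_sum_quadratic (R := F)
      (f := Polynomial.X ^ 2) (g := Polynomial.X ^ 2 + Polynomial.C 1)
      (by simp) (Polynomial.degree_X_pow_add_C (by norm_num) 1)
      (by
        apply FiniteField.odd_card_of_char_ne_two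
        intro hc
        apply h2
        have := ringChar.Nat.cast_ringChar (R := F)
        rw [hc] at this
        exact_mod_cast this)
    refine ⟨a, b, ?_⟩
    simp at h
    linear_combination h
  obtain ⟨h, hh⟩ : ∃ h : F, 2 * h = 1 := ⟨2⁻¹, mul_inv_cancel₀ h2⟩
  let I : SL2 F := ⟨!![0, 1; -1, 0], by simp [Matrix.det_fin_two_of]⟩
  let J : SL2 F := ⟨!![a, b; b, -a], by
    rw [Matrix.det_fin_two_of]; linear_combination -hab⟩
  let K : SL2 F := ⟨!![b, -a; -a, -b], by
    rw [Matrix.det_fin_two_of]; linear_combination -hab⟩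
  let C : SL2 F := ⟨!![-h * (1 + a + b), -h * (1 + b - a); -h * (-1 + b - a), -h * (1 - a - b)], by
    rw [Matrix.det_fin_two_of]
    linear_combination -2 * h ^ 2 * hab + (2 * h + 1) * hh⟩
  have hII : pr I * pr I = 1 := by
    rw [← Cfg_pr_mul, ← Cfg_pr_one]
    apply Cfg_pr_eq
    rw [Matrix.SpecialLinearGroup.coe_mul]
    ext i j
    fin_cases i <;> fin_cases j <;> simp [I, Matrix.mul_apply, Fin.sum_univ_two]
  have hJJ : pr J * pr J = 1 := by
    rw [← Cfg_pr_mul, ← Cfg_pr_one]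
    apply Cfg_pr_eq
    rw [Matrix.SpecialLinearGroup.coe_mul]
    ext i j
    fin_cases i <;> fin_cases j <;> simp [J, Matrix.mul_apply, Fin.sum_univ_two]
    · linear_combination hab
    · ring
    · ring
    · linear_combination hab
  have hIJ : pr I * pr J = pr K := by
    rw [← Cfg_pr_mul]
    congr 1
    apply Subtype.ext
    rw [Matrix.SpecialLinearGroup.coe_mul]
    ext i j
    fin_cases i <;> fin_cases j <;> simp [I, J, K, Matrix.mul_apply, Fin.sum_univ_two]
  have hJI : pr J * pr I = pr K := by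
    rw [← Cfg_pr_mul]
    apply Cfg_pr_eq
    rw [Matrix.SpecialLinearGroup.coe_mul]
    ext i j
    fin_cases i <;> fin_cases j <;> simp [I, J, K, Matrix.mul_apply, Fin.sum_univ_two]
  have hCI : pr C * pr I = pr J * pr C := by
    rw [← Cfg_pr_mul, ← Cfg_pr_mul]
    congr 1
    apply Subtype.ext
    rw [Matrix.SpecialLinearGroup.coe_mul, Matrix.SpecialLinearGroup.coe_mul]
    ext i j
    fin_cases i <;> fin_cases j <;> simp [I, J, C, Matrix.mul_apply, Fin.sum_univ_two]
    · linear_combination h * hab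
    · linear_combination -h * hab
    · linear_combination h * hab
    · linear_combination h * hab
  have hCJ : pr C * pr J = pr K * pr C := by
    rw [← Cfg_pr_mul, ← Cfg_pr_mul]
    congr 1
    apply Subtype.ext
    rw [Matrix.SpecialLinearGroup.coe_mul, Matrix.SpecialLinearGroup.coe_mul]
    ext i j
    fin_cases i <;> fin_cases j <;> simp [K, J, C, Matrix.mul_apply, Fin.sum_univ_two] <;> ring
  have hKK : pr K * pr K = 1 := by
    rw [← hIJ]
    nth_rewrite 2 [hIJ]
    rw [← hJI, mul_assoc, ← mul_assoc (pr J), hJJ, one_mul, hII]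
  have hIK : pr I * pr K = pr J := by rw [← hIJ, ← mul_assoc, hII, one_mul]
  have hKI : pr K * pr I = pr J := by rw [← hJI, mul_assoc, hII, mul_one]
  have hJK : pr J * pr K = pr I := by rw [← hJI, ← mul_assoc, hJJ, one_mul]
  have hKJ : pr K * pr J = pr I := by rw [← hIJ, mul_assoc, hJJ, mul_one]
  have hCK : pr C * pr K = pr I * pr C := by
    rw [← hIJ, ← mul_assoc, hCI, mul_assoc, hCJ, ← mul_assoc, hJK]
  have hinv : ∀ x : PSL2 F, x * x = 1 → x⁻¹ = x := fun x hx => inv_eq_of_mul_eq_one_left hx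
  let V : Subgroup (PSL2 F) :=
    { carrier := {x | x = 1 ∨ x = pr I ∨ x = pr J ∨ x = pr K}
      one_mem' := Or.inl rfl
      mul_mem' := by
        rintro x y (rfl | rfl | rfl | rfl) (rfl | rfl | rfl | rfl) <;>
          simp [hII, hJJ, hKK, hIJ, hJI, hIK, hKI, hJK, hKJ]
      inv_mem' := by
        rintro x (rfl | rfl | rfl | rfl)
        · simp
        · rw [hinv _ hII]; simp
        · rw [hinv _ hJJ]; simp
        · rw [hinv _ hKK]; simp }
  refine ⟨V, C, pr I, ?_, ?_, Or.inr (Or.inl rfl), ?_, ?_, ?_⟩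
  · rintro x (rfl | rfl | rfl | rfl)
    · simp
    · exact hII
    · exact hJJ
    · exact hKK
  · rintro x (rfl | rfl | rfl | rfl)
    · exact Or.inl (by simp)
    · exact Or.inr (Or.inr (Or.inl (by rw [hCI]; simp)))
    · exact Or.inr (Or.inr (Or.inr (by rw [hCJ]; simp)))
    · exact Or.inr (Or.inl (by rw [hCK]; simp))
  · intro hc
    have h1 : pr I * pr C = pr C * pr I := by
      have h2 : pr C * pr I * ((pr I)⁻¹ * (pr C)⁻¹ * pr I * pr C) = pr I * pr C := by group
      rw [← h2]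
      change pr C * pr I * cm (pr I) (pr C) = _
      rw [hc, mul_one]
    rw [hCI] at h1
    have h3 : pr I = pr J := mul_right_cancel h1
    have h4 : pr K = 1 := by rw [← hIJ, ← h3, hII]
    obtain ⟨c1, c2, c3⟩ := Cfg_central K h4
    have c1' : -a = 0 := c1
    have c3' : b = -b := c3
    have hb : b = 0 := by
      have : 2 * b = 0 := by linear_combination c3'
      rcases mul_eq_zero.1 this with h5 | h5
      · exact absurd h5 h2
      · exact h5
    have ha : a = 0 := neg_eq_zero.1 c1'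
    rw [ha, hb] at hab
    simp at hab
  · intro _
    change ((C : Matrix (Fin 2) (Fin 2) F)).trace = -1
    rw [Matrix.trace_fin_two]
    change -h * (1 + a + b) + -h * (1 - a - b) = -1
    linear_combination -hh
  · intro h3
    exact absurd h3 h2

private theorem Cfg_even (F : Type) [Field F] [Finite F] (h4 : 4 ≤ Nat.card F)
    (h2 : (2 : F) = 0) :
    ∃ (V : Subgroup (PSL2 F)) (C : SL2 F) (v : PSL2 F), (∀ x ∈ V, x * x = 1) ∧
    (∀ x ∈ V, pr C * x * (pr C)⁻¹ ∈ V) ∧ v ∈ V ∧ cm v (pr C) ≠ 1 ∧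
    ((2 : F) ≠ 0 → tr C = -1) ∧ ((2 : F) = 0 → tr C ≠ 0) := by
  obtain ⟨s, hs0, hs1⟩ : ∃ s : F, s ≠ 0 ∧ s ≠ 1 := by
    by_contra hcon
    push Not at hcon
    have h5 : Nat.card F ≤ Nat.card Bool := by
      classical
      refine Nat.card_le_card_of_injective (fun x : F => decide (x = 0)) ?_
      intro x y hxy
      simp only [decide_eq_decide] at hxy
      by_cases hx : x = 0
      · rw [hx, hxy.1 hx]
      · have hy : y ≠ 0 := fun h => hx (hxy.2 h)
        rw [hcon x hx, hcon y hy]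
    rw [Nat.card_eq_fintype_card (α := Bool), Fintype.card_bool] at h5
    omega
  have hsq : s ^ 2 ≠ 1 := by
    intro h
    have h3 : (s - 1) ^ 2 = 0 := by linear_combination h + (1 - s) * h2
    exact hs1 (sub_eq_zero.1 (pow_eq_zero_iff (two_ne_zero)|>.1 h3))
  let u : F → SL2 F := fun t => ⟨!![1, t; 0, 1], by simp [Matrix.det_fin_two_of]⟩
  let C : SL2 F := ⟨!![s, 0; 0, s⁻¹], by
    rw [Matrix.det_fin_two_of]; rw [mul_inv_cancel₀ hs0]; ring⟩
  have hu : ∀ t t', u t * u t' = u (t + t') := by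
    intro t t'
    apply Subtype.ext
    rw [Matrix.SpecialLinearGroup.coe_mul]
    ext i j
    fin_cases i <;> fin_cases j <;> simp [u, Matrix.mul_apply, Fin.sum_univ_two]
    ring
  have hu0 : u 0 = 1 := by
    apply Subtype.ext
    ext i j
    fin_cases i <;> fin_cases j <;> simp [u]
  have hCu : ∀ t, C * u t = u (s ^ 2 * t) * C := by
    intro t
    apply Subtype.ext
    rw [Matrix.SpecialLinearGroup.coe_mul, Matrix.SpecialLinearGroup.coe_mul]
    ext i j
    fin_cases i <;> fin_cases j <;> simp [u, C, Matrix.mul_apply, Fin.sum_univ_two]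
    field_simp
  have huu : ∀ t, pr (u t) * pr (u t) = 1 := by
    intro t
    rw [← Cfg_pr_mul, hu]
    have : t + t = 0 := by linear_combination t * h2
    rw [this, hu0, Cfg_pr_one]
  let V : Subgroup (PSL2 F) :=
    { carrier := {x | ∃ t, x = pr (u t)}
      one_mem' := ⟨0, by rw [hu0, Cfg_pr_one]⟩
      mul_mem' := by
        rintro _ _ ⟨t, rfl⟩ ⟨t', rfl⟩
        exact ⟨t + t', by rw [← Cfg_pr_mul, hu]⟩
      inv_mem' := by
        rintro _ ⟨t, rfl⟩
        exact ⟨t, inv_eq_of_mul_eq_one_left (huu t)⟩ }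
  refine ⟨V, C, pr (u 1), ?_, ?_, ⟨1, rfl⟩, ?_, ?_, ?_⟩
  · rintro _ ⟨t, rfl⟩
    exact huu t
  · rintro _ ⟨t, rfl⟩
    refine ⟨s ^ 2 * t, ?_⟩
    rw [← Cfg_pr_mul, hCu, Cfg_pr_mul]
    simp
  · intro hc
    have h1 : pr (u 1) * pr C = pr C * pr (u 1) := by
      have h3 : pr C * pr (u 1) * ((pr (u 1))⁻¹ * (pr C)⁻¹ * pr (u 1) * pr C)
          = pr (u 1) * pr C := by group
      rw [← h3]
      change pr C * pr (u 1) * cm (pr (u 1)) (pr C) = _
      rw [hc, mul_one]
    rw [← Cfg_pr_mul C, hCu, Cfg_pr_mul] at h1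
    have h3 : pr (u 1) = pr (u (s ^ 2 * 1)) := mul_right_cancel h1
    have h5 : pr (u (1 + s ^ 2)) = 1 := by
      rw [← hu, Cfg_pr_mul, h3]
      have := huu (s ^ 2 * 1)
      rw [mul_one] at this ⊢
      exact this
    obtain ⟨c1, -, -⟩ := Cfg_central _ h5
    have c1' : 1 + s ^ 2 = 0 := c1
    exact hsq (by linear_combination c1' - h2)
  · intro h3
    exact absurd h2 h3
  · intro _ h3
    change ((C : Matrix (Fin 2) (Fin 2) F)).trace = 0 at h3
    rw [Matrix.trace_fin_two] at h3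
    have h5 : s + s⁻¹ = 0 := h3
    apply hsq
    have h6 : s * (s + s⁻¹) = 0 := by rw [h5, mul_zero]
    rw [mul_add, mul_inv_cancel₀ hs0] at h6
    linear_combination h6 - h2

theorem prf_Cfg : Cfg := by
  intro F _ _ h4
  by_cases h2 : (2 : F) = 0
  · exact Cfg_even F h4 h2
  · exact Cfg_odd F h2

end MP_8aaf67.PS
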