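import Pool.Agent.Work.MP_8aaf67_al.PS.Stmts

/-!
# Elements of SL(2,F) with the same trace
-/

set_option autoImplicit false

open Subgroup Matrix

namespace MP_8aaf67.PS

private theorem Cnj_det {F : Type} [Field F] (g : GL (Fin 2) F) (A : SL2 F) :
    (g.val * A.val * (g⁻¹).val).det = 1 := by
  rw [det_mul, det_mul, A.2, mul_one, ← det_mul, ← Units.val_mul, mul_inv_cancel, Units.val_one,
    det_one]

/-- conjugation by an element of GL(2,F) -/
private def Cnj_cj {F : Type} [Field F] (g : GL (Fin 2) F) : SL2 F ≃* SL2 F where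
  toFun A := ⟨g.val * A.val * (g⁻¹).val, Cnj_det g A⟩
  invFun A := ⟨(g⁻¹).val * A.val * (g⁻¹⁻¹).val, Cnj_det g⁻¹ A⟩
  left_inv A := by
    apply Subtype.ext
    show (g⁻¹).val * (g.val * A.val * (g⁻¹).val) * (g⁻¹⁻¹).val = A.val
    have h1 : (g⁻¹).val * g.val = 1 := by rw [← Units.val_mul, inv_mul_cancel, Units.val_one]
    rw [inv_inv, ← mul_assoc, ← mul_assoc, h1, one_mul, mul_assoc, h1, mul_one]
  right_inv A := by
    apply Subtype.ext
    show g.val * ((g⁻¹).val * A.val * (g⁻¹⁻¹).val) * (g⁻¹).val = A.val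
    have h1 : g.val * (g⁻¹).val = 1 := by rw [← Units.val_mul, mul_inv_cancel, Units.val_one]
    rw [inv_inv, ← mul_assoc, ← mul_assoc, h1, one_mul, mul_assoc, h1, mul_one]
  map_mul' A B := by
    apply Subtype.ext
    show g.val * (A.val * B.val) * (g⁻¹).val =
      g.val * A.val * (g⁻¹).val * (g.val * B.val * (g⁻¹).val)
    have h1 : (g⁻¹).val * g.val = 1 := by rw [← Units.val_mul, inv_mul_cancel, Units.val_one]
    calc g.val * (A.val * B.val) * (g⁻¹).val
        = g.val * A.val * ((g⁻¹).val * g.val) * B.val * (g⁻¹).val := by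
          rw [h1, mul_one]
          simp only [mul_assoc]
      _ = _ := by simp only [mul_assoc]

/-- companion matrix -/
private def Cnj_K {F : Type} [Field F] (t : F) : Matrix (Fin 2) (Fin 2) F := !![0, -1; 1, t]

private theorem Cnj_comp {F : Type} [Field F] (C : SL2 F) (hC : C ∉ center (SL2 F)) :
    ∃ P : GL (Fin 2) F, C.val * P.val = P.val * Cnj_K (tr C) := by
  have hdet : C.val 0 0 * C.val 1 1 - C.val 0 1 * C.val 1 0 = 1 := by
    rw [← det_fin_two]
    exact C.2
  obtain ⟨x, y, hxy⟩ : ∃ x y : F, x * (C.val 1 0 * x + C.val 1 1 * y) -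
      (C.val 0 0 * x + C.val 0 1 * y) * y ≠ 0 := by
    by_cases hc : C.val 1 0 = 0
    · by_cases hb : C.val 0 1 = 0
      · refine ⟨1, 1, ?_⟩
        intro h
        apply hC
        rw [Matrix.SpecialLinearGroup.mem_center_iff]
        rw [hb, hc] at h hdet
        have h1 : C.val 1 1 = C.val 0 0 := by
          rw [← sub_eq_zero, ← h]
          ring
        refine ⟨C.val 0 0, ?_, ?_⟩
        · rw [Fintype.card_fin, pow_two]
          rw [h1] at hdet
          linear_combination hdet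
        · ext i j
          fin_cases i <;> fin_cases j
          · simp
          · simpa using hb.symm
          · simpa using hc.symm
          · simpa using h1.symm
      · exact ⟨0, 1, by simpa using hb⟩
    · exact ⟨1, 0, by simpa using hc⟩
  have hP : (!![x, C.val 0 0 * x + C.val 0 1 * y; y, C.val 1 0 * x + C.val 1 1 * y] :
      Matrix (Fin 2) (Fin 2) F).det ≠ 0 := by
    rw [det_fin_two_of]
    exact hxy
  refine ⟨Matrix.GeneralLinearGroup.mkOfDetNeZero _ hP, ?_⟩
  show C.val * !![x, C.val 0 0 * x + C.val 0 1 * y; y, C.val 1 0 * x + C.val 1 1 * y] =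
    !![x, C.val 0 0 * x + C.val 0 1 * y; y, C.val 1 0 * x + C.val 1 1 * y] * Cnj_K (tr C)
  have ht : tr C = C.val 0 0 + C.val 1 1 := by
    unfold tr
    rw [trace_fin_two]
  rw [ht]
  unfold Cnj_K
  ext i j
  fin_cases i <;> fin_cases j
  · simp [Matrix.mul_apply, Fin.sum_univ_two]
  · simp [Matrix.mul_apply, Fin.sum_univ_two]
    linear_combination (-x) * hdet
  · simp [Matrix.mul_apply, Fin.sum_univ_two]
  · simp [Matrix.mul_apply, Fin.sum_univ_two]
    linear_combination (-y) * hdet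

theorem prf_Cnj : Cnj := by
  intro F _ C D hC hD htr
  obtain ⟨P, hP⟩ := Cnj_comp C hC
  obtain ⟨Q, hQ⟩ := Cnj_comp D hD
  rw [← htr] at hQ
  refine ⟨Cnj_cj (Q * P⁻¹), ?_, ?_⟩
  · intro A
    show (((Q * P⁻¹).val * A.val * ((Q * P⁻¹)⁻¹).val) : Matrix (Fin 2) (Fin 2) F).trace =
      A.val.trace
    rw [trace_mul_comm, ← mul_assoc, ← Units.val_mul, inv_mul_cancel, Units.val_one, one_mul]
  · apply Subtype.ext
    show (Q * P⁻¹).val * C.val * ((Q * P⁻¹)⁻¹).val = D.val
    have e1 : C.val = P.val * Cnj_K (tr C) * (P⁻¹).val := by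
      rw [← hP, mul_assoc, ← Units.val_mul, mul_inv_cancel, Units.val_one, mul_one]
    have e2 : D.val = Q.val * Cnj_K (tr C) * (Q⁻¹).val := by
      rw [← hQ, mul_assoc, ← Units.val_mul, mul_inv_cancel, Units.val_one, mul_one]
    have h1 : (P⁻¹).val * P.val = 1 := by rw [← Units.val_mul, inv_mul_cancel, Units.val_one]
    rw [_root_.mul_inv_rev, inv_inv, Units.val_mul, Units.val_mul, e2]
    conv_lhs => rw [e1]
    calc Q.val * (P⁻¹).val * (P.val * Cnj_K (tr C) * (P⁻¹).val) * (P.val * (Q⁻¹).val)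
        = Q.val * ((P⁻¹).val * P.val) * Cnj_K (tr C) * ((P⁻¹).val * P.val) * (Q⁻¹).val := by
          simp only [mul_assoc]
      _ = _ := by rw [h1, mul_one, mul_one]

end MP_8aaf67.PS
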