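import Pool.Agent.Work.MP_8aaf67_al.PS.Stmts

/-!
# MP_8aaf67_al, project PS, item CritA: a criterion for nonsolubility
-/

set_option autoImplicit false

open Subgroup

namespace MP_8aaf67.PS

theorem CritA_tr {F : Type} [Field F] (A : SL2 F) : tr A = A.1 0 0 + A.1 1 1 := by
  unfold tr
  rw [Matrix.trace_fin_two]

theorem CritA_det {F : Type} [Field F] (A : SL2 F) :
    A.1 0 0 * A.1 1 1 - A.1 0 1 * A.1 1 0 = 1 := by
  rw [← Matrix.det_fin_two]
  exact A.2

theorem CritA_tr_one {F : Type} [Field F] : tr (1 : SL2 F) = 2 := by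
  rw [CritA_tr]
  have h0 : (1 : SL2 F).1 0 0 = 1 := rfl
  have h1 : (1 : SL2 F).1 1 1 = 1 := rfl
  rw [h0, h1]
  norm_num

theorem CritA_mul {F : Type} [Field F] (A B : SL2 F) (i j : Fin 2) :
    (A * B).1 i j = A.1 i 0 * B.1 0 j + A.1 i 1 * B.1 1 j := by
  have h : (A * B).1 = A.1 * B.1 := rfl
  rw [h, Matrix.mul_apply, Fin.sum_univ_two]

/-- an involution has trace with square four -/
theorem CritA_inv {F : Type} [Field F] (A : SL2 F) (h : A * A = 1) : tr A ^ 2 = 4 := by
  have h00 : (A * A).1 0 0 = 1 := by rw [h]; rfl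
  have h11 : (A * A).1 1 1 = 1 := by rw [h]; rfl
  rw [CritA_mul] at h00 h11
  have hd := CritA_det A
  rw [CritA_tr]
  linear_combination h00 + h11 + 2 * hd

/-- the centraliser of a matrix that is not scalar is commutative -/
theorem CritA_comm {F : Type} [Field F] (α A B : SL2 F) (hα : tr α ^ 2 ≠ 4)
    (hA : A * α = α * A) (hB : B * α = α * B) : A * B = B * A := by
  have e : ∀ i j, (A * α).1 i j = (α * A).1 i j := fun i j => by rw [hA]
  have f : ∀ i j, (B * α).1 i j = (α * B).1 i j := fun i j => by rw [hB]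
  have e00 := e 0 0
  have e01 := e 0 1
  have e10 := e 1 0
  have f00 := f 0 0
  have f01 := f 0 1
  have f10 := f 1 0
  rw [CritA_mul, CritA_mul] at e00 e01 e10 f00 f01 f10
  have hd := CritA_det α
  rw [CritA_tr] at hα
  obtain ⟨a, ha⟩ : ∃ a, a = α.1 0 0 := ⟨_, rfl⟩
  obtain ⟨b, hb⟩ : ∃ a, a = α.1 0 1 := ⟨_, rfl⟩
  obtain ⟨c, hc⟩ : ∃ a, a = α.1 1 0 := ⟨_, rfl⟩
  obtain ⟨d, hd'⟩ : ∃ a, a = α.1 1 1 := ⟨_, rfl⟩
  obtain ⟨p, hp⟩ : ∃ a, a = A.1 0 0 := ⟨_, rfl⟩
  obtain ⟨q, hq⟩ : ∃ a, a = A.1 0 1 := ⟨_, rfl⟩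
  obtain ⟨r, hr⟩ : ∃ a, a = A.1 1 0 := ⟨_, rfl⟩
  obtain ⟨s, hs⟩ : ∃ a, a = A.1 1 1 := ⟨_, rfl⟩
  obtain ⟨p', hp'⟩ : ∃ a, a = B.1 0 0 := ⟨_, rfl⟩
  obtain ⟨q', hq'⟩ : ∃ a, a = B.1 0 1 := ⟨_, rfl⟩
  obtain ⟨r', hr'⟩ : ∃ a, a = B.1 1 0 := ⟨_, rfl⟩
  obtain ⟨s', hs'⟩ : ∃ a, a = B.1 1 1 := ⟨_, rfl⟩
  rw [← ha, ← hb, ← hc, ← hd'] at hd
  rw [← ha, ← hd'] at hα
  rw [← ha, ← hb, ← hc, ← hp, ← hq, ← hr] at e00
  rw [← ha, ← hb, ← hd', ← hp, ← hq, ← hs] at e01
  rw [← ha, ← hc, ← hd', ← hp, ← hr, ← hs] at e10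
  rw [← ha, ← hb, ← hc, ← hp', ← hq', ← hr'] at f00
  rw [← ha, ← hb, ← hd', ← hp', ← hq', ← hs'] at f01
  rw [← ha, ← hc, ← hd', ← hp', ← hr', ← hs'] at f10
  have key : q * r' = q' * r ∧ q * (p' - s') = q' * (p - s) ∧ r * (p' - s') = r' * (p - s) := by
    by_cases hb0 : b = 0
    · by_cases hc0 : c = 0
      · have had : a - d ≠ 0 := by
          intro h0
          apply hα
          rw [hb0] at hd
          have h1 : a = d := by linear_combination h0
          rw [h1] at hd ⊢
          linear_combination 4 * hd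
        subst hb0 hc0
        have h1 : q = 0 := by
          have : q * (a - d) = 0 := by linear_combination -e01
          exact (mul_eq_zero.1 this).resolve_right had
        have h2 : q' = 0 := by
          have : q' * (a - d) = 0 := by linear_combination -f01
          exact (mul_eq_zero.1 this).resolve_right had
        have h3 : r = 0 := by
          have : r * (a - d) = 0 := by linear_combination e10
          exact (mul_eq_zero.1 this).resolve_right had
        have h4 : r' = 0 := by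
          have : r' * (a - d) = 0 := by linear_combination f10
          exact (mul_eq_zero.1 this).resolve_right had
        rw [h1, h2, h3, h4]
        simp
      · have k1 : q * r' = q' * r := by
          refine mul_left_cancel₀ hc0 ?_
          linear_combination r' * e00 - r * f00
        refine ⟨k1, ?_, ?_⟩
        · refine mul_left_cancel₀ hc0 ?_
          linear_combination (-q) * f10 + q' * e10 + (a - d) * k1
        · refine mul_left_cancel₀ hc0 ?_
          linear_combination (-r) * f10 + r' * e10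
    · have k1 : q * r' = q' * r := by
        refine mul_left_cancel₀ hb0 ?_
        linear_combination (-q) * f00 + q' * e00
      refine ⟨k1, ?_, ?_⟩
      · refine mul_left_cancel₀ hb0 ?_
        linear_combination q * f01 - q' * e01
      · refine mul_left_cancel₀ hb0 ?_
        linear_combination r * f01 - r' * e01 - (a - d) * k1
  obtain ⟨k1, k2, k3⟩ := key
  apply Subtype.ext
  ext i j
  have h0 : (A * B).1 i j = (B * A).1 i j := by
    rw [CritA_mul, CritA_mul]
    fin_cases i <;> fin_cases j <;> simp only [Fin.zero_eta, Fin.mk_one, Fin.isValue]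
    · rw [← hp, ← hq, ← hp', ← hr', ← hq', ← hr]
      linear_combination k1
    · rw [← hp, ← hq, ← hp', ← hq', ← hs', ← hs]
      linear_combination -k2
    · rw [← hp, ← hr, ← hs, ← hp', ← hr', ← hs']
      linear_combination k3
    · rw [← hq, ← hr, ← hs, ← hq', ← hr', ← hs']
      linear_combination -k1
  exact h0

theorem prf_CritA (hSol : SolTri) (hIII : TrIII) : CritA := by
  intro F _ _ A B htr h1 h2 _ h4
  by_contra hNS
  have hcm : A * B ≠ B * A := by
    intro h
    apply htr
    have h5 : cm A B = 1 := by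
      unfold cm
      rw [mul_assoc (A⁻¹ * B⁻¹), h]
      group
    rw [h5, CritA_tr_one]
  have hA : A ∈ closure ({A, B} : Set (SL2 F)) := subset_closure (by simp)
  have hB : B ∈ closure ({A, B} : Set (SL2 F)) := subset_closure (by simp)
  have hAB := mul_mem hA hB
  rcases hSol F A B htr hNS with ⟨α, hα, hc⟩ | hc
  · have hαα : α ≠ α⁻¹ := by
      intro h
      apply hα
      apply CritA_inv
      calc α * α = α * α⁻¹ := by rw [← h]
        _ = 1 := mul_inv_cancel α
    have hABc : A * B * α = α * (A * B) := by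
      rcases hc _ hAB with h | ⟨-, h⟩
      · exact h
      · exact absurd h h2
    rcases hc _ hA with hA1 | ⟨hA1, hA2⟩
    · rcases hc _ hB with hB1 | ⟨hB1, hB2⟩
      · exact hcm (CritA_comm α A B hα hA1 hB1)
      · apply hαα
        have hA3 : A * α⁻¹ = α⁻¹ * A := by
          calc A * α⁻¹ = α⁻¹ * (α * A) * α⁻¹ := by group
            _ = α⁻¹ * (A * α) * α⁻¹ := by rw [hA1]
            _ = α⁻¹ * A := by group
        have h5 : α * (A * B) = α⁻¹ * (A * B) := by
          rw [← hABc, mul_assoc, hB1, ← mul_assoc, hA3, mul_assoc]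
        exact mul_right_cancel h5
    · rcases hc _ hB with hB1 | ⟨hB1, hB2⟩
      · apply hαα
        have h5 : α * (A * B) = α⁻¹ * (A * B) := by
          rw [← hABc, mul_assoc, hB1, ← mul_assoc, hA1, mul_assoc]
        exact mul_right_cancel h5
      · rcases h1 with h1 | h1
        · exact h1 hA2
        · exact h1 hB2
  · obtain ⟨h5, h6, h7⟩ := h4 hc.1
    rcases hIII F _ hc _ hAB with h | h | h | h
    · apply hcm
      have h8 := (mem_center_iff.1 h) A
      rw [mul_assoc] at h8
      exact mul_left_cancel h8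
    · exact h2 (pow_eq_zero_iff (two_ne_zero) |>.1 h)
    · exact h5 h
    · exact h6 h

end MP_8aaf67.PS
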