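import Pool.Agent.Work.MP_8aaf67_al.PS.Stmts

/-! # Nonsolubility criterion with a unipotent element -/

set_option autoImplicit false

open Subgroup

namespace MP_8aaf67.PS

private lemma CritB_central {F : Type} [Field F] (h : SL2 F) (hb : h.1 0 1 = 0)
    (hc : h.1 1 0 = 0) (had : h.1 0 0 = h.1 1 1) : h ∈ center (SL2 F) := by
  rw [Subgroup.mem_center_iff]
  intro g
  apply Subtype.ext
  change g.1 * h.1 = h.1 * g.1
  ext i j
  fin_cases i <;> fin_cases j <;>
    simp [Matrix.mul_apply, Fin.sum_univ_two, hb, hc, had] <;> ring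

private lemma CritB_disc {F : Type} [Field F] (h α : SL2 F) (hh : h ∉ center (SL2 F))
    (ht : tr h ^ 2 = 4) (hcomm : h * α = α * h) : tr α ^ 2 = 4 := by
  have hdh := h.2
  have hda := α.2
  rw [Matrix.det_fin_two] at hdh hda
  have hm : h.1 * α.1 = α.1 * h.1 := congrArg Subtype.val hcomm
  have e00 := congrFun (congrFun hm 0) 0
  have e01 := congrFun (congrFun hm 0) 1
  have e10 := congrFun (congrFun hm 1) 0
  simp only [Matrix.mul_apply, Fin.sum_univ_two] at e00 e01 e10
  have ht' : (h.1 0 0 + h.1 1 1) ^ 2 = 4 := by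
    rw [← ht, tr, Matrix.trace_fin_two]
  have hgoal : tr α ^ 2 = (α.1 0 0 + α.1 1 1) ^ 2 := by
    rw [tr, Matrix.trace_fin_two]
  rw [hgoal]
  by_cases hb : h.1 0 1 = 0
  · by_cases hc : h.1 1 0 = 0
    · exfalso
      apply hh
      refine CritB_central h hb hc ?_
      have h1 : (h.1 0 0 - h.1 1 1) ^ 2 = 0 := by
        rw [hb] at hdh
        linear_combination ht' - 4 * hdh
      exact sub_eq_zero.mp (pow_eq_zero_iff two_ne_zero |>.mp h1)
    · obtain ⟨t, h1⟩ : ∃ t, α.1 1 0 = t * h.1 1 0 :=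
        ⟨α.1 1 0 / h.1 1 0, by field_simp⟩
      have h2 : α.1 0 0 - α.1 1 1 = t * (h.1 0 0 - h.1 1 1) := by
        apply mul_left_cancel₀ hc
        rw [h1] at e10
        linear_combination e10
      have h3 : α.1 0 1 = t * h.1 0 1 := by
        apply mul_left_cancel₀ hc
        rw [h1] at e00
        linear_combination -e00
      rw [h1, h3] at hda
      linear_combination 4 * hda + (α.1 0 0 - α.1 1 1 + t * (h.1 0 0 - h.1 1 1)) * h2 +
        t ^ 2 * ht' - 4 * t ^ 2 * hdh
  · obtain ⟨t, h1⟩ : ∃ t, α.1 0 1 = t * h.1 0 1 :=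
      ⟨α.1 0 1 / h.1 0 1, by field_simp⟩
    have h2 : α.1 0 0 - α.1 1 1 = t * (h.1 0 0 - h.1 1 1) := by
      apply mul_left_cancel₀ hb
      rw [h1] at e01
      linear_combination -e01
    have h3 : α.1 1 0 = t * h.1 1 0 := by
      apply mul_left_cancel₀ hb
      rw [h1] at e00
      linear_combination e00
    rw [h1, h3] at hda
    linear_combination 4 * hda + (α.1 0 0 - α.1 1 1 + t * (h.1 0 0 - h.1 1 1)) * h2 +
      t ^ 2 * ht' - 4 * t ^ 2 * hdh

theorem prf_CritB (hSol : SolTri) (hIII : TrIII) : CritB := by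
  intro F _ _ A B h2 h3 htr hex
  obtain ⟨h, hh, hcen, ht⟩ := hex
  by_contra hNS
  have h4 : (4 : F) ≠ 0 := by
    have : (4 : F) = 2 * 2 := by norm_num
    rw [this]; exact mul_ne_zero h2 h2
  rcases hSol F A B htr hNS with hc | hc
  · obtain ⟨α, hα, hall⟩ := hc
    rcases hall h hh with h5 | ⟨_, h5⟩
    · exact hα (CritB_disc h α hcen ht h5)
    · rw [h5] at ht
      apply h4
      rw [← ht]
      ring
  · rcases hIII F _ hc h hh with h5 | h5 | h5 | h5
    · exact hcen h5
    · exact h4 (ht.symm.trans h5)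
    · have h6 : (4 : F) = 1 := ht.symm.trans h5
      apply h3
      linear_combination h6
    · have h6 : (4 : F) = 2 := ht.symm.trans h5
      apply h2
      linear_combination h6

end MP_8aaf67.PS
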