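import Pool.Agent.Work.MP_8aaf67_al.PS.Stmts

/-!
# MP_8aaf67_al, project PS: the final assembly
-/

set_option autoImplicit false

open Subgroup

namespace MP_8aaf67.PS

/-- sections of sections are sections -/
theorem FinS_section_trans {X Y G : Type*} [Group X] [Group Y] [Group G]
    (h1 : IsSectionOf X Y) (h2 : IsSectionOf Y G) : IsSectionOf X G := by
  obtain ⟨H, f, hf⟩ := h1
  obtain ⟨K, g, hg⟩ := h2.sub H
  exact ⟨K, f.comp g, hf.comp hg⟩

theorem FinS_section_sub {Y : Type*} [Group Y] (H : Subgroup Y) : IsSectionOf H Y :=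
  (IsSectionOf.self Y).sub H

theorem FinS_hyp {Y G : Type} [Group Y] [Group G] (h : IsSectionOf Y G) (hG : HypS G) :
    HypS Y := by
  intro X _ _ hX hs hc
  exact hG X (FinS_section_trans hX h) hs hc

/-- in the case of type PSL the condition B holds -/
theorem FinS_bcond (hSI : SylInv) {X : Type} [Group X] {F : Type} [Field F] [Finite F]
    (h4 : 4 ≤ Nat.card F) (e : X ≃* PSL2 F) : Bcond X := by
  have hall : ∀ t : X, InPSL X t := by
    intro t
    exact ⟨F, inferInstance, inferInstance, ⊤, h4, mem_top t, ⟨Subgroup.topEquiv.trans e⟩⟩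
  have hfin : Finite X := Finite.of_equiv _ e.symm.toEquiv
  refine ⟨⟨1, hall 1⟩, ?_⟩
  intro P
  have hSy : SylIn 2 ((P : Subgroup X).map e.toMonoidHom) ⊤ := by
    have h := (SylIn.of_sylow P).map e.toMonoidHom
    rwa [Subgroup.map_top_of_surjective _ e.surjective] at h
  obtain ⟨Q, hQ⟩ := hSy.exists_sylow
  have h1 := hSI F Q
  rw [hQ] at h1
  have hmem : ∀ y : X, e y ∈ (P : Subgroup X).map e.toMonoidHom ↔ y ∈ (P : Subgroup X) := by
    intro y
    constructor
    · rintro ⟨z, hz, hzy⟩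
      have : z = y := e.injective hzy
      rwa [← this]
    · intro hy
      exact ⟨y, hy, rfl⟩
  refine le_antisymm ?_ ?_
  · intro x hx
    have hx1 : e x ∈ (P : Subgroup X).map e.toMonoidHom := (hmem x).2 hx
    rw [h1] at hx1
    have hx2 : e.symm (e x) ∈ (closure {t | t ∈ Q ∧ t * t = 1}).map e.symm.toMonoidHom :=
      ⟨e x, hx1, rfl⟩
    rw [e.symm_apply_apply, MonoidHom.map_closure] at hx2
    refine closure_mono ?_ hx2
    rintro y ⟨t, ⟨ht1, ht2⟩, rfl⟩
    refine ⟨?_, ?_, hall _⟩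
    · have ht3 : t ∈ (P : Subgroup X).map e.toMonoidHom := by rw [← hQ]; exact ht1
      obtain ⟨z, hz, hzt⟩ := ht3
      rw [← hzt]
      change e.symm (e z) ∈ P
      rw [e.symm_apply_apply]
      exact hz
    · rw [← map_mul, ht2, map_one]
  · rw [closure_le]
    rintro y ⟨hy, _⟩
    exact hy

/-- the order of `M.subgroupOf K` for `M ≤ K` -/
theorem FinS_card {G : Type*} [Group G] {M K : Subgroup G} (h : M ≤ K) :
    Nat.card (M.subgroupOf K) = Nat.card M :=
  Nat.card_congr (Subgroup.subgroupOfEquivOfLe h).toEquiv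

/-- the quotient `(H.comap mk) / M` is `H` -/
theorem FinS_equiv {S : Type*} [Group S] (M : Subgroup S) [M.Normal] (H : Subgroup (S ⧸ M)) :
    Nonempty ((H.comap (QuotientGroup.mk' M) ⧸ M.subgroupOf (H.comap (QuotientGroup.mk' M))) ≃*
      H) := by
  set f : H.comap (QuotientGroup.mk' M) →* H := (QuotientGroup.mk' M).subgroupComap H with hf
  have hsurj : Function.Surjective f := by
    rintro ⟨y, hy⟩
    obtain ⟨x, rfl⟩ := QuotientGroup.mk'_surjective M y
    exact ⟨⟨x, hy⟩, rfl⟩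
  have hker : f.ker = M.subgroupOf (H.comap (QuotientGroup.mk' M)) := by
    ext ⟨x, hx⟩
    rw [MonoidHom.mem_ker, mem_subgroupOf]
    constructor
    · intro h
      have h1 : (QuotientGroup.mk' M) x = 1 := congrArg Subtype.val h
      exact (QuotientGroup.eq_one_iff x).1 h1
    · intro h
      exact Subtype.ext ((QuotientGroup.eq_one_iff x).2 h)
  exact ⟨(QuotientGroup.quotientMulEquivOfEq hker.symm).trans
    (QuotientGroup.quotientKerEquivOfSurjective f hsurj)⟩

/-- involutions in the sections are values -/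
theorem FinS_val (hIV : InvVal) {S : Type} [Group S] [Finite S] (hS : HypS S) (M : Subgroup S)
    [M.Normal] (hM : ¬ 2 ∣ Nat.card M) (k : ℕ) (b : S) (hb : b * b = 1)
    (hP : InPSL (S ⧸ M) (b : S ⧸ M)) : b ∈ vals (dtree k) S := by
  by_cases hb1 : b = 1
  · rw [hb1]
    exact one_mem_vals _
  obtain ⟨F, _, _, H, h4, hbH, ⟨e⟩⟩ := hP
  obtain ⟨e'⟩ := FinS_equiv M H
  have hMle : M ≤ H.comap (QuotientGroup.mk' M) := by
    intro x hx
    rw [mem_comap]
    have : (QuotientGroup.mk' M) x = 1 := (QuotientGroup.eq_one_iff x).2 hx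
    rw [this]
    exact one_mem _
  have hMh : ¬ 2 ∣ Nat.card (M.subgroupOf (H.comap (QuotientGroup.mk' M))) := by
    rw [FinS_card hMle]
    exact hM
  have hyp : HypS (H.comap (QuotientGroup.mk' M)) := FinS_hyp (FinS_section_sub _) hS
  have h := hIV (H.comap (QuotientGroup.mk' M)) (M.subgroupOf (H.comap (QuotientGroup.mk' M)))
    hMh hyp ⟨F, inferInstance, inferInstance, h4, ⟨e'.trans e⟩⟩ k ⟨b, hbH⟩
    (Subtype.ext hb) (fun h => hb1 (congrArg Subtype.val h))
  exact map_mem_vals (dtree k) (H.comap (QuotientGroup.mk' M)).subtype h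

/-- a simple quotient of a perfect group is not commutative -/
theorem FinS_noncomm {S : Type} [Group S] [Finite S] (hp : commutator S = ⊤) (M : Subgroup S)
    [M.Normal] (hs : IsSimpleGroup (S ⧸ M)) : ∃ a b : S ⧸ M, a * b ≠ b * a := by
  by_contra hcon
  push Not at hcon
  have h3 : commutator S ≤ M := by
    rw [commutator_def, commutator_le]
    intro a _ b _
    rw [← QuotientGroup.eq_one_iff, commutatorElement_def]
    have h4 := hcon (a : S ⧸ M) (b : S ⧸ M)
    have h5 : ((a * b * a⁻¹ * b⁻¹ : S) : S ⧸ M)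
        = (a : S ⧸ M) * b * (a : S ⧸ M)⁻¹ * (b : S ⧸ M)⁻¹ := rfl
    rw [h5, h4]
    group
  rw [hp, top_le_iff] at h3
  have h4 : Nontrivial (S ⧸ M) := hs.toNontrivial
  obtain ⟨x, hx⟩ := exists_ne (1 : S ⧸ M)
  obtain ⟨y, rfl⟩ := QuotientGroup.mk_surjective x
  exact hx ((QuotientGroup.eq_one_iff y).2 (h3 ▸ mem_top y))

theorem FinS_odd_inf {S : Type} [Group S] [Finite S] {B M : Subgroup S} (hB : IsPGroup 2 B)
    (hM : ¬ 2 ∣ Nat.card M) {x : S} (hx : x ∈ B) (hxM : x ∈ M) : x = 1 := by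
  obtain ⟨n, hn⟩ := hB ⟨x, hx⟩
  have h1 : x ^ 2 ^ n = 1 := congrArg Subtype.val hn
  have h2 : x ^ Nat.card M = 1 := by
    have := pow_card_eq_one' (x := (⟨x, hxM⟩ : M))
    exact congrArg Subtype.val this
  have h3 : Nat.Coprime (2 ^ n) (Nat.card M) :=
    Nat.Coprime.pow_left n ((Nat.prime_two.coprime_iff_not_dvd).2 hM)
  have h4 : orderOf x ∣ 1 := by
    rw [← h3.gcd_eq_one]
    exact Nat.dvd_gcd (orderOf_dvd_of_pow_eq_one h1) (orderOf_dvd_of_pow_eq_one h2)
  exact orderOf_eq_one_iff.1 (Nat.dvd_one.1 h4)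

theorem prf_FinS (hIV : InvVal) (hSI : SylInv) : FinS := by
  intro G _ _ hG t
  refine section_reduction 2 G ?_ t
  intro S _ _ hS hp _ hf hs k
  rw [sylowGen_iff (derivedWord_values k S)]
  have hyp : HypS S := FinS_hyp hS hG
  have hBc : Bcond (S ⧸ frattini S) := by
    rcases hG (S ⧸ frattini S) (hS.quot _) hs (FinS_noncomm hp (frattini S) hs) with h | h
    · obtain ⟨F, _, _, h4, ⟨e⟩⟩ := h
      exact FinS_bcond hSI h4 e
    · exact h
  intro B hB
  have hBv : B ⊓ verb (dtree k) S = B := by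
    rw [verb_perfect hp]
    exact inf_top_eq B
  rw [hBv]
  have hSy : SylIn 2 (B.map (QuotientGroup.mk' (frattini S))) ⊤ := by
    have h := hB.map (QuotientGroup.mk' (frattini S))
    rwa [Subgroup.map_top_of_surjective _ (QuotientGroup.mk'_surjective _)] at h
  obtain ⟨P, hP⟩ := hSy.exists_sylow
  have h1 := hBc.2 P
  have hinj : ∀ x ∈ B, ∀ y ∈ B, (QuotientGroup.mk' (frattini S)) x =
      (QuotientGroup.mk' (frattini S)) y → x = y := by
    intro x hx y hy hxy
    have h2 : x⁻¹ * y ∈ frattini S := QuotientGroup.eq.1 hxy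
    have h3 := FinS_odd_inf hB.2.1 hf (B.mul_mem (B.inv_mem hx) hy) h2
    exact (inv_mul_eq_one.1 h3)
  have key : ∀ z ∈ closure {t | t ∈ P ∧ t * t = 1 ∧ InPSL (S ⧸ frattini S) t},
      ∃ b ∈ closure ((B : Set S) ∩ vals (dtree k) S), b ∈ B ∧
        (QuotientGroup.mk' (frattini S)) b = z := by
    intro z hz
    induction hz using Subgroup.closure_induction with
    | mem z hz =>
      obtain ⟨hz1, hz2, hz3⟩ := hz
      have hz4 : z ∈ B.map (QuotientGroup.mk' (frattini S)) := by rw [← hP]; exact hz1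
      obtain ⟨b, hb, hbz⟩ := hz4
      have hbb : b * b = 1 := by
        apply FinS_odd_inf hB.2.1 hf (B.mul_mem hb hb)
        rw [← QuotientGroup.eq_one_iff]
        have : ((b * b : S) : S ⧸ frattini S) = (QuotientGroup.mk' (frattini S)) b *
          (QuotientGroup.mk' (frattini S)) b := rfl
        rw [this, hbz, hz2]
      have hbv : b ∈ vals (dtree k) S := by
        refine FinS_val hIV hyp (frattini S) hf k b hbb ?_
        have : ((b : S) : S ⧸ frattini S) = z := hbz
        rw [this]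
        exact hz3
      exact ⟨b, subset_closure ⟨hb, hbv⟩, hb, hbz⟩
    | one => exact ⟨1, one_mem _, one_mem _, map_one _⟩
    | mul x y _ _ hx hy =>
      obtain ⟨a, ha1, ha2, ha3⟩ := hx
      obtain ⟨b, hb1, hb2, hb3⟩ := hy
      exact ⟨a * b, mul_mem ha1 hb1, mul_mem ha2 hb2, by rw [map_mul, ha3, hb3]⟩
    | inv x _ hx =>
      obtain ⟨a, ha1, ha2, ha3⟩ := hx
      exact ⟨a⁻¹, inv_mem ha1, inv_mem ha2, by rw [map_inv, ha3]⟩
  intro x hx
  have hx1 : (QuotientGroup.mk' (frattini S)) x ∈ (P : Subgroup (S ⧸ frattini S)) := by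
    rw [hP]
    exact ⟨x, hx, rfl⟩
  rw [h1] at hx1
  obtain ⟨b, hb1, hb2, hb3⟩ := key _ hx1
  rw [← hinj b hb2 x hx hb3]
  exact hb1

end MP_8aaf67.PS
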