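import Pool.Agent.Work.MP_8aaf67_al.PS.Stmts

/-! # Fixed points in a coset -/

set_option autoImplicit false

open Subgroup

namespace MP_8aaf67.PS

private lemma FixC_mem {T : Type} [Group T] (V : Subgroup T) [V.Normal] (Q : Subgroup T) (m : T)
    (h : ∀ q ∈ Q, cm m q ∈ V) (q : Q) (x : T) (hx : m⁻¹ * x ∈ V) :
    m⁻¹ * ((q : T) * x * (q : T)⁻¹) ∈ V := by
  have h1 := h (q : T)⁻¹ (Q.inv_mem q.2)
  have h2 : (q : T) * (m⁻¹ * x) * (q : T)⁻¹ ∈ V :=
    (inferInstance : V.Normal).conj_mem _ hx _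
  have h3 := V.mul_mem h1 h2
  have e : cm m (q : T)⁻¹ * ((q : T) * (m⁻¹ * x) * (q : T)⁻¹) =
      m⁻¹ * ((q : T) * x * (q : T)⁻¹) := by
    unfold cm
    group
  rwa [e] at h3

/-- the action on the coset -/
@[reducible] private def FixC_act {T : Type} [Group T] (V : Subgroup T) [V.Normal] (Q : Subgroup T)
    (m : T) (h : ∀ q ∈ Q, cm m q ∈ V) : MulAction Q {x : T // m⁻¹ * x ∈ V} where
  smul q x := ⟨(q : T) * x.1 * (q : T)⁻¹, FixC_mem V Q m h q x.1 x.2⟩
  one_smul x := by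
    apply Subtype.ext
    change ((1 : Q) : T) * x.1 * ((1 : Q) : T)⁻¹ = x.1
    simp
  mul_smul a b x := by
    apply Subtype.ext
    change ((a * b : Q) : T) * x.1 * ((a * b : Q) : T)⁻¹ =
      (a : T) * ((b : T) * x.1 * (b : T)⁻¹) * (a : T)⁻¹
    rw [Subgroup.coe_mul]
    group

theorem prf_FixC : FixC := by
  intro p _ T _ _ V _ Q hp hQ m h
  let _ : MulAction Q {x : T // m⁻¹ * x ∈ V} := FixC_act V Q m h
  have hc : Nat.card {x : T // m⁻¹ * x ∈ V} = Nat.card V :=
    Nat.card_congr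
      { toFun := fun x => ⟨m⁻¹ * x.1, x.2⟩
        invFun := fun v => ⟨m * v.1, by
          have e : m⁻¹ * (m * v.1) = v.1 := by group
          rw [e]; exact v.2⟩
        left_inv := fun x => Subtype.ext (by
          change m * (m⁻¹ * x.1) = x.1
          group)
        right_inv := fun v => Subtype.ext (by
          change m⁻¹ * (m * v.1) = v.1
          group) }
  have hne : (MulAction.fixedPoints Q {x : T // m⁻¹ * x ∈ V}).Nonempty :=
    hQ.nonempty_fixed_point_of_prime_not_dvd_card _ (by rw [hc]; exact hp)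
  obtain ⟨x, hx⟩ := hne
  refine ⟨m⁻¹ * x.1, x.2, fun q hq => ?_⟩
  have h1 := hx ⟨q, hq⟩
  have h2 : q * x.1 * q⁻¹ = x.1 := congrArg Subtype.val h1
  have e : m * (m⁻¹ * x.1) = x.1 := by group
  rw [e]
  have h3 : q * x.1 = x.1 * q := by
    calc q * x.1 = (q * x.1 * q⁻¹) * q := by group
      _ = x.1 * q := by rw [h2]
  exact h3.symm

end MP_8aaf67.PS
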