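import Pool.Agent.Work.MP_8aaf67_al.PS.Stmts

/-!
# Fusion of involutions modulo a normal subgroup of odd order
-/

set_option autoImplicit false

open Subgroup

namespace MP_8aaf67.PS

private theorem Fus_dih {T : Type} [Group T] (x y : T) (hx : x * x = 1) (hy : y * y = 1) (k : ℕ)
    (h : (y * x) ^ (2 * k + 1) = 1) : IsConj x y := by
  have hx' : x⁻¹ = x := inv_eq_of_mul_eq_one_right hx
  have hy' : y⁻¹ = y := inv_eq_of_mul_eq_one_right hy
  have h1 : (y * x) * x = y := by rw [mul_assoc, hx, mul_one]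
  have h2 : SemiconjBy x (y * x)⁻¹ (y * x) := by
    show x * (y * x)⁻¹ = y * x * x
    rw [h1, mul_inv_rev, hx', hy', ← mul_assoc, hx, one_mul]
  have h3 := (h2.pow_right (k + 1)).eq
  rw [isConj_iff]
  refine ⟨(y * x) ^ (k + 1), ?_⟩
  rw [← inv_pow, mul_assoc, h3, ← mul_assoc, ← pow_add,
    show k + 1 + (k + 1) = 2 * k + 1 + 1 by ring, pow_succ, h, one_mul, h1]

private theorem Fus_mk {T : Type} [Group T] [Finite T] (M : Subgroup T) [M.Normal]
    (hM : ¬ 2 ∣ Nat.card M) (x : T) (hx : x ≠ 1) (hx2 : x * x = 1) :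
    (x : T ⧸ M) ≠ 1 := by
  intro h
  rw [QuotientGroup.eq_one_iff] at h
  apply hM
  have h1 : orderOf (⟨x, h⟩ : M) = 2 := by
    rw [orderOf_mk]
    apply orderOf_eq_prime
    · rw [pow_two, hx2]
    · exact hx
  rw [← h1]
  exact orderOf_dvd_natCard _

theorem prf_Fus : Fus := by
  intro T _ _ M _ hM hconj x y hx hy hx2 hy2
  have h1 := hconj (x : T ⧸ M) (y : T ⧸ M) (Fus_mk M hM x hx hx2) (Fus_mk M hM y hy hy2)
    (by rw [← QuotientGroup.mk_mul, hx2, QuotientGroup.mk_one])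
    (by rw [← QuotientGroup.mk_mul, hy2, QuotientGroup.mk_one])
  rw [isConj_iff] at h1
  obtain ⟨c, hc⟩ := h1
  obtain ⟨h, rfl⟩ := QuotientGroup.mk_surjective c
  have hxc : IsConj x (h * x * h⁻¹) := isConj_iff.2 ⟨h, rfl⟩
  refine hxc.trans ?_
  have hx'2 : (h * x * h⁻¹) * (h * x * h⁻¹) = 1 := by
    have : (h * x * h⁻¹) * (h * x * h⁻¹) = h * (x * x) * h⁻¹ := by group
    rw [this, hx2, mul_one, mul_inv_cancel]
  have hw : y * (h * x * h⁻¹) ∈ M := by
    rw [← QuotientGroup.eq_one_iff]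
    have e : ((h * x * h⁻¹ : T) : T ⧸ M) = (y : T ⧸ M) := by
      rw [← hc]
      rfl
    rw [QuotientGroup.mk_mul, e, ← QuotientGroup.mk_mul, hy2, QuotientGroup.mk_one]
  have hodd : ¬ 2 ∣ orderOf (y * (h * x * h⁻¹)) := by
    intro h2
    apply hM
    refine h2.trans ?_
    have := orderOf_dvd_natCard (⟨_, hw⟩ : M)
    rwa [orderOf_mk] at this
  obtain ⟨k, hk⟩ : ∃ k, orderOf (y * (h * x * h⁻¹)) = 2 * k + 1 :=
    ⟨orderOf (y * (h * x * h⁻¹)) / 2, by omega⟩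
  exact Fus_dih _ y hx'2 hy2 k (by rw [← hk]; exact pow_orderOf_eq_one _)

end MP_8aaf67.PS
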