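import Pool.Agent.Work.MP_8aaf67_al.PS.Stmts

/-!
# Project PS: lifting of GT with control over a p-subgroup
-/

set_option autoImplicit false

open Subgroup

namespace MP_8aaf67.PS

theorem GTL_map {A B : Type} [Group A] [Group B] (f : A →* B) (hf : Function.Surjective f)
    (k : ℕ) : ∀ {g : A}, g ∈ GT A k → f g ∈ GT B k := by
  induction k with
  | zero => intro g _; exact Set.mem_univ _
  | succ k ih =>
    rintro g ⟨a, ha, b, hb, hcl, rfl⟩
    refine ⟨f a, ih ha, f b, ih hb, ?_, (map_cm f a b).symm⟩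
    have h1 : (closure {a, b}).map f = ⊤ := by
      rw [hcl, ← MonoidHom.range_eq_map, MonoidHom.range_eq_top]
      exact hf
    rw [MonoidHom.map_closure, Set.image_pair] at h1
    exact h1

theorem GTL_comm {T : Type} [Group T] [Finite T] {V : Subgroup T} (hV : MinNormal V)
    (hF : V ≤ frattini T) : ∀ x ∈ V, ∀ y ∈ V, x * y = y * x := by
  have := hV.1
  have hsol : Group.IsSolvable (frattini T) := by
    have := frattini_nilpotent (G := T)
    infer_instance
  have hle : ⁅V, V⁆ ≤ V := Subgroup.commutator_le_right V V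
  rcases hV.2.2 ⁅V, V⁆ inferInstance hle with h | h
  · rw [Subgroup.commutator_eq_bot_iff_le_centralizer] at h
    intro x hx y hy
    exact (Subgroup.mem_centralizer_iff.1 (h hx) y hy).symm
  · exfalso
    set H : Subgroup (frattini T) := V.subgroupOf (frattini T) with hH
    have hHV : H.map (frattini T).subtype = V := map_subgroupOf_eq_of_le hF
    have hHb : H ≠ ⊥ := by
      intro h0
      apply hV.2.1
      rw [← hHV, h0, Subgroup.map_bot]
    have hlt := Group.IsSolvable.commutator_lt_of_ne_bot hHb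
    have he : ⁅H, H⁆ = H := by
      apply Subgroup.map_injective (frattini T).subtype_injective
      rw [Subgroup.map_commutator, hHV]
      exact h
    exact hlt.ne he

theorem GTL_frat {T : Type} [Group T] {M V : Subgroup T} [V.Normal] (hM : M ≤ frattini T) :
    M.map (QuotientGroup.mk' V) ≤ frattini (T ⧸ V) := by
  rw [Subgroup.map_le_iff_le_comap]
  exact hM.trans (frattini_le_comap_frattini_of_surjective (QuotientGroup.mk'_surjective V))

theorem GTL_card {T : Type} [Group T] [Finite T] {M V : Subgroup T} [V.Normal] (hVM : V ≤ M)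
    (hV : V ≠ ⊥) : Nat.card (M.map (QuotientGroup.mk' V)) < Nat.card M ∧
      Nat.card (M.map (QuotientGroup.mk' V)) ∣ Nat.card M := by
  have hd : Nat.card (M.map (QuotientGroup.mk' V)) ∣ Nat.card M := Subgroup.card_map_dvd _ _
  refine ⟨lt_of_le_of_ne (Nat.le_of_dvd Nat.card_pos hd) ?_, hd⟩
  intro he
  obtain ⟨x, hx, hx1⟩ := (Subgroup.bot_or_exists_ne_one V).resolve_left hV
  have hb : Function.Bijective ((QuotientGroup.mk' V).subgroupMap M) :=
    (Nat.bijective_iff_surjective_and_card _).2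
      ⟨MonoidHom.subgroupMap_surjective _ _, he.symm⟩
  have h1 : (QuotientGroup.mk' V).subgroupMap M ⟨x, hVM hx⟩ =
      (QuotientGroup.mk' V).subgroupMap M 1 := by
    apply Subtype.ext
    change (QuotientGroup.mk x : T ⧸ V) = QuotientGroup.mk 1
    rw [QuotientGroup.mk_one]
    exact (QuotientGroup.eq_one_iff x).2 hx
  have h2 := congrArg Subtype.val (hb.1 h1)
  exact hx1 h2

theorem GTL_quot {T : Type} [Group T] {M V : Subgroup T} [M.Normal] [V.Normal]
    [(M.map (QuotientGroup.mk' V)).Normal] (k : ℕ) (g : T)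
    (hg : (QuotientGroup.mk g : T ⧸ M) ∈ GT (T ⧸ M) k) :
    (QuotientGroup.mk (QuotientGroup.mk g : T ⧸ V) :
      (T ⧸ V) ⧸ M.map (QuotientGroup.mk' V)) ∈ GT ((T ⧸ V) ⧸ M.map (QuotientGroup.mk' V)) k := by
  set N := M.map (QuotientGroup.mk' V) with hN
  set f : T ⧸ M →* (T ⧸ V) ⧸ N := QuotientGroup.lift M
    ((QuotientGroup.mk' N).comp (QuotientGroup.mk' V)) (fun x hx => by
      change (QuotientGroup.mk (QuotientGroup.mk x : T ⧸ V) : (T ⧸ V) ⧸ N) = 1
      rw [QuotientGroup.eq_one_iff, hN]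
      exact ⟨x, hx, rfl⟩) with hf
  have hfs : Function.Surjective f := by
    intro y
    obtain ⟨y1, rfl⟩ := QuotientGroup.mk_surjective y
    obtain ⟨y2, rfl⟩ := QuotientGroup.mk_surjective y1
    exact ⟨QuotientGroup.mk y2, rfl⟩
  exact GTL_map f hfs k hg

theorem GTL_aux (hLNC : LNC) (hLC : LC) (hFix : FixC) (p : ℕ) [Fact p.Prime] (n : ℕ) :
    ∀ (T : Type) [Group T] [Finite T] (M : Subgroup T) [M.Normal], Nat.card M ≤ n →
    M ≤ frattini T → ¬ p ∣ Nat.card M → ∀ (Q : Subgroup T), IsPGroup p Q →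
    ∀ (k : ℕ) (g : T), (∀ q ∈ Q, g * q * g⁻¹ ∈ Q) →
    (QuotientGroup.mk g : T ⧸ M) ∈ GT (T ⧸ M) k →
    ∃ c ∈ M, (∀ q ∈ Q, c * q = q * c) ∧ g * c ∈ GT T k := by
  induction n with
  | zero =>
    intro T _ _ M _ hn
    have : 0 < Nat.card M := Nat.card_pos
    omega
  | succ n ih =>
    intro T _ _ M hMn hn hMF hpM Q hQ k g hgQ hg
    by_cases hM : M = ⊥
    · refine ⟨1, M.one_mem, fun q _ => by rw [one_mul, mul_one], ?_⟩
      rw [mul_one]
      have h1 : ∀ x ∈ M, (MonoidHom.id T) x = 1 := by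
        intro x hx
        rw [hM] at hx
        exact mem_bot.1 hx
      exact GTL_map (QuotientGroup.lift M (MonoidHom.id T) h1)
        (fun y => ⟨QuotientGroup.mk y, rfl⟩) k hg
    · obtain ⟨V, hV, hVM⟩ := exists_minNormal hMn hM
      have := hV.1
      have hVF : V ≤ frattini T := hVM.trans hMF
      have hcomm := GTL_comm hV hVF
      have hcard := GTL_card hVM hV.2.1
      have hNn : (M.map (QuotientGroup.mk' V)).Normal :=
        Subgroup.Normal.map hMn _ (QuotientGroup.mk'_surjective V)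
      have hpV : ¬ p ∣ Nat.card V := fun h => hpM (h.trans (Subgroup.card_dvd_of_le hVM))
      have hQ' : ∀ q' ∈ Q.map (QuotientGroup.mk' V), (QuotientGroup.mk g : T ⧸ V) * q' *
          (QuotientGroup.mk g : T ⧸ V)⁻¹ ∈ Q.map (QuotientGroup.mk' V) := by
        rintro _ ⟨q, hq, rfl⟩
        exact ⟨g * q * g⁻¹, hgQ q hq, rfl⟩
      obtain ⟨c', hc'M, hc'Q, hc'G⟩ := ih (T ⧸ V) (M.map (QuotientGroup.mk' V))
        (by omega) (GTL_frat hMF) (fun h => hpM (h.trans hcard.2))
        (Q.map (QuotientGroup.mk' V)) (hQ.map _) k (QuotientGroup.mk g) hQ'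
        (GTL_quot k g hg)
      obtain ⟨m, hm, rfl⟩ := hc'M
      have hcm : ∀ q ∈ Q, cm m q ∈ V := by
        intro q hq
        have h1 := hc'Q (QuotientGroup.mk' V q) ⟨q, hq, rfl⟩
        rw [← QuotientGroup.eq_one_iff]
        have h2 := (cm_eq_one_iff _ _).2 h1
        rw [← map_cm] at h2
        exact h2
      obtain ⟨v, hv, hvQ⟩ := hFix p T V Q hpV hQ m hcm
      have hcM : m * v ∈ M := M.mul_mem hm (hVM hv)
      have hgc : (QuotientGroup.mk (g * (m * v)) : T ⧸ V) ∈ GT (T ⧸ V) k := by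
        have e : (QuotientGroup.mk (g * (m * v)) : T ⧸ V) =
            (QuotientGroup.mk g : T ⧸ V) * QuotientGroup.mk' V m := by
          have e1 : (QuotientGroup.mk v : T ⧸ V) = 1 := (QuotientGroup.eq_one_iff v).2 hv
          rw [QuotientGroup.mk_mul, QuotientGroup.mk_mul, e1, mul_one]
          rfl
        rw [e]
        exact hc'G
      by_cases hVc : V ≤ center T
      · obtain ⟨z, hz, hzG⟩ := hLC T V hVF hVc k _ hgc
        refine ⟨m * v * z, M.mul_mem hcM (hVM hz), fun q hq => ?_, ?_⟩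
        · have h1 := (Subgroup.mem_center_iff.1 (hVc hz)) q
          have h2 := hvQ q hq
          calc m * v * z * q = m * v * (z * q) := by rw [mul_assoc]
            _ = m * v * (q * z) := by rw [h1]
            _ = (m * v) * q * z := by rw [← mul_assoc]
            _ = q * (m * v) * z := by rw [h2]
            _ = q * (m * v * z) := by rw [mul_assoc]
        · rw [← mul_assoc]
          exact hzG
      · exact ⟨m * v, hcM, hvQ, hLNC T V hV hcomm hVF hVc k _ hgc⟩

theorem prf_GTL (hLNC : LNC) (hLC : LC) (hFix : FixC) : GTL := by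
  intro p _ T _ _ M _ hMF hpM Q hQ k g hgQ hg
  exact GTL_aux hLNC hLC hFix p (Nat.card M) T M le_rfl hMF hpM Q hQ k g hgQ hg

end MP_8aaf67.PS
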