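import Pool.Agent.Work.MP_8aaf67_al.PS.Stmts

set_option autoImplicit false

open Subgroup

namespace MP_8aaf67.PS

private lemma GTeven_center {F : Type} [Field F] (h2 : (2 : F) = 0) {C : SL2 F}
    (hC : tr C ≠ 0) : C ∉ center (SL2 F) := by
  intro h
  rw [Matrix.SpecialLinearGroup.mem_center_iff] at h
  obtain ⟨r, -, hr⟩ := h
  apply hC
  unfold tr
  rw [← hr]
  rw [Matrix.trace_fin_two]
  simp only [Matrix.scalar_apply, Matrix.diagonal_apply_eq]
  linear_combination r * h2

private lemma GTeven_sel {F : Type} [Field F] [Finite F] (h2 : (2 : F) = 0)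
    (h4 : 4 ≤ Nat.card F) {κ : F} (hκ : κ ≠ 0) :
    ∃ x z : F, x ≠ 0 ∧ z ≠ 0 ∧ x ^ 2 + x ^ 2 + z ^ 2 - x * x * z - 2 = κ := by
  classical
  have hinj : Function.Injective (fun x : F => x ^ 2) := by
    intro x y hxy
    have h : x ^ 2 = y ^ 2 := hxy
    have h3 : (x - y) ^ 2 = 0 := by
      linear_combination h + (y ^ 2 - x * y) * h2
    exact sub_eq_zero.mp (pow_eq_zero_iff (by norm_num) |>.mp h3)
  have hsurj : Function.Surjective (fun x : F => x ^ 2) :=
    Finite.surjective_of_injective hinj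
  obtain ⟨s, hs⟩ := hsurj κ
  have hs' : s ^ 2 = κ := hs
  have : Fintype F := Fintype.ofFinite F
  rw [Nat.card_eq_fintype_card] at h4
  have hex : ∃ z : F, z ∉ ({0, s} : Finset F) := by
    by_contra hcon
    push Not at hcon
    have h5 : Fintype.card F ≤ ({0, s} : Finset F).card := by
      rw [← Finset.card_univ]
      exact Finset.card_le_card fun z _ => hcon z
    have h6 : ({0, s} : Finset F).card ≤ 2 := Finset.card_le_two
    omega
  obtain ⟨z, hz⟩ := hex
  simp only [Finset.mem_insert, Finset.mem_singleton, not_or] at hz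
  obtain ⟨hz0, hzs⟩ := hz
  obtain ⟨x, hx⟩ := hsurj (κ / z + z)
  have hx' : x ^ 2 = κ / z + z := hx
  refine ⟨x, z, ?_, hz0, ?_⟩
  · rintro rfl
    apply hzs
    apply hinj
    show z ^ 2 = s ^ 2
    have h7 : κ / z + z = 0 := by rw [← hx']; ring
    have h8 : κ + z ^ 2 = 0 := by
      have : (κ / z + z) * z = κ + z ^ 2 := by field_simp
      rw [← this, h7, zero_mul]
    rw [hs']
    linear_combination h8 - κ * h2
  · have h9 : x ^ 2 * z = κ + z ^ 2 := by
      rw [hx']; field_simp
    linear_combination (-1 : F) * h9 + (x ^ 2 - κ - 1) * h2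

theorem prf_GTeven (hPair : PairEx) (hTrC : TrC) (hCnj : Cnj) (hCrit : CritA) : GTeven := by
  intro F _ _ h2 h4 hsol k
  induction k with
  | zero => intro C _; exact Set.mem_univ _
  | succ k ih =>
    intro C hC
    obtain ⟨x, z, hx, hz, hκ⟩ := GTeven_sel h2 h4 hC
    have hne : x ^ 2 + x ^ 2 + z ^ 2 - x * x * z - 2 ≠ 2 := by
      rw [hκ, h2]; exact hC
    obtain ⟨A, B, hA, hB, hAB⟩ := hPair F x x z hne
    have hcm : tr (cm A B) = tr C := by
      rw [hTrC, hA, hB, hAB, hκ]
    obtain ⟨φ, hφ, hφC⟩ := hCnj F (cm A B) C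
      (GTeven_center h2 (by rw [hcm]; exact hC)) (GTeven_center h2 hC) hcm
    have hcm' : cm (φ A) (φ B) = C := by
      rw [← hφC]
      unfold cm
      simp only [map_mul, map_inv]
    have hAB' : tr (φ A * φ B) = z := by rw [← map_mul, hφ, hAB]
    have hNS : NS (φ A) (φ B) := by
      refine hCrit F (φ A) (φ B) ?_ (Or.inl ?_) ?_ ?_ ?_
      · rw [hcm', h2]; exact hC
      · rw [hφ, hA]; exact hx
      · rw [hAB']; exact hz
      · intro _
        rw [hφ, hφ, hA, hB]
        exact ⟨hx, hx⟩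
      · intro h; exact absurd h2 h
    refine ⟨pr (φ A), ih _ (by rw [hφ, hA]; exact hx), pr (φ B),
      ih _ (by rw [hφ, hB]; exact hx), ?_, ?_⟩
    · by_contra hcl
      exact hNS (hsol _ hcl)
    · rw [← hcm']
      unfold cm pr
      simp only [map_mul, map_inv]

end MP_8aaf67.PS
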