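import Pool.Agent.Work.MP_8aaf67_al.PS.Stmts

/-!
# MP_8aaf67_al, project PS: `GTodd`
-/

set_option autoImplicit false

open Subgroup

namespace MP_8aaf67.PS

theorem GTodd_pr_mul {F : Type} [Field F] (A B : SL2 F) : pr (A * B) = pr A * pr B := rfl

theorem GTodd_pr_inv {F : Type} [Field F] (A : SL2 F) : pr A⁻¹ = (pr A)⁻¹ := rfl

theorem GTodd_pr_cm {F : Type} [Field F] (A B : SL2 F) : pr (cm A B) = cm (pr A) (pr B) := rfl

theorem GTodd_neg_center {F : Type} [Field F] : (-1 : SL2 F) ∈ center (SL2 F) := by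
  rw [Subgroup.mem_center_iff]
  intro g
  simp

theorem GTodd_pr_neg {F : Type} [Field F] (A : SL2 F) : pr (-A) = pr A := by
  have h : -A = A * (-1) := by simp
  rw [h, GTodd_pr_mul]
  have h1 : pr (-1 : SL2 F) = 1 := (QuotientGroup.eq_one_iff _).2 GTodd_neg_center
  rw [h1, mul_one]

theorem GTodd_tr_neg {F : Type} [Field F] (A : SL2 F) : tr (-A) = -tr A := by
  unfold tr
  rw [Matrix.SpecialLinearGroup.coe_neg, Matrix.trace_neg]

theorem GTodd_comm_solvable {G : Type} [Group G] (a b : G) (h : a * b = b * a) :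
    Group.IsSolvable (closure ({a, b} : Set G)) := by
  have hc : ∀ x ∈ ({a, b} : Set G), ∀ y ∈ ({a, b} : Set G), x * y = y * x := by
    rintro x (rfl | rfl) y (rfl | rfl)
    · rfl
    · exact h
    · exact h.symm
    · rfl
  have hm : ∀ x y : closure ({a, b} : Set G), x * y = y * x :=
    fun x y => (Subgroup.isMulCommutative_closure hc).is_comm.comm x y
  exact Group.isSolvable_of_comm hm

theorem GTodd_cm_one {G : Type} [Group G] (a b : G) (h : cm a b = 1) : a * b = b * a := by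
  unfold cm at h
  have : a * b = b * a * (a⁻¹ * b⁻¹ * a * b) := by group
  rw [this, h, mul_one]

/-- the step -/
theorem GTodd_main {F : Type} [Field F] [Finite F] (hPair : PairEx) (hTrC : TrC) (hCnj : Cnj)
    (hCrit : CritA) (hSel : SelOdd) (h2 : (2 : F) ≠ 0) (h9 : 9 ≤ Nat.card F)
    (hK : ∀ K : Subgroup (PSL2 F), K ≠ ⊤ → Group.IsSolvable K) (k : ℕ)
    (ih : ∀ C : SL2 F, C ∉ center (SL2 F) → pr C ∈ GT (PSL2 F) k)
    (C : SL2 F) (hC : C ∉ center (SL2 F)) (ht : tr C ≠ 2) : pr C ∈ GT (PSL2 F) (k + 1) := by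
  obtain ⟨x, y, z, he, hxy, hz0, hz1, hz2, hz4⟩ := hSel F h2 h9 (tr C)
  obtain ⟨A, B, hA, hB, hAB⟩ := hPair F x y z (by rw [he]; exact ht)
  have hcm : tr (cm A B) = tr C := by rw [hTrC F A B, hA, hB, hAB, he]
  have hNS : NS A B := by
    refine hCrit F A B (by rw [hcm]; exact ht) (by rw [hA, hB]; exact hxy)
      (by rw [hAB]; exact hz0) (fun h => absurd h h2) fun _ => ?_
    rw [hAB]
    exact ⟨hz1, hz2, hz4⟩
  have hnc : cm A B ∉ center (SL2 F) := by
    intro hcen
    apply hNS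
    apply GTodd_comm_solvable
    apply GTodd_cm_one
    rw [← GTodd_pr_cm]
    exact (QuotientGroup.eq_one_iff _).2 hcen
  obtain ⟨φ, hφ, hφC⟩ := hCnj F (cm A B) C hnc hC hcm
  have hcm' : cm (φ A) (φ B) = C := by
    rw [← hφC]
    unfold cm
    simp
  have hNS' : NS (φ A) (φ B) := by
    refine hCrit F (φ A) (φ B) (by rw [hcm']; exact ht) (by rw [hφ, hφ, hA, hB]; exact hxy)
      (by rw [← map_mul, hφ, hAB]; exact hz0) (fun h => absurd h h2) fun _ => ?_
    rw [← map_mul, hφ, hAB]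
    exact ⟨hz1, hz2, hz4⟩
  have htop : closure ({pr (φ A), pr (φ B)} : Set (PSL2 F)) = ⊤ := by
    by_contra hne
    exact hNS' (hK _ hne)
  have hA' : φ A ∉ center (SL2 F) := by
    intro h
    apply hC
    have : cm (φ A) (φ B) = 1 := by
      rw [Subgroup.mem_center_iff] at h
      unfold cm
      have e := h (φ B)
      calc (φ A)⁻¹ * (φ B)⁻¹ * φ A * φ B = (φ A)⁻¹ * (φ B)⁻¹ * (φ A * φ B) := by group
        _ = (φ A)⁻¹ * (φ B)⁻¹ * (φ B * φ A) := by rw [e]
        _ = 1 := by group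
    rw [← hcm', this]
    exact Subgroup.one_mem _
  have hB' : φ B ∉ center (SL2 F) := by
    intro h
    apply hC
    have : cm (φ A) (φ B) = 1 := by
      rw [Subgroup.mem_center_iff] at h
      unfold cm
      have e := h (φ A)
      calc (φ A)⁻¹ * (φ B)⁻¹ * φ A * φ B = (φ A)⁻¹ * (φ B)⁻¹ * (φ A * φ B) := by group
        _ = (φ A)⁻¹ * (φ B)⁻¹ * (φ B * φ A) := by rw [e]
        _ = 1 := by group
    rw [← hcm', this]
    exact Subgroup.one_mem _
  exact ⟨pr (φ A), ih _ hA', pr (φ B), ih _ hB', htop, by rw [← GTodd_pr_cm, hcm']⟩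

theorem prf_GTodd (hPair : PairEx) (hTrC : TrC) (hCnj : Cnj) (hCrit : CritA) (hSel : SelOdd) :
    GTodd := by
  intro F _ _ h2 h9 hK k
  induction k with
  | zero => intro C _; exact Set.mem_univ _
  | succ k ih =>
    intro C hC
    by_cases ht : tr C = 2
    · have hC' : -C ∉ center (SL2 F) := by
        intro h
        apply hC
        have e : C = -C * (-1) := by simp
        rw [e]
        exact Subgroup.mul_mem _ h GTodd_neg_center
      have ht' : tr (-C) ≠ 2 := by
        rw [GTodd_tr_neg, ht]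
        intro h
        have h4 : (2 : F) * 2 = 0 := by linear_combination -h
        rcases mul_eq_zero.1 h4 with h | h <;> exact h2 h
      rw [← GTodd_pr_neg]
      exact GTodd_main hPair hTrC hCnj hCrit hSel h2 h9 hK k ih (-C) hC' ht'
    · exact GTodd_main hPair hTrC hCnj hCrit hSel h2 h9 hK k ih C hC ht

end MP_8aaf67.PS
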