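import Pool.Agent.Work.MP_8aaf67_al.PS.Stmts

/-!
# Project PS: involutions of PSL(2,F) are conjugate
-/

set_option autoImplicit false

open Subgroup Matrix

namespace MP_8aaf67.PS

theorem InvConj_sum_sq {F : Type} [Field F] [Finite F] (δ : F) : ∃ a b : F,
    a ^ 2 + b ^ 2 = δ := by
  have := Fintype.ofFinite F
  by_cases h2 : ringChar F = 2
  · obtain ⟨a, ha⟩ := FiniteField.isSquare_of_char_two h2 δ
    exact ⟨a, 0, by rw [ha]; ring⟩
  · obtain ⟨a, b, hab⟩ := FiniteField.exists_root_sum_quadratic (R := F)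
      (f := Polynomial.X ^ 2) (g := Polynomial.X ^ 2 - Polynomial.C δ)
      (Polynomial.degree_X_pow 2) (Polynomial.degree_X_pow_sub_C (by norm_num) δ)
      (FiniteField.odd_card_of_char_ne_two h2)
    refine ⟨a, b, ?_⟩
    simp only [Polynomial.eval_pow, Polynomial.eval_X, Polynomial.eval_sub,
      Polynomial.eval_C] at hab
    linear_combination hab

theorem InvConj_det {F : Type} [Field F] (C : SL2 F) :
    C.1 0 0 * C.1 1 1 - C.1 0 1 * C.1 1 0 = 1 := by
  have := C.2
  rwa [Matrix.det_fin_two] at this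

theorem InvConj_center {F : Type} [Field F] {C : SL2 F} (h1 : C.1 0 1 = 0) (h2 : C.1 1 0 = 0)
    (h3 : C.1 0 0 = C.1 1 1) : C ∈ center (SL2 F) := by
  rw [Matrix.SpecialLinearGroup.mem_center_iff]
  have hd := InvConj_det C
  refine ⟨C.1 0 0, ?_, ?_⟩
  · rw [Fintype.card_fin]
    rw [h1, ← h3] at hd
    linear_combination hd
  · ext i j
    fin_cases i <;> fin_cases j <;> simp [h1, h2, h3]

theorem InvConj_tr {F : Type} [Field F] {C : SL2 F} (hC : C ∉ center (SL2 F))
    (hC2 : C * C ∈ center (SL2 F)) : C.1 0 0 + C.1 1 1 = 0 := by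
  rw [Matrix.SpecialLinearGroup.mem_center_iff] at hC2
  obtain ⟨r, -, hr⟩ := hC2
  have hm : (Matrix.scalar (Fin 2)) r = C.1 * C.1 := by
    rw [hr]
    rfl
  have e01 := congrFun (congrFun hm 0) 1
  have e10 := congrFun (congrFun hm 1) 0
  have e00 := congrFun (congrFun hm 0) 0
  have e11 := congrFun (congrFun hm 1) 1
  simp only [Matrix.mul_apply, Fin.sum_univ_two, Matrix.scalar_apply, Matrix.diagonal_apply,
    Fin.isValue, zero_ne_one, one_ne_zero, if_true, if_false] at e01 e10 e00 e11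
  by_contra h0
  apply hC
  apply InvConj_center
  · have : C.1 0 1 * (C.1 0 0 + C.1 1 1) = 0 := by linear_combination -e01
    exact (mul_eq_zero.1 this).resolve_right h0
  · have : C.1 1 0 * (C.1 0 0 + C.1 1 1) = 0 := by linear_combination -e10
    exact (mul_eq_zero.1 this).resolve_right h0
  · have : (C.1 0 0 - C.1 1 1) * (C.1 0 0 + C.1 1 1) = 0 := by
      linear_combination e11 - e00
    exact sub_eq_zero.1 ((mul_eq_zero.1 this).resolve_right h0)

theorem InvConj_P {F : Type} [Field F] {C : SL2 F} (hC : C ∉ center (SL2 F))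
    (ht : C.1 0 0 + C.1 1 1 = 0) : ∃ P : Matrix (Fin 2) (Fin 2) F, P.det ≠ 0 ∧
      C.1 * P = P * !![0, -1; 1, 0] := by
  have hd := InvConj_det C
  have key : ∀ x y : F, x * (C.1 1 0 * x + C.1 1 1 * y) - y * (C.1 0 0 * x + C.1 0 1 * y) ≠ 0 →
      ∃ P : Matrix (Fin 2) (Fin 2) F, P.det ≠ 0 ∧ C.1 * P = P * !![0, -1; 1, 0] := by
    intro x y h
    refine ⟨!![x, C.1 0 0 * x + C.1 0 1 * y; y, C.1 1 0 * x + C.1 1 1 * y], ?_, ?_⟩
    · rw [Matrix.det_fin_two_of]
      intro h0
      apply h
      linear_combination h0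
    · ext i j
      fin_cases i <;> fin_cases j
      · simp [Matrix.mul_apply, Fin.sum_univ_two]
      · simp [Matrix.mul_apply, Fin.sum_univ_two]
        linear_combination (-x) * hd + (C.1 0 0 * x + C.1 0 1 * y) * ht
      · simp [Matrix.mul_apply, Fin.sum_univ_two]
      · simp [Matrix.mul_apply, Fin.sum_univ_two]
        linear_combination (-y) * hd + (C.1 1 0 * x + C.1 1 1 * y) * ht
  by_cases h10 : C.1 1 0 = 0
  · by_cases h01 : C.1 0 1 = 0
    · apply key 1 1
      rw [h10, h01]
      intro h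
      apply hC
      apply InvConj_center h01 h10
      linear_combination -h
    · apply key 0 1
      intro h
      apply h01
      linear_combination -h
  · apply key 1 0
    intro h
    apply h10
    linear_combination h

theorem prf_InvConj : InvConj := by
  intro F _ _ x y hx hy hx2 hy2
  obtain ⟨C, rfl⟩ := QuotientGroup.mk'_surjective (center (SL2 F)) x
  obtain ⟨D, rfl⟩ := QuotientGroup.mk'_surjective (center (SL2 F)) y
  have one_iff : ∀ A : SL2 F, QuotientGroup.mk' (center (SL2 F)) A = 1 ↔ A ∈ center (SL2 F) := by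
    intro A
    exact QuotientGroup.eq_one_iff A
  have hC : C ∉ center (SL2 F) := fun h => hx ((one_iff C).2 h)
  have hD : D ∉ center (SL2 F) := fun h => hy ((one_iff D).2 h)
  have hC2 : C * C ∈ center (SL2 F) := by
    rw [← one_iff, map_mul]
    exact hx2
  have hD2 : D * D ∈ center (SL2 F) := by
    rw [← one_iff, map_mul]
    exact hy2
  obtain ⟨P, hP, hCP⟩ := InvConj_P hC (InvConj_tr hC hC2)
  obtain ⟨Q, hQ, hDQ⟩ := InvConj_P hD (InvConj_tr hD hD2)
  obtain ⟨a, b, hab⟩ := InvConj_sum_sq (Q.det * P.det)⁻¹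
  have hadj : P.adjugate * C.1 = !![0, -1; 1, 0] * P.adjugate := by
    have h1 : P.adjugate * (C.1 * P) * P.adjugate =
        P.adjugate * (P * !![0, -1; 1, 0]) * P.adjugate := by rw [hCP]
    have h2 : P.adjugate * (C.1 * P) * P.adjugate = P.det • (P.adjugate * C.1) := by
      rw [Matrix.mul_assoc, Matrix.mul_assoc, Matrix.mul_adjugate, Matrix.mul_smul,
        Matrix.mul_one, Matrix.mul_smul]
    have h3 : P.adjugate * (P * !![0, -1; 1, 0]) * P.adjugate =
        P.det • (!![0, -1; 1, 0] * P.adjugate) := by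
      rw [← Matrix.mul_assoc P.adjugate P, Matrix.adjugate_mul, Matrix.smul_mul, Matrix.one_mul,
        Matrix.smul_mul]
    rw [h2, h3] at h1
    exact smul_right_injective _ hP h1
  have hJ : (!![a, -b; b, a] : Matrix (Fin 2) (Fin 2) F) * !![0, -1; 1, 0] =
      !![0, -1; 1, 0] * !![a, -b; b, a] := by
    ext i j
    fin_cases i <;> fin_cases j <;> simp [Matrix.mul_apply, Fin.sum_univ_two]
  set M : Matrix (Fin 2) (Fin 2) F := Q * !![a, -b; b, a] * P.adjugate with hM
  have hMdet : M.det = 1 := by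
    rw [hM, Matrix.det_mul, Matrix.det_mul, Matrix.det_fin_two_of, Matrix.det_adjugate]
    rw [Fintype.card_fin, pow_one]
    have h1 : a * a - -b * b = (Q.det * P.det)⁻¹ := by rw [← hab]; ring
    rw [h1]
    field_simp
  have hMC : M * C.1 = D.1 * M := by
    rw [hM, Matrix.mul_assoc, hadj, ← Matrix.mul_assoc, Matrix.mul_assoc Q, hJ,
      ← Matrix.mul_assoc Q, ← hDQ, Matrix.mul_assoc, Matrix.mul_assoc, Matrix.mul_assoc]
  let g : SL2 F := ⟨M, hMdet⟩
  have hg : g * C = D * g := by
    apply Subtype.ext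
    exact hMC
  rw [isConj_iff]
  refine ⟨QuotientGroup.mk' (center (SL2 F)) g, ?_⟩
  rw [← map_mul, ← map_inv, ← map_mul, hg, mul_inv_cancel_right]

end MP_8aaf67.PS
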