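import Pool.Agent.Work.MP_8aaf67_al.PS.Stmts

/-!
# Involutions are values
-/

set_option autoImplicit false
set_option linter.style.haveILetI false

open Subgroup

namespace MP_8aaf67.PS

private theorem InvVal_ns (F : Type) [Field F] (h4 : 4 ≤ Nat.card F) :
    ¬ Group.IsSolvable (PSL2 F) := by
  haveI : Finite F := (Nat.card_pos_iff.1 (by omega)).2
  haveI hs : IsSimpleGroup (PSL2 F) := Matrix.ProjectiveSpecialLinearGroup.rank_two_simple h4
  obtain ⟨x, hx⟩ : IsCyclic Fˣ := by infer_instance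
  have hF : ∃ a : F, a ≠ 0 ∧ a ^ 2 ≠ 1 := by
    refine ⟨x, Units.ne_zero x, fun h => ?_⟩
    have h1 := Nat.card_eq_card_units_add_one F
    have h2 := orderOf_eq_card_of_forall_mem_zpowers hx
    have h3 := orderOf_le_of_pow_eq_one (x := x) zero_lt_two (Units.ext <| by simpa using h)
    omega
  have hp : commutator (PSL2 F) = ⊤ := SL2Simple.PSL_commutator_eq_top hF
  intro hsol
  haveI := hs.toNontrivial
  have h1 := Group.IsSolvable.commutator_lt_top_of_nontrivial (PSL2 F)
  rw [hp] at h1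
  exact lt_irrefl _ h1

private theorem InvVal_gtmap {Q R : Type} [Group Q] [Group R] (f : Q →* R)
    (hf : Function.Surjective f) (k : ℕ) : ∀ {g : Q}, g ∈ GT Q k → f g ∈ GT R k := by
  induction k with
  | zero => intro g _; exact Set.mem_univ _
  | succ k ih =>
    rintro g ⟨a, ha, b, hb, hab, rfl⟩
    refine ⟨f a, ih ha, f b, ih hb, ?_, ?_⟩
    · have h1 : (closure {a, b}).map f = ⊤ := by
        rw [hab, ← MonoidHom.range_eq_map, MonoidHom.range_eq_top.2 hf]
      rw [MonoidHom.map_closure, Set.image_pair] at h1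
      exact h1
    · simp only [cm, map_mul, map_inv]

private theorem InvVal_conj {X : Type} [Group X] (F : Type) [Field F] [Finite F]
    (e : X ≃* PSL2 F) (hIC : InvConj) (x y : X) (hx : x ≠ 1) (hy : y ≠ 1) (hx2 : x * x = 1)
    (hy2 : y * y = 1) : IsConj x y := by
  have h := hIC F (e x) (e y) (by simpa using hx) (by simpa using hy)
    (by rw [← map_mul, hx2, map_one]) (by rw [← map_mul, hy2, map_one])
  rw [isConj_iff] at h ⊢
  obtain ⟨c, hc⟩ := h
  refine ⟨e.symm c, ?_⟩
  apply e.injective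
  simp [hc]

private theorem InvVal_solmap {X Y : Type} [Group X] [Group Y] (e : X ≃* Y)
    (h : ∀ K : Subgroup X, K ≠ ⊤ → Group.IsSolvable K) (K : Subgroup Y) (hK : K ≠ ⊤) :
    Group.IsSolvable K := by
  have h1 : K.comap e.toMonoidHom ≠ ⊤ := by
    intro h2
    apply hK
    rw [eq_top_iff]
    intro y _
    obtain ⟨x, rfl⟩ := e.surjective y
    have : x ∈ K.comap e.toMonoidHom := h2 ▸ mem_top x
    exact this
  haveI := h _ h1
  have hs : Function.Surjective (e.toMonoidHom.subgroupComap K) := by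
    rintro ⟨y, hy⟩
    obtain ⟨x, rfl⟩ := e.surjective y
    exact ⟨⟨x, hy⟩, rfl⟩
  exact Group.isSolvable_of_surjective hs

private theorem InvVal_nat {S : Type} [Group S] (F : Type) [Field F] (hNA : NormAb)
    (e : S ≃* PSL2 F) (K N : Subgroup S) (hNK : N ≤ K)
    (hn : ∀ k ∈ K, ∀ n ∈ N, k * n * k⁻¹ ∈ N) (hc : ∀ a ∈ N, ∀ b ∈ N, a * b = b * a)
    (hK : ¬ Group.IsSolvable K) : N = ⊥ := by
  have h := hNA F (K.map e.toMonoidHom) (N.map e.toMonoidHom) (map_mono hNK) ?_ ?_ ?_
  · rw [eq_bot_iff]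
    intro x hx
    have h1 : e x ∈ N.map e.toMonoidHom := ⟨x, hx, rfl⟩
    rw [h, mem_bot] at h1
    rw [mem_bot]
    exact e.injective (by rw [h1, map_one])
  · rintro _ ⟨k, hk, rfl⟩ _ ⟨n, hn', rfl⟩
    exact ⟨k * n * k⁻¹, hn k hk n hn', by simp⟩
  · rintro _ ⟨a, ha, rfl⟩ _ ⟨b, hb, rfl⟩
    rw [← map_mul, hc a ha b hb, map_mul]
  · intro hs
    apply hK
    haveI := hs
    exact Group.isSolvable_of_isSolvable_injective
      (f := (K.equivMapOfInjective e.toMonoidHom e.injective).toMonoidHom)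
      (K.equivMapOfInjective e.toMonoidHom e.injective).injective

theorem prf_InvVal (hNA : NormAb) (hMin : MinSub) (hABS : ABS) (hO : GTodd) (hE : GTeven)
    (hS : GTsm) (hCfg : Cfg) (hIC : InvConj) (hFus : Fus) : InvVal := by
  intro S _ _ M _ hM hHyp hF k t ht2 ht1
  obtain ⟨F, _, _, hF4, ⟨e⟩⟩ := hF
  have hconjS : ∀ x y : S ⧸ M, x ≠ 1 → y ≠ 1 → x * x = 1 → y * y = 1 → IsConj x y :=
    InvVal_conj F e hIC
  have hfus := hFus S M hM hconjS
  have hns : ¬ Group.IsSolvable (S ⧸ M) := by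
    intro hs
    apply InvVal_ns F hF4
    haveI := hs
    exact Group.isSolvable_of_surjective (f := e.toMonoidHom) e.surjective
  obtain ⟨T, hT1, hT2, ⟨a0, b0, hab⟩, hT4⟩ := hMin S M hns (fun K N hNK h1 h2 h3 =>
    InvVal_nat F hNA e K N hNK h1 h2 h3)
  -- the simple section
  have hX : ∃ (F' : Type) (_ : Field F') (_ : Finite F'), 4 ≤ Nat.card F' ∧
      Nonempty ((T ⧸ M.subgroupOf T) ≃* PSL2 F') := by
    rcases hHyp (T ⧸ M.subgroupOf T) ⟨T, QuotientGroup.mk' _, QuotientGroup.mk'_surjective _⟩ hT2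
      ⟨a0, b0, hab⟩ with h | h
    · exact h
    · obtain ⟨⟨t0, F', i1, i2, H, h4, -, ⟨e'⟩⟩, -⟩ := h
      have hH : H = ⊤ := by
        by_contra hne
        apply InvVal_ns F' h4
        haveI := hT4 H hne
        exact Group.isSolvable_of_surjective (f := e'.toMonoidHom) e'.surjective
      subst hH
      exact ⟨F', i1, i2, h4, ⟨(Subgroup.topEquiv.symm).trans e'⟩⟩
  obtain ⟨F', _, _, hF4', ⟨e'⟩⟩ := hX
  have hsol : ∀ K : Subgroup (PSL2 F'), K ≠ ⊤ → Group.IsSolvable K := InvVal_solmap e' hT4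
  obtain ⟨V, C, v, hV1, hV2, hvV, hcm, hC1, hC2⟩ := hCfg F' hF4'
  have hCc : C ∉ center (SL2 F') := by
    intro hC
    apply hcm
    have : pr C = 1 := (QuotientGroup.eq_one_iff C).2 hC
    rw [this]
    simp [cm]
  have hGT : ∀ j, pr C ∈ GT (PSL2 F') j := by
    intro j
    by_cases h2 : (2 : F') = 0
    · exact hE F' h2 hF4' hsol j C (hC2 h2)
    · by_cases h9 : 9 ≤ Nat.card F'
      · exact hO F' h2 h9 hsol j C hCc
      · have hodd : Nat.card F' % 2 = 1 := by
          haveI := Fintype.ofFinite F'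
          rw [Nat.card_eq_fintype_card]
          apply FiniteField.odd_card_of_char_ne_two
          intro hc
          apply h2
          have := ringChar.Nat.cast_ringChar (R := F')
          rw [hc] at this
          exact_mod_cast this
        have h57 : Nat.card F' = 5 ∨ Nat.card F' = 7 := by omega
        exact hS F' h57 hsol j C (by rw [hC1 h2]; norm_num)
  -- transport
  set X := T ⧸ M.subgroupOf T with hXdef
  have hoddM : ¬ 2 ∣ Nat.card (M.subgroupOf T) := by
    intro h
    apply hM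
    refine h.trans ?_
    have h1 : Nat.card (M.subgroupOf T) = Nat.card ((M.subgroupOf T).map T.subtype) :=
      Nat.card_congr ((M.subgroupOf T).equivMapOfInjective T.subtype T.subtype_injective).toEquiv
    rw [h1]
    apply card_dvd_of_le
    rintro _ ⟨x, hx, rfl⟩
    exact hx
  have hv1 : v ≠ 1 := by
    rintro rfl
    apply hcm
    simp [cm]
  have key := hABS T (M.subgroupOf T) hT1 hoddM (InvVal_conj F' e' hIC)
    (V.comap e'.toMonoidHom) (e'.symm (pr C)) (e'.symm v) ?_ ?_ ?_ ?_ ?_ k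
  rotate_left
  · intro x hx
    apply e'.injective
    rw [map_mul, map_one]
    exact hV1 _ hx
  · intro x hx
    change e' (e'.symm (pr C) * x * (e'.symm (pr C))⁻¹) ∈ V
    rw [map_mul, map_mul, map_inv, e'.apply_symm_apply]
    exact hV2 _ hx
  · change e' (e'.symm v) ∈ V
    rw [e'.apply_symm_apply]
    exact hvV
  · intro h
    apply hcm
    have h1 : e' (cm (e'.symm v) (e'.symm (pr C))) = 1 := by rw [h, map_one]
    simpa only [cm, map_mul, map_inv, e'.apply_symm_apply] using h1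
  · intro j
    exact InvVal_gtmap e'.symm.toMonoidHom e'.symm.surjective j (hGT j)
  -- an involution of T
  obtain ⟨x, hx⟩ := QuotientGroup.mk_surjective (e'.symm v)
  set n := Nat.card (M.subgroupOf T) with hn
  have hnodd : n % 2 = 1 := by omega
  have hvv : e'.symm v * e'.symm v = 1 := by
    rw [← map_mul, hV1 v hvV, map_one]
  have hxx : x * x ∈ M.subgroupOf T := by
    rw [← QuotientGroup.eq_one_iff]
    have : ((x * x : T) : T ⧸ M.subgroupOf T) = (x : T ⧸ M.subgroupOf T) * x := rfl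
    rw [this, hx, hvv]
  have hxn : (x * x) ^ n = 1 := by
    have h1 : (⟨x * x, hxx⟩ : M.subgroupOf T) ^ n = 1 := pow_card_eq_one'
    have h2 := congrArg Subtype.val h1
    simpa using h2
  have hy2 : x ^ n * x ^ n = 1 := by
    rw [← hxn, (Commute.refl x).mul_pow]
  have hy1 : x ^ n ≠ 1 := by
    intro h
    have h1 : ((x ^ n : T) : T ⧸ M.subgroupOf T) = 1 := by rw [h]; rfl
    have h2 : ((x ^ n : T) : T ⧸ M.subgroupOf T) = (x : T ⧸ M.subgroupOf T) ^ n := rfl
    rw [h2, hx] at h1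
    obtain ⟨m, hm⟩ : ∃ m, n = 2 * m + 1 := ⟨n / 2, by omega⟩
    rw [hm, pow_succ, pow_mul, pow_two, hvv, one_pow, one_mul] at h1
    apply hv1
    have := congrArg e' h1
    simpa using this
  have hval := key (x ^ n) hy2 hy1
  have hval' : T.subtype (x ^ n) ∈ vals (dtree k) S := map_mem_vals (dtree k) T.subtype hval
  have hs2 : T.subtype (x ^ n) * T.subtype (x ^ n) = 1 := by rw [← map_mul, hy2, map_one]
  have hs1 : T.subtype (x ^ n) ≠ 1 := by
    intro h
    apply hy1
    apply T.subtype_injective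
    rw [h, map_one]
  obtain ⟨c, hc⟩ := isConj_iff.1 (hfus _ t hs1 ht1 hs2 ht2)
  rw [← hc]
  exact conj_mem_vals (dtree k) c hval'

end MP_8aaf67.PS
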