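import Pool.Agent.Work.MP_8aaf67_al.PS.Stmts

/-!
# Project PS: lifting over central subgroups
-/

set_option autoImplicit false

open Subgroup

namespace MP_8aaf67.PS

theorem LC_gen_lift {T : Type} [Group T] [Finite T] {V : Subgroup T} [V.Normal]
    (hV : V ≤ frattini T) {a b : T}
    (h : closure {(QuotientGroup.mk a : T ⧸ V), QuotientGroup.mk b} = ⊤) :
    closure {a, b} = ⊤ := by
  have h1 : (closure {a, b}).map (QuotientGroup.mk' V) = ⊤ := by
    rw [MonoidHom.map_closure, Set.image_pair]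
    exact h
  have h2 : closure {a, b} ⊔ V = ⊤ := by
    have h3 := Subgroup.comap_map_eq (QuotientGroup.mk' V) (closure {a, b})
    rw [h1, QuotientGroup.ker_mk', Subgroup.comap_top] at h3
    exact h3.symm
  apply frattini_nongenerating
  rw [eq_top_iff, ← h2]
  exact sup_le_sup_left hV _

theorem prf_LC : LC := by
  intro T _ _ V _ hV _ k
  induction k with
  | zero =>
    intro g _
    exact ⟨1, V.one_mem, Set.mem_univ _⟩
  | succ k ih =>
    rintro g ⟨a', ha', b', hb', hcl, hcm⟩
    obtain ⟨a, rfl⟩ := QuotientGroup.mk_surjective a'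
    obtain ⟨b, rfl⟩ := QuotientGroup.mk_surjective b'
    obtain ⟨z1, hz1, h1⟩ := ih a ha'
    obtain ⟨z2, hz2, h2⟩ := ih b hb'
    have e1 : (QuotientGroup.mk (a * z1) : T ⧸ V) = QuotientGroup.mk a := by
      rw [QuotientGroup.mk_mul_of_mem _ hz1]
    have e2 : (QuotientGroup.mk (b * z2) : T ⧸ V) = QuotientGroup.mk b := by
      rw [QuotientGroup.mk_mul_of_mem _ hz2]
    refine ⟨g⁻¹ * cm (a * z1) (b * z2), ?_, a * z1, h1, b * z2, h2, ?_, by group⟩
    · rw [← QuotientGroup.eq, ← hcm]
      change cm (QuotientGroup.mk a : T ⧸ V) (QuotientGroup.mk b) =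
        cm (QuotientGroup.mk (a * z1) : T ⧸ V) (QuotientGroup.mk (b * z2))
      rw [e1, e2]
    · apply LC_gen_lift hV
      rw [e1, e2]
      exact hcl

end MP_8aaf67.PS
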