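import Pool.Agent.Work.MP_8aaf67_al.PS.Stmts

/-!
# Project PS: lifting over noncentral minimal normal subgroups
-/

set_option autoImplicit false

open Subgroup

namespace MP_8aaf67.PS

theorem LNC_gen_lift {T : Type} [Group T] [Finite T] {V : Subgroup T} [V.Normal]
    (hV : V ≤ frattini T) {a b : T}
    (h : closure {(QuotientGroup.mk a : T ⧸ V), QuotientGroup.mk b} = ⊤) :
    closure {a, b} = ⊤ := by
  have h1 : (closure {a, b}).map (QuotientGroup.mk' V) = ⊤ := by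
    rw [MonoidHom.map_closure, Set.image_pair]
    exact h
  have h2 : closure {a, b} ⊔ V = ⊤ := by
    have h3 := Subgroup.comap_map_eq (QuotientGroup.mk' V) (closure {a, b})
    rw [h1, QuotientGroup.ker_mk', Subgroup.comap_top] at h3
    exact h3.symm
  apply frattini_nongenerating
  rw [eq_top_iff, ← h2]
  exact sup_le_sup_left hV _

theorem LNC_all {T : Type} [Group T] {a b : T} (hcl : closure {a, b} = ⊤) (K : Subgroup T)
    (h1 : (cm a b)⁻¹ * b ∈ K) (h2 : a * cm a b ∈ K) : K = ⊤ := by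
  have e2 : a = b * (a * cm a b) * b⁻¹ := by
    unfold cm
    group
  have e1 : b * a = b * ((a * cm a b) * ((cm a b)⁻¹ * b)) * b⁻¹ := by
    unfold cm
    group
  have hK : K.map (MulAut.conj b).toMonoidHom = ⊤ := by
    rw [eq_top_iff, ← hcl, closure_le]
    have ha : a ∈ K.map (MulAut.conj b).toMonoidHom := ⟨a * cm a b, h2, by
      change b * (a * cm a b) * b⁻¹ = a
      exact e2.symm⟩
    have hba : b * a ∈ K.map (MulAut.conj b).toMonoidHom :=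
      ⟨(a * cm a b) * ((cm a b)⁻¹ * b), K.mul_mem h2 h1, by
        change b * ((a * cm a b) * ((cm a b)⁻¹ * b)) * b⁻¹ = b * a
        exact e1.symm⟩
    rintro x (rfl | rfl)
    · exact ha
    · have := mul_mem hba (inv_mem ha)
      rwa [mul_inv_cancel_right] at this
  rw [eq_top_iff]
  intro x _
  have hx : b * x * b⁻¹ ∈ K.map (MulAut.conj b).toMonoidHom := by
    rw [hK]
    exact mem_top _
  obtain ⟨y, hy, hxy⟩ := hx
  have hxy' : b * y * b⁻¹ = b * x * b⁻¹ := hxy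
  have : y = x := by
    have h3 := mul_right_cancel hxy'
    exact mul_left_cancel h3
  rw [← this]
  exact hy

/-- `w⁻¹ wʰ` -/
def LNC_d {T : Type} [Group T] (h w : T) : T := w⁻¹ * (h⁻¹ * w * h)

section

variable {T : Type} [Group T] {V : Subgroup T} [hVn : V.Normal]

theorem LNC_d_mem (h : T) {w : T} (hw : w ∈ V) : LNC_d h w ∈ V := by
  unfold LNC_d
  refine V.mul_mem (V.inv_mem hw) ?_
  have := hVn.conj_mem w hw h⁻¹
  rwa [inv_inv] at this

theorem LNC_d_mul (hc : ∀ x ∈ V, ∀ y ∈ V, x * y = y * x) (h : T) {w x : T} (hw : w ∈ V)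
    (hx : x ∈ V) : LNC_d h (w * x) = LNC_d h w * LNC_d h x := by
  have e := hc x⁻¹ (V.inv_mem hx) (LNC_d h w) (LNC_d_mem h hw)
  calc LNC_d h (w * x) = x⁻¹ * LNC_d h w * (h⁻¹ * x * h) := by unfold LNC_d; group
    _ = LNC_d h w * x⁻¹ * (h⁻¹ * x * h) := by rw [e]
    _ = _ := by unfold LNC_d; group

theorem LNC_d_one (h : T) : LNC_d h (1 : T) = 1 := by
  unfold LNC_d
  group

theorem LNC_d_inv (hc : ∀ x ∈ V, ∀ y ∈ V, x * y = y * x) (h : T) {w : T} (hw : w ∈ V) :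
    LNC_d h w⁻¹ = (LNC_d h w)⁻¹ := by
  rw [eq_inv_iff_mul_eq_one, ← LNC_d_mul hc h (V.inv_mem hw) hw, inv_mul_cancel, LNC_d_one]

/-- `[V, h₁] [V, h₂]` -/
def LNC_U (V : Subgroup T) [V.Normal] (hc : ∀ x ∈ V, ∀ y ∈ V, x * y = y * x) (h1 h2 : T) :
    Subgroup T where
  carrier := {u | ∃ w1 ∈ V, ∃ w2 ∈ V, u = LNC_d h1 w1 * LNC_d h2 w2}
  mul_mem' := by
    rintro _ _ ⟨w1, hw1, w2, hw2, rfl⟩ ⟨x1, hx1, x2, hx2, rfl⟩
    refine ⟨w1 * x1, V.mul_mem hw1 hx1, w2 * x2, V.mul_mem hw2 hx2, ?_⟩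
    rw [LNC_d_mul hc h1 hw1 hx1, LNC_d_mul hc h2 hw2 hx2]
    have e := hc _ (LNC_d_mem h2 hw2) _ (LNC_d_mem h1 hx1)
    calc LNC_d h1 w1 * LNC_d h2 w2 * (LNC_d h1 x1 * LNC_d h2 x2)
        = LNC_d h1 w1 * (LNC_d h2 w2 * LNC_d h1 x1) * LNC_d h2 x2 := by group
      _ = LNC_d h1 w1 * (LNC_d h1 x1 * LNC_d h2 w2) * LNC_d h2 x2 := by rw [e]
      _ = _ := by group
  one_mem' := ⟨1, V.one_mem, 1, V.one_mem, by rw [LNC_d_one, LNC_d_one, mul_one]⟩
  inv_mem' := by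
    rintro _ ⟨w1, hw1, w2, hw2, rfl⟩
    refine ⟨w1⁻¹, V.inv_mem hw1, w2⁻¹, V.inv_mem hw2, ?_⟩
    rw [LNC_d_inv hc h1 hw1, LNC_d_inv hc h2 hw2, mul_inv_rev]
    exact hc _ (V.inv_mem (LNC_d_mem h2 hw2)) _ (V.inv_mem (LNC_d_mem h1 hw1))

theorem LNC_U_le (hc : ∀ x ∈ V, ∀ y ∈ V, x * y = y * x) (h1 h2 : T) : LNC_U V hc h1 h2 ≤ V := by
  rintro _ ⟨w1, hw1, w2, hw2, rfl⟩
  exact V.mul_mem (LNC_d_mem h1 hw1) (LNC_d_mem h2 hw2)

theorem LNC_U_left (hc : ∀ x ∈ V, ∀ y ∈ V, x * y = y * x) (h1 h2 : T) {w : T} (hw : w ∈ V) :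
    LNC_d h1 w ∈ LNC_U V hc h1 h2 :=
  ⟨w, hw, 1, V.one_mem, by rw [LNC_d_one, mul_one]⟩

theorem LNC_U_right (hc : ∀ x ∈ V, ∀ y ∈ V, x * y = y * x) (h1 h2 : T) {w : T} (hw : w ∈ V) :
    LNC_d h2 w ∈ LNC_U V hc h1 h2 :=
  ⟨1, V.one_mem, w, hw, by rw [LNC_d_one, one_mul]⟩

theorem LNC_norm [Finite T] {U : Subgroup T} {h : T} (hU : ∀ u ∈ U, LNC_d h u ∈ U) :
    h ∈ normalizer (U : Set T) := by
  rw [← inv_inv h]
  apply inv_mem
  apply mem_normalizer_fintype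
  intro n hn
  have e : h⁻¹ * n * h⁻¹⁻¹ = n * LNC_d h n := by
    unfold LNC_d
    group
  rw [e]
  exact U.mul_mem hn (hU n hn)

theorem LNC_solve [Finite T] (hmin : MinNormal V) (hc : ∀ x ∈ V, ∀ y ∈ V, x * y = y * x)
    (hnc : ¬ V ≤ center T) {a b : T} (hcl : closure {a, b} = ⊤) {u : T} (hu : u ∈ V) :
    ∃ v1 ∈ V, ∃ v2 ∈ V, cm (a * v1) (b * v2) = cm a b * u := by
  set h1 : T := (cm a b)⁻¹ * b with hh1
  set h2 : T := a * cm a b with hh2
  set U : Subgroup T := LNC_U V hc h1 h2 with hU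
  have hUV : U ≤ V := LNC_U_le hc h1 h2
  have hN : normalizer (U : Set T) = ⊤ := by
    apply LNC_all hcl
    · exact LNC_norm fun x hx => LNC_U_left hc h1 h2 (hUV hx)
    · exact LNC_norm fun x hx => LNC_U_right hc h1 h2 (hUV hx)
  have hUn : U.Normal := normalizer_eq_top_iff.1 hN
  have hUeq : U = V := by
    rcases hmin.2.2 U hUn hUV with h0 | h0
    · exfalso
      apply hnc
      intro w hw
      have hC : centralizer ({w} : Set T) = ⊤ := by
        apply LNC_all hcl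
        · rw [mem_centralizer_singleton_iff]
          have h3 : LNC_d h1 w ∈ U := LNC_U_left hc h1 h2 hw
          rw [h0, mem_bot] at h3
          have h4 : h1 * LNC_d h1 w = h1 := by rw [h3, mul_one]
          unfold LNC_d at h3
          have h5 : h1⁻¹ * w * h1 = w := by
            rw [inv_mul_eq_one] at h3
            exact h3.symm
          calc h1 * w = h1 * (h1⁻¹ * w * h1) := by rw [h5]
            _ = w * h1 := by group
        · rw [mem_centralizer_singleton_iff]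
          have h3 : LNC_d h2 w ∈ U := LNC_U_right hc h1 h2 hw
          rw [h0, mem_bot] at h3
          unfold LNC_d at h3
          have h5 : h2⁻¹ * w * h2 = w := by
            rw [inv_mul_eq_one] at h3
            exact h3.symm
          calc h2 * w = h2 * (h2⁻¹ * w * h2) := by rw [h5]
            _ = w * h2 := by group
      rw [mem_center_iff]
      intro g
      have hg : g ∈ centralizer ({w} : Set T) := by
        rw [hC]
        exact mem_top _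
      exact mem_centralizer_singleton_iff.1 hg
    · exact h0
  rw [← hUeq] at hu
  obtain ⟨w1, hw1, w2, hw2, rfl⟩ := hu
  have hv1 : cm a b * w1 * (cm a b)⁻¹ ∈ V := hVn.conj_mem w1 hw1 _
  refine ⟨cm a b * w1 * (cm a b)⁻¹, hv1, w2⁻¹, V.inv_mem hw2, ?_⟩
  have hP2 : h2⁻¹ * w2 * h2 ∈ V := by
    have := hVn.conj_mem w2 hw2 h2⁻¹
    rwa [inv_inv] at this
  have hP3 : h1⁻¹ * w1 * h1 ∈ V := by
    have := hVn.conj_mem w1 hw1 h1⁻¹
    rwa [inv_inv] at this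
  have e0 : cm (a * (cm a b * w1 * (cm a b)⁻¹)) (b * w2⁻¹) =
      cm a b * (w1⁻¹ * (h2⁻¹ * w2 * h2) * (h1⁻¹ * w1 * h1) * w2⁻¹) := by
    rw [hh1, hh2]
    unfold cm
    group
  rw [e0]
  congr 1
  unfold LNC_d
  have e1 := hc _ hP2 _ hP3
  have e2 := hc _ hP2 _ (V.inv_mem hw2)
  calc w1⁻¹ * (h2⁻¹ * w2 * h2) * (h1⁻¹ * w1 * h1) * w2⁻¹
      = w1⁻¹ * ((h2⁻¹ * w2 * h2) * (h1⁻¹ * w1 * h1)) * w2⁻¹ := by group
    _ = w1⁻¹ * ((h1⁻¹ * w1 * h1) * (h2⁻¹ * w2 * h2)) * w2⁻¹ := by rw [e1]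
    _ = w1⁻¹ * (h1⁻¹ * w1 * h1) * ((h2⁻¹ * w2 * h2) * w2⁻¹) := by group
    _ = w1⁻¹ * (h1⁻¹ * w1 * h1) * (w2⁻¹ * (h2⁻¹ * w2 * h2)) := by rw [e2]

end

theorem prf_LNC : LNC := by
  intro T _ _ V _ hmin hc hV hnc k
  induction k with
  | zero =>
    intro g _
    exact Set.mem_univ _
  | succ k ih =>
    rintro g ⟨a', ha', b', hb', hcl, hcm⟩
    obtain ⟨a, rfl⟩ := QuotientGroup.mk_surjective a'
    obtain ⟨b, rfl⟩ := QuotientGroup.mk_surjective b'
    have hcl' : closure {a, b} = ⊤ := LNC_gen_lift hV hcl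
    have hu : (cm a b)⁻¹ * g ∈ V := by
      rw [← QuotientGroup.eq]
      exact hcm
    obtain ⟨v1, hv1, v2, hv2, h⟩ := LNC_solve hmin hc hnc hcl' hu
    have e1 : (QuotientGroup.mk (a * v1) : T ⧸ V) = QuotientGroup.mk a :=
      QuotientGroup.mk_mul_of_mem _ hv1
    have e2 : (QuotientGroup.mk (b * v2) : T ⧸ V) = QuotientGroup.mk b :=
      QuotientGroup.mk_mul_of_mem _ hv2
    refine ⟨a * v1, ih _ (by rw [e1]; exact ha'), b * v2, ih _ (by rw [e2]; exact hb'), ?_, ?_⟩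
    · apply LNC_gen_lift hV
      rw [e1, e2]
      exact hcl
    · rw [h]
      group

end MP_8aaf67.PS
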