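import Pool.Agent.Work.MP_8aaf67_al.PS.Stmts

/-!
# MP_8aaf67_al, project PS, item MinSub: minimal subgroups with nonsoluble image
-/

set_option autoImplicit false

open Subgroup

namespace MP_8aaf67.PS

/-- the last nontrivial term of the derived series -/
theorem MinSub_last {X : Type} [Group X] (N : Subgroup X) [N.Normal] (hN : N ≠ ⊥)
    (hs : Group.IsSolvable N) :
    ∃ A : Subgroup X, A.Normal ∧ A ≠ ⊥ ∧ ∀ a ∈ A, ∀ b ∈ A, a * b = b * a := by
  classical
  obtain ⟨n, hn⟩ := hs.solvable
  have hex : ∃ n, derivedSeries N n = ⊥ := ⟨n, hn⟩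
  have h0 : Nat.find hex ≠ 0 := by
    intro h
    have h1 := Nat.find_spec hex
    rw [h, derivedSeries_zero] at h1
    apply hN
    rw [Subgroup.eq_bot_iff_forall]
    intro x hx
    have h2 : (⟨x, hx⟩ : N) ∈ (⊤ : Subgroup N) := trivial
    rw [h1, Subgroup.mem_bot] at h2
    exact congrArg Subtype.val h2
  obtain ⟨k, hk⟩ := Nat.exists_eq_succ_of_ne_zero h0
  have h1 : derivedSeries N (k + 1) = ⊥ := by
    rw [← Nat.succ_eq_add_one, ← hk]
    exact Nat.find_spec hex
  have h2 : derivedSeries N k ≠ ⊥ := fun h => by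
    have := Nat.find_min' hex h
    omega
  refine ⟨(derivedSeries N k).map N.subtype, inferInstance, ?_, ?_⟩
  · intro h
    exact h2 ((Subgroup.map_eq_bot_iff_of_injective _ N.subtype_injective).1 h)
  · rintro _ ⟨a, ha, rfl⟩ _ ⟨b, hb, rfl⟩
    rw [derivedSeries_succ, Subgroup.commutator_eq_bot_iff_le_centralizer] at h1
    have h3 := Subgroup.mem_centralizer_iff.1 (h1 ha) b hb
    rw [← map_mul, ← map_mul, h3]

theorem prf_MinSub : MinSub := by
  classical
  intro S _ _ M _ hns hyp
  obtain ⟨T, hT⟩ := exists_minimal_of_wellFoundedLT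
    (fun T : Subgroup S => ¬ Group.IsSolvable (T.map (QuotientGroup.mk' M))) (by
      refine ⟨⊤, fun h => hns ?_⟩
      have h1 : (⊤ : Subgroup S).map (QuotientGroup.mk' M) = ⊤ :=
        Subgroup.map_top_of_surjective _ (QuotientGroup.mk'_surjective M)
      rw [h1] at h
      exact Group.isSolvable_of_surjective (f := (Subgroup.topEquiv (G := S ⧸ M)).toMonoidHom)
        Subgroup.topEquiv.surjective)
  have hTns : ¬ Group.IsSolvable (T.map (QuotientGroup.mk' M)) := hT.prop
  have hTmin : ∀ T' : Subgroup S, T' ≤ T → T' ≠ T →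
      Group.IsSolvable (T'.map (QuotientGroup.mk' M)) := by
    intro T' h1 h2
    by_contra h3
    exact h2 (le_antisymm h1 (hT.le_of_le h3 h1))
  let ι : (T ⧸ M.subgroupOf T) →* S ⧸ M := QuotientGroup.map (M.subgroupOf T) M T.subtype le_rfl
  have hι : Function.Injective ι := by
    rw [injective_iff_map_eq_one]
    intro x hx
    obtain ⟨t, rfl⟩ := QuotientGroup.mk_surjective x
    have h1 : (QuotientGroup.mk (t : S) : S ⧸ M) = 1 := hx
    rw [QuotientGroup.eq_one_iff] at h1 ⊢
    exact h1
  have hιmk : ∀ t : T, ι (QuotientGroup.mk t) = QuotientGroup.mk' M (t : S) := fun t => rfl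
  -- subgroups of the quotient
  have hmap : ∀ K : Subgroup (T ⧸ M.subgroupOf T),
      ((K.comap (QuotientGroup.mk' (M.subgroupOf T))).map T.subtype).map (QuotientGroup.mk' M) =
        K.map ι := by
    intro K
    ext y
    constructor
    · rintro ⟨_, ⟨t, ht, rfl⟩, rfl⟩
      exact ⟨QuotientGroup.mk t, ht, rfl⟩
    · rintro ⟨x, hx, rfl⟩
      obtain ⟨t, rfl⟩ := QuotientGroup.mk_surjective x
      exact ⟨t, ⟨t, hx, rfl⟩, rfl⟩
  have hrange : (⊤ : Subgroup (T ⧸ M.subgroupOf T)).map ι = T.map (QuotientGroup.mk' M) := by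
    rw [← hmap, Subgroup.comap_top]
    congr 1
    ext x
    constructor
    · rintro ⟨t, -, rfl⟩
      exact t.2
    · intro hx
      exact ⟨⟨x, hx⟩, trivial, rfl⟩
  have hXns : ¬ Group.IsSolvable (T ⧸ M.subgroupOf T) := by
    intro h
    apply hTns
    rw [← hrange]
    exact Group.isSolvable_of_surjective (f := (ι.subgroupMap ⊤))
      (MonoidHom.subgroupMap_surjective ι ⊤)
  have hprop : ∀ K : Subgroup (T ⧸ M.subgroupOf T), K ≠ ⊤ → Group.IsSolvable K := by
    intro K hK
    have h1 : (K.comap (QuotientGroup.mk' (M.subgroupOf T))).map T.subtype ≠ T := by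
      intro h
      apply hK
      rw [eq_top_iff]
      intro x _
      obtain ⟨t, rfl⟩ := QuotientGroup.mk_surjective x
      have h2 : (t : S) ∈ (K.comap (QuotientGroup.mk' (M.subgroupOf T))).map T.subtype := by
        rw [h]
        exact t.2
      obtain ⟨t', ht', htt⟩ := h2
      have h3 : t' = t := Subtype.ext htt
      rw [← h3]
      exact ht'
    have h2 := hTmin _ (Subgroup.map_subtype_le _) h1
    rw [hmap] at h2
    exact Group.isSolvable_of_isSolvable_injective (f := (K.equivMapOfInjective ι hι).toMonoidHom)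
      (K.equivMapOfInjective ι hι).injective
  have hnt : Nontrivial (T ⧸ M.subgroupOf T) := by
    by_contra h
    rw [not_nontrivial_iff_subsingleton] at h
    exact hXns inferInstance
  refine ⟨T, ?_, ?_, ?_, hprop⟩
  · -- the Frattini subgroup
    by_contra hc
    have h1 : ∃ K : Subgroup T, IsCoatom K ∧ ¬ M.subgroupOf T ≤ K := by
      by_contra h2
      push Not at h2
      apply hc
      unfold frattini Order.radical
      exact le_iInf₂ fun K hK => h2 K hK
    obtain ⟨K, hK, hMK⟩ := h1
    have h2 : K ⊔ M.subgroupOf T = ⊤ :=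
      hK.2 _ (lt_of_le_of_ne le_sup_left (fun h => hMK (by rw [h]; exact le_sup_right)))
    have h3 : (K.map T.subtype).map (QuotientGroup.mk' M) = T.map (QuotientGroup.mk' M) := by
      have h4 : (⊤ : Subgroup T).map ((QuotientGroup.mk' M).comp T.subtype) =
          K.map ((QuotientGroup.mk' M).comp T.subtype) := by
        rw [← h2, Subgroup.map_sup]
        refine le_antisymm (sup_le le_rfl ?_) le_sup_left
        rintro _ ⟨t, ht, rfl⟩
        have h5 : ((QuotientGroup.mk' M).comp T.subtype) t = 1 := by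
          change (QuotientGroup.mk (t : S) : S ⧸ M) = 1
          rw [QuotientGroup.eq_one_iff]
          exact ht
        rw [h5]
        exact one_mem _
      rw [Subgroup.map_map, ← h4, ← Subgroup.map_map]
      congr 1
      ext x
      constructor
      · rintro ⟨t, -, rfl⟩
        exact t.2
      · intro hx
        exact ⟨⟨x, hx⟩, trivial, rfl⟩
    have h4 : K.map T.subtype ≠ T := by
      intro h
      apply hK.1
      rw [eq_top_iff]
      intro t _
      have h5 : (t : S) ∈ K.map T.subtype := by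
        rw [h]
        exact t.2
      obtain ⟨t', ht', htt⟩ := h5
      rw [← (Subtype.ext htt : t' = t)]
      exact ht'
    have h5 := hTmin _ (Subgroup.map_subtype_le _) h4
    rw [h3] at h5
    exact hTns h5
  · -- simple
    refine { exists_pair_ne := hnt.exists_pair_ne, eq_bot_or_eq_top_of_normal := ?_ }
    intro N0 hN0
    by_contra hc
    push Not at hc
    obtain ⟨A, hA, hAne, hAc⟩ := MinSub_last N0 hc.1 (hprop N0 hc.2)
    have h1 := hyp (T.map (QuotientGroup.mk' M)) (A.map ι) ?_ ?_ ?_ hTns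
    · exact hAne ((Subgroup.map_eq_bot_iff_of_injective _ hι).1 h1)
    · rw [← hrange]
      exact Subgroup.map_mono le_top
    · rw [← hrange]
      rintro _ ⟨x, -, rfl⟩ _ ⟨y, hy, rfl⟩
      exact ⟨x * y * x⁻¹, hA.conj_mem y hy x, by rw [map_mul, map_mul, map_inv]⟩
    · rintro _ ⟨x, hx, rfl⟩ _ ⟨y, hy, rfl⟩
      rw [← map_mul, ← map_mul, hAc x hx y hy]
  · by_contra hc
    push Not at hc
    exact hXns (Group.isSolvable_of_comm hc)

end MP_8aaf67.PS
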