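import Pool.Agent.Work.MP_8aaf67_al.PS.Stmts

set_option autoImplicit false

open Subgroup

namespace MP_8aaf67.PS

theorem prf_NormAb (hSTR : STR) (hTri : TriSol) : NormAb := by
  intro F _ K N hNK hconj hcomm hns
  by_contra hN
  apply hns
  have hpr : Function.Surjective (QuotientGroup.mk' (center (SL2 F))) :=
    QuotientGroup.mk'_surjective _
  have hle : N.comap (QuotientGroup.mk' (center (SL2 F))) ≤
      K.comap (QuotientGroup.mk' (center (SL2 F))) := comap_mono hNK
  have hsol : Group.IsSolvable (K.comap (QuotientGroup.mk' (center (SL2 F)))) := by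
    apply hTri
    refine hSTR F (K.comap (QuotientGroup.mk' (center (SL2 F))))
      (N.comap (QuotientGroup.mk' (center (SL2 F)))) hle ?_ ?_ ?_
    · intro h hh n hn
      rw [mem_comap] at hh hn ⊢
      rw [map_mul, map_mul, map_inv]
      exact hconj _ hh _ hn
    · obtain ⟨x, hx, hx1⟩ : ∃ x ∈ N, x ≠ 1 := by
        by_contra hcon
        push Not at hcon
        exact hN ((eq_bot_iff_forall N).2 hcon)
      obtain ⟨n, rfl⟩ := hpr x
      refine ⟨n, hx, fun hc => hx1 ?_⟩
      exact (QuotientGroup.eq_one_iff n).2 hc
    · intro a ha b hb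
      rw [mem_comap] at ha hb
      have h := hcomm _ ha _ hb
      have h2 : QuotientGroup.mk' (center (SL2 F)) (a * b * a⁻¹ * b⁻¹) = 1 := by
        rw [map_mul, map_mul, map_mul, map_inv, map_inv, h]
        group
      exact (QuotientGroup.eq_one_iff _).1 h2
  have hmap : (K.comap (QuotientGroup.mk' (center (SL2 F)))).map
      (QuotientGroup.mk' (center (SL2 F))) = K := map_comap_eq_self_of_surjective hpr K
  have hs2 : Group.IsSolvable ((K.comap (QuotientGroup.mk' (center (SL2 F)))).map
      (QuotientGroup.mk' (center (SL2 F)))) := by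
    have := hsol
    exact Group.isSolvable_of_surjective
      ((QuotientGroup.mk' (center (SL2 F))).subgroupMap_surjective
        (K.comap (QuotientGroup.mk' (center (SL2 F)))))
  rw [hmap] at hs2
  exact hs2

end MP_8aaf67.PS
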