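import Pool.Agent.Work.MP_8aaf67_al.PS.Stmts

/-! # Pairs of matrices with given traces -/

set_option autoImplicit false

open Subgroup

namespace MP_8aaf67.PS

/-- the quadratic equation suffices -/
private lemma PairEx_of {F : Type} [Field F] (x y z d g : F)
    (h : d ^ 2 - x * g * d + g ^ 2 - y * d + z * g + 1 = 0) :
    ∃ A B : SL2 F, tr A = x ∧ tr B = y ∧ tr (A * B) = z := by
  obtain ⟨A, hA⟩ : ∃ A : SL2 F, (A : Matrix (Fin 2) (Fin 2) F) = !![0, -1; 1, x] :=
    ⟨⟨!![0, -1; 1, x], by rw [Matrix.det_fin_two_of]; ring⟩, rfl⟩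
  obtain ⟨B, hB⟩ : ∃ B : SL2 F, (B : Matrix (Fin 2) (Fin 2) F) =
      !![y - d, z + g - x * d; g, d] :=
    ⟨⟨!![y - d, z + g - x * d; g, d], by
      rw [Matrix.det_fin_two_of]
      linear_combination (-1 : F) * h⟩, rfl⟩
  refine ⟨A, B, ?_, ?_, ?_⟩
  · rw [tr, hA]
    simp [Matrix.trace_fin_two]
  · rw [tr, hB]
    simp [Matrix.trace_fin_two]
  · rw [tr, Matrix.SpecialLinearGroup.coe_mul, hA, hB]
    simp only [Matrix.trace_fin_two, Matrix.mul_apply, Fin.sum_univ_two]
    simp

private lemma PairEx_quad {F : Type} [Field F] [Finite F] (x c : F) (hx : x ^ 2 ≠ 4) :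
    ∃ D G : F, D ^ 2 - x * G * D + G ^ 2 = c := by
  have := Fintype.ofFinite F
  by_cases h2 : (2 : F) = 0
  · have hchar : ringChar F = 2 := by
      have h3 : ringChar F ∣ 2 := (ringChar.spec F 2).mp (by exact_mod_cast h2)
      rcases (Nat.dvd_prime Nat.prime_two).mp h3 with h4 | h4
      · exact absurd h4 (CharP.ringChar_ne_one)
      · exact h4
    obtain ⟨D, hD⟩ := FiniteField.isSquare_of_char_two hchar c
    exact ⟨D, 0, by rw [hD]; ring⟩
  · have hchar : ringChar F ≠ 2 := by
      intro h4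
      apply h2
      have h5 := (ringChar.spec F 2).mpr (by rw [h4])
      exact_mod_cast h5
    have hcard := FiniteField.odd_card_of_char_ne_two hchar
    have h4 : (4 : F) ≠ 0 := by
      have : (4 : F) = 2 * 2 := by norm_num
      rw [this]; exact mul_ne_zero h2 h2
    have hk : 1 - x ^ 2 / 4 ≠ 0 := by
      intro hk
      apply hx
      have : x ^ 2 / 4 = 1 := by linear_combination -hk
      rw [div_eq_iff h4] at this
      rw [this]; ring
    have hf : (Polynomial.X ^ 2 - Polynomial.C c : Polynomial F).degree = 2 :=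
      Polynomial.degree_X_pow_sub_C (by norm_num) c
    have hg : (Polynomial.C (1 - x ^ 2 / 4) * Polynomial.X ^ 2 : Polynomial F).degree = 2 :=
      Polynomial.degree_C_mul_X_pow 2 hk
    obtain ⟨a, b, hab⟩ := FiniteField.exists_root_sum_quadratic hf hg hcard
    simp only [Polynomial.eval_sub, Polynomial.eval_pow, Polynomial.eval_X, Polynomial.eval_C,
      Polynomial.eval_mul] at hab
    refine ⟨a + x * b / 2, b, ?_⟩
    have e : (a + x * b / 2) ^ 2 - x * b * (a + x * b / 2) + b ^ 2 =
        a ^ 2 + (1 - x ^ 2 / 4) * b ^ 2 := by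
      field_simp
      ring
    rw [e]
    linear_combination hab

theorem prf_PairEx : PairEx := by
  intro F _ _ x y z h
  by_cases hx : x ^ 2 = 4
  · obtain ⟨e, he, hxe⟩ : ∃ e : F, e ^ 2 = 1 ∧ x = 2 * e := by
      by_cases h2 : (2 : F) = 0
      · refine ⟨1, one_pow 2, ?_⟩
        have h4 : x ^ 2 = 0 := by
          rw [hx]
          have : (4 : F) = 2 * 2 := by norm_num
          rw [this, h2, zero_mul]
        rw [h2, zero_mul]
        exact pow_eq_zero_iff (two_ne_zero) |>.mp h4
      · refine ⟨x / 2, ?_, ?_⟩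
        · rw [div_pow, hx]
          rw [div_eq_one_iff_eq (pow_ne_zero 2 h2)]
          norm_num
        · field_simp
    by_cases hz : z = e * y
    · exfalso
      apply h
      rw [hz, hxe]
      linear_combination (4 - y ^ 2) * he
    · have hz' : z - e * y ≠ 0 := sub_ne_zero.mpr hz
      refine PairEx_of x y z (e * (-1 / (z - e * y))) (-1 / (z - e * y)) ?_
      have h1 : (z - e * y) * (-1 / (z - e * y)) = -1 := by
        field_simp
      generalize (-1 / (z - e * y)) = g at h1 ⊢
      rw [hxe]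
      linear_combination h1 - g ^ 2 * he
  · have hx' : 4 - x ^ 2 ≠ 0 := fun h0 => hx (by linear_combination -h0)
    obtain ⟨d0, g0, h1, h2⟩ : ∃ d0 g0 : F, 2 * d0 - x * g0 = y ∧ -x * d0 + 2 * g0 = -z := by
      refine ⟨(2 * y - x * z) / (4 - x ^ 2), (x * y - 2 * z) / (4 - x ^ 2), ?_, ?_⟩
      · field_simp
        ring
      · field_simp
        ring
    obtain ⟨D, G, hDG⟩ := PairEx_quad x
      (-(d0 ^ 2 - x * g0 * d0 + g0 ^ 2 - y * d0 + z * g0 + 1)) hx
    refine PairEx_of x y z (d0 + D) (g0 + G) ?_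
    linear_combination hDG + D * h1 + G * h2

end MP_8aaf67.PS
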