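import Pool.Agent.Work.MP_8aaf67_al.PS.Stmts

/-!
# Item STR: subgroups of `SL(2,F)` normalising an almost commutative noncentral subgroup
-/

set_option autoImplicit false

open Subgroup

namespace MP_8aaf67.PS

section STR_aux

variable {F : Type} [Field F]

/-- the matrices which commute with a nonscalar matrix -/
theorem STR_comm (a x : Matrix (Fin 2) (Fin 2) F) (ha : ∀ c : F, a ≠ c • 1)
    (hx : x * a = a * x) : ∃ c d : F, x = c • 1 + d • a := by
  have e (i j : Fin 2) : (x * a) i j = (a * x) i j := by rw [hx]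
  have e00 := e 0 0
  have e01 := e 0 1
  have e10 := e 1 0
  simp only [Matrix.mul_apply, Fin.sum_univ_two] at e00 e01 e10
  have fin : ∀ c d : F, x 0 0 = c + d * a 0 0 → x 0 1 = d * a 0 1 → x 1 0 = d * a 1 0 →
      x 1 1 = c + d * a 1 1 → x = c • 1 + d • a := by
    intro c d h1 h2 h3 h4
    ext i j
    fin_cases i <;> fin_cases j <;> simp [h1, h2, h3, h4]
  by_cases h1 : a 0 1 = 0
  · by_cases h2 : a 1 0 = 0
    · have h3 : a 0 0 - a 1 1 ≠ 0 := by
        intro h
        apply ha (a 0 0)
        have h' : a 1 1 = a 0 0 := by linear_combination -h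
        ext i j
        fin_cases i <;> fin_cases j <;> simp [h1, h2, h']
      refine ⟨_, _, fin (x 0 0 - (x 0 0 - x 1 1) / (a 0 0 - a 1 1) * a 0 0)
        ((x 0 0 - x 1 1) / (a 0 0 - a 1 1)) ?_ ?_ ?_ ?_⟩
      · ring
      · rw [h1] at e01 ⊢
        have : x 0 1 * (a 0 0 - a 1 1) = 0 := by linear_combination -e01
        rcases mul_eq_zero.mp this with h | h
        · rw [h, mul_zero]
        · exact absurd h h3
      · rw [h2] at e10 ⊢
        have : x 1 0 * (a 0 0 - a 1 1) = 0 := by linear_combination e10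
        rcases mul_eq_zero.mp this with h | h
        · rw [h, mul_zero]
        · exact absurd h h3
      · field_simp
        ring
    · refine ⟨_, _, fin (x 0 0 - x 1 0 / a 1 0 * a 0 0) (x 1 0 / a 1 0) ?_ ?_ ?_ ?_⟩
      · ring
      · field_simp
        linear_combination e00
      · field_simp
      · field_simp
        linear_combination e10
  · refine ⟨_, _, fin (x 0 0 - x 0 1 / a 0 1 * a 0 0) (x 0 1 / a 0 1) ?_ ?_ ?_ ?_⟩
    · ring
    · field_simp
    · field_simp
      linear_combination -e00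
    · field_simp
      linear_combination -e01

theorem STR_det (A : SL2 F) : A 0 0 * A 1 1 - A 0 1 * A 1 0 = 1 := by
  have := A.det_coe
  rwa [Matrix.det_fin_two] at this

theorem STR_tr (A : SL2 F) : tr A = A 0 0 + A 1 1 := by
  unfold tr
  exact Matrix.trace_fin_two _

/-- Cayley-Hamilton -/
theorem STR_ch (A : SL2 F) :
    (A : Matrix (Fin 2) (Fin 2) F) * A = tr A • (A : Matrix (Fin 2) (Fin 2) F) - 1 := by
  have h := STR_det A
  have h2 := STR_tr A
  ext i j
  fin_cases i <;> fin_cases j <;>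
    simp only [Matrix.mul_apply, Fin.sum_univ_two, Matrix.sub_apply, Matrix.smul_apply, h2,
      smul_eq_mul, Fin.zero_eta, Fin.mk_one, Matrix.one_apply_eq, Matrix.one_apply_ne, ne_eq,
      zero_ne_one, one_ne_zero, not_false_eq_true]
  · linear_combination -h
  · ring
  · ring
  · linear_combination -h

theorem STR_inv (A : SL2 F) :
    ((A⁻¹ : SL2 F) : Matrix (Fin 2) (Fin 2) F) = tr A • 1 - (A : Matrix (Fin 2) (Fin 2) F) := by
  rw [Matrix.SpecialLinearGroup.coe_inv, Matrix.adjugate_fin_two, STR_tr]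
  ext i j
  fin_cases i <;> fin_cases j <;> simp

theorem STR_det_lin (c d : F) (A : SL2 F) :
    (c • (1 : Matrix (Fin 2) (Fin 2) F) + d • (A : Matrix (Fin 2) (Fin 2) F)).det =
      c ^ 2 + c * d * tr A + d ^ 2 := by
  have h := STR_det A
  rw [Matrix.det_fin_two, STR_tr]
  simp only [Matrix.add_apply, Matrix.smul_apply, smul_eq_mul, Matrix.one_apply_eq,
    Matrix.one_apply_ne, ne_eq, zero_ne_one, one_ne_zero, not_false_eq_true]
  linear_combination d ^ 2 * h

theorem STR_tr_lin (c d : F) (A : SL2 F) :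
    (c • (1 : Matrix (Fin 2) (Fin 2) F) + d • (A : Matrix (Fin 2) (Fin 2) F)).trace =
      2 * c + d * tr A := by
  rw [Matrix.trace_fin_two, STR_tr]
  simp only [Matrix.add_apply, Matrix.smul_apply, smul_eq_mul, Matrix.one_apply_eq]
  ring

/-- noncentral elements are not scalar -/
theorem STR_ns {A : SL2 F} (hA : A ∉ center (SL2 F)) (c : F) :
    (A : Matrix (Fin 2) (Fin 2) F) ≠ c • 1 := by
  intro h
  apply hA
  rw [Matrix.SpecialLinearGroup.mem_center_iff]
  refine ⟨c, ?_, ?_⟩
  · have h1 := A.det_coe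
    rw [h, Matrix.det_smul, Matrix.det_one, mul_one] at h1
    exact h1
  · rw [h]
    ext i j
    fin_cases i <;> fin_cases j <;> simp

/-- commutators in the centre -/
theorem STR_pm {a b : SL2 F} (h : a * b * a⁻¹ * b⁻¹ ∈ center (SL2 F)) :
    a * b = b * a ∨ (a : Matrix (Fin 2) (Fin 2) F) * b = -((b : Matrix (Fin 2) (Fin 2) F) * a) := by
  rw [Matrix.SpecialLinearGroup.mem_center_iff] at h
  obtain ⟨r, hr, hrr⟩ := h
  have h1 : (a : Matrix (Fin 2) (Fin 2) F) * b = r • ((b : Matrix (Fin 2) (Fin 2) F) * a) := by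
    have h2 : a * b = (a * b * a⁻¹ * b⁻¹) * (b * a) := by group
    have h3 := congrArg (fun x : SL2 F => (x : Matrix (Fin 2) (Fin 2) F)) h2
    simp only [Matrix.SpecialLinearGroup.coe_mul] at h3 hrr
    rw [h3, ← hrr, Matrix.scalar_apply, ← Matrix.smul_one_eq_diagonal, Matrix.smul_mul,
      Matrix.one_mul]
  have h4 : (r - 1) * (r + 1) = 0 := by
    have : r ^ 2 = 1 := hr
    linear_combination this
  rcases mul_eq_zero.mp h4 with h5 | h5
  · left
    have h6 : r = 1 := sub_eq_zero.mp h5
    rw [h6, one_smul] at h1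
    apply Subtype.ext
    exact h1
  · right
    have h6 : r = -1 := eq_neg_of_add_eq_zero_left h5
    rw [h6, neg_one_smul] at h1
    exact h1

/-- the kernel of a nonzero singular matrix -/
theorem STR_ker {E : Matrix (Fin 2) (Fin 2) F} (hE : E ≠ 0) {v u : Fin 2 → F} (hv : v ≠ 0)
    (h1 : E.mulVec v = 0) (h2 : E.mulVec u = 0) : ∃ c : F, u = c • v := by
  have e1 (i : Fin 2) : E i 0 * v 0 + E i 1 * v 1 = 0 := by
    have := congrFun h1 i
    simpa [Matrix.mulVec, dotProduct, Fin.sum_univ_two] using this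
  have e2 (i : Fin 2) : E i 0 * u 0 + E i 1 * u 1 = 0 := by
    have := congrFun h2 i
    simpa [Matrix.mulVec, dotProduct, Fin.sum_univ_two] using this
  have hD : v 0 * u 1 - v 1 * u 0 = 0 := by
    by_contra hD
    apply hE
    ext i j
    have f0 : E i 0 * (v 0 * u 1 - v 1 * u 0) = 0 := by
      linear_combination u 1 * e1 i - v 1 * e2 i
    have f1 : E i 1 * (v 0 * u 1 - v 1 * u 0) = 0 := by
      linear_combination v 0 * e2 i - u 0 * e1 i
    fin_cases j
    · exact (mul_eq_zero.mp f0).resolve_right hD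
    · exact (mul_eq_zero.mp f1).resolve_right hD
  by_cases h0 : v 0 = 0
  · have h1 : v 1 ≠ 0 := by
      intro h
      apply hv
      ext i
      fin_cases i
      · exact h0
      · exact h
    refine ⟨u 1 / v 1, ?_⟩
    ext i
    fin_cases i
    · simp only [Fin.zero_eta, Pi.smul_apply, smul_eq_mul]
      field_simp
      linear_combination -hD
    · simp only [Fin.mk_one, Pi.smul_apply, smul_eq_mul]
      field_simp
  · refine ⟨u 0 / v 0, ?_⟩
    ext i
    fin_cases i
    · simp only [Fin.zero_eta, Pi.smul_apply, smul_eq_mul]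
      field_simp
    · simp only [Fin.mk_one, Pi.smul_apply, smul_eq_mul]
      field_simp
      linear_combination hD

/-- conjugation does not change the trace -/
theorem STR_trc (h a : SL2 F) : tr (h * a * h⁻¹) = tr a := by
  unfold tr
  rw [Matrix.SpecialLinearGroup.coe_mul, Matrix.trace_mul_comm,
    ← Matrix.SpecialLinearGroup.coe_mul, ← mul_assoc, inv_mul_cancel, one_mul]

/-- the commutative case, semisimple elements -/
theorem STR_a1 {t c d : F} (ht : t ^ 2 ≠ 4) (h1 : 2 * c + d * t = t)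
    (h2 : c ^ 2 + c * d * t + d ^ 2 = 1) : (c = 0 ∧ d = 1) ∨ (c = t ∧ d = -1) := by
  have h3 : (t ^ 2 - 4) * (1 - d ^ 2) = 0 := by
    linear_combination 4 * h2 - (2 * c + t * d + t) * h1
  have h4 : 1 - d ^ 2 = 0 := (mul_eq_zero.mp h3).resolve_left (sub_ne_zero.mpr ht)
  have h5 : (1 - d) * (1 + d) = 0 := by linear_combination h4
  by_cases h20 : (2 : F) = 0
  · have ht0 : t ≠ 0 := by
      rintro rfl
      apply ht
      linear_combination -2 * h20
    have hd : d = 1 := by
      rcases mul_eq_zero.mp h5 with h | h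
      · linear_combination -h
      · linear_combination h - h20
    have hc : c * (c + t) = 0 := by
      rw [hd] at h2
      linear_combination h2
    rcases mul_eq_zero.mp hc with h | h
    · exact Or.inl ⟨h, hd⟩
    · refine Or.inr ⟨?_, ?_⟩
      · linear_combination h - t * h20
      · rw [hd]
        linear_combination h20
  · rcases mul_eq_zero.mp h5 with h | h
    · have hd : d = 1 := by linear_combination -h
      refine Or.inl ⟨?_, hd⟩
      have : 2 * c = 0 := by
        rw [hd] at h1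
        linear_combination h1
      exact (mul_eq_zero.mp this).resolve_left h20
    · have hd : d = -1 := by linear_combination h
      refine Or.inr ⟨?_, hd⟩
      have : 2 * (c - t) = 0 := by
        rw [hd] at h1
        linear_combination h1
      exact sub_eq_zero.mp ((mul_eq_zero.mp this).resolve_left h20)

/-- elements which invert a semisimple element have trace zero -/
theorem STR_tr0 {h α : SL2 F} (ht : tr α ^ 2 ≠ 4) (hα : h * α = α⁻¹ * h) : tr h = 0 := by
  have e1 : (h : Matrix (Fin 2) (Fin 2) F) * α =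
      tr α • (h : Matrix (Fin 2) (Fin 2) F) - (α : Matrix (Fin 2) (Fin 2) F) * h := by
    have := congrArg (fun x : SL2 F => (x : Matrix (Fin 2) (Fin 2) F)) hα
    simp only [Matrix.SpecialLinearGroup.coe_mul] at this
    rw [this, STR_inv, Matrix.sub_mul, Matrix.smul_mul, Matrix.one_mul]
  have f1 : 2 * ((h : Matrix (Fin 2) (Fin 2) F) * α).trace = tr α * tr h := by
    have := congrArg Matrix.trace e1
    rw [Matrix.trace_sub, Matrix.trace_smul, smul_eq_mul] at this
    have hc := Matrix.trace_mul_comm (α : Matrix (Fin 2) (Fin 2) F)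
      (h : Matrix (Fin 2) (Fin 2) F)
    unfold tr at this ⊢
    linear_combination this - hc
  have e2 : (α : Matrix (Fin 2) (Fin 2) F) * ((h : Matrix (Fin 2) (Fin 2) F) * α) = h := by
    have := congrArg (fun x : SL2 F => (x : Matrix (Fin 2) (Fin 2) F))
      (show α * (h * α) = h by rw [hα, ← mul_assoc, mul_inv_cancel, one_mul])
    simpa only [Matrix.SpecialLinearGroup.coe_mul] using this
  have f2 : tr α * ((h : Matrix (Fin 2) (Fin 2) F) * α).trace = 2 * tr h := by
    have := congrArg Matrix.trace e2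
    rw [Matrix.trace_mul_comm, Matrix.mul_assoc, STR_ch, Matrix.mul_sub, Matrix.mul_smul,
      Matrix.mul_one, Matrix.trace_sub, Matrix.trace_smul, smul_eq_mul] at this
    unfold tr at this ⊢
    linear_combination this
  have f3 : (tr α ^ 2 - 4) * tr h = 0 := by
    linear_combination 2 * f2 - tr α * f1
  exact (mul_eq_zero.mp f3).resolve_left (sub_ne_zero.mpr ht)

/-- the conjugates of an element in the commutative case -/
theorem STR_conj {H N : Subgroup (SL2 F)} (hn : ∀ h ∈ H, ∀ n ∈ N, h * n * h⁻¹ ∈ N)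
    (hc : ∀ a ∈ N, ∀ b ∈ N, a * b = b * a) {α : SL2 F} (hα : α ∈ N)
    (hαc : α ∉ center (SL2 F)) {h : SL2 F} (hh : h ∈ H) :
    ∃ c d : F, ((h * α * h⁻¹ : SL2 F) : Matrix (Fin 2) (Fin 2) F) =
      c • 1 + d • (α : Matrix (Fin 2) (Fin 2) F) ∧ 2 * c + d * tr α = tr α ∧
      c ^ 2 + c * d * tr α + d ^ 2 = 1 := by
  have h1 := hc _ (hn h hh α hα) α hα
  have h2 := congrArg (fun x : SL2 F => (x : Matrix (Fin 2) (Fin 2) F)) h1
  simp only [Matrix.SpecialLinearGroup.coe_mul (h * α * h⁻¹),
    Matrix.SpecialLinearGroup.coe_mul α (h * α * h⁻¹)] at h2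
  obtain ⟨c, d, hcd⟩ := STR_comm (α : Matrix (Fin 2) (Fin 2) F) _ (STR_ns hαc) h2
  refine ⟨c, d, hcd, ?_, ?_⟩
  · rw [← STR_tr_lin c d α, ← hcd]
    exact STR_trc h α
  · rw [← STR_det_lin c d α, ← hcd]
    exact (h * α * h⁻¹).det_coe

/-- anticommuting elements have trace zero -/
theorem STR_anti_tr (h20 : (2 : F) ≠ 0) {x y : SL2 F}
    (h : (x : Matrix (Fin 2) (Fin 2) F) * y = -((y : Matrix (Fin 2) (Fin 2) F) * x)) :
    tr x = 0 := by
  have e1 : ((y * x * y⁻¹ : SL2 F) : Matrix (Fin 2) (Fin 2) F) =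
      -(x : Matrix (Fin 2) (Fin 2) F) := by
    have e2 : (y : Matrix (Fin 2) (Fin 2) F) * x = -((x : Matrix (Fin 2) (Fin 2) F) * y) := by
      rw [h, neg_neg]
    have e3 : (y : Matrix (Fin 2) (Fin 2) F) * ((y⁻¹ : SL2 F) : Matrix (Fin 2) (Fin 2) F) = 1 := by
      rw [← Matrix.SpecialLinearGroup.coe_mul, mul_inv_cancel]
      rfl
    rw [Matrix.SpecialLinearGroup.coe_mul (y * x) y⁻¹, Matrix.SpecialLinearGroup.coe_mul y x, e2,
      Matrix.neg_mul, Matrix.mul_assoc, e3, Matrix.mul_one]
  have e4 := STR_trc y x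
  unfold tr at e4 ⊢
  rw [e1, Matrix.trace_neg] at e4
  have e5 : 2 * (x : Matrix (Fin 2) (Fin 2) F).trace = 0 := by linear_combination -e4
  exact (mul_eq_zero.mp e5).resolve_left h20

/-- anticommuting elements are not scalar -/
theorem STR_anti_ns (h20 : (2 : F) ≠ 0) {x y : SL2 F}
    (h : (x : Matrix (Fin 2) (Fin 2) F) * y = -((y : Matrix (Fin 2) (Fin 2) F) * x)) (c : F) :
    (x : Matrix (Fin 2) (Fin 2) F) ≠ c • 1 := by
  intro hc
  rw [hc, Matrix.smul_mul, Matrix.mul_smul, Matrix.one_mul, Matrix.mul_one, eq_neg_iff_add_eq_zero,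
    ← two_smul F, smul_smul] at h
  have h1 : (2 * c) ^ 2 = 0 := by
    have := congrArg Matrix.det h
    rw [Matrix.det_smul, y.det_coe, mul_one, Matrix.det_zero] at this
    exact this
  have h2 : c = 0 := by
    rw [pow_eq_zero_iff (by norm_num)] at h1
    exact (mul_eq_zero.mp h1).resolve_left h20
  have h3 := x.det_coe
  rw [hc, h2, zero_smul, Matrix.det_zero] at h3
  exact zero_ne_one h3

/-- commuting elements of trace zero -/
theorem STR_pm1 (h20 : (2 : F) ≠ 0) {x n : SL2 F}
    (hx : ∀ c : F, (x : Matrix (Fin 2) (Fin 2) F) ≠ c • 1) (htx : tr x = 0) (htn : tr n = 0)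
    (h : (n : Matrix (Fin 2) (Fin 2) F) * x = (x : Matrix (Fin 2) (Fin 2) F) * n) :
    (n : Matrix (Fin 2) (Fin 2) F) = x ∨ (n : Matrix (Fin 2) (Fin 2) F) = -x := by
  obtain ⟨c, d, hcd⟩ := STR_comm _ _ hx h
  have h1 : 2 * c + d * tr x = 0 := by
    rw [← STR_tr_lin c d x, ← hcd]
    exact htn
  have h2 : c ^ 2 + c * d * tr x + d ^ 2 = 1 := by
    rw [← STR_det_lin c d x, ← hcd]
    exact n.det_coe
  rw [htx, mul_zero, add_zero] at h1
  have hc : c = 0 := (mul_eq_zero.mp h1).resolve_left h20
  rw [hc] at h2 hcd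
  have h3 : (d - 1) * (d + 1) = 0 := by linear_combination h2
  rcases mul_eq_zero.mp h3 with h4 | h4
  · left
    rw [hcd, show d = 1 from sub_eq_zero.mp h4, zero_smul, zero_add, one_smul]
  · right
    rw [hcd, show d = -1 from eq_neg_of_add_eq_zero_left h4, zero_smul, zero_add, neg_one_smul]

/-- the elements which commute or anticommute with `a` and `b` -/
theorem STR_six (h20 : (2 : F) ≠ 0) {a b n : SL2 F}
    (hab : (a : Matrix (Fin 2) (Fin 2) F) * b = -((b : Matrix (Fin 2) (Fin 2) F) * a))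
    (htn : tr n = 0)
    (ha : n * a = a * n ∨
      (n : Matrix (Fin 2) (Fin 2) F) * a = -((a : Matrix (Fin 2) (Fin 2) F) * n))
    (hb : n * b = b * n ∨
      (n : Matrix (Fin 2) (Fin 2) F) * b = -((b : Matrix (Fin 2) (Fin 2) F) * n)) :
    (n : Matrix (Fin 2) (Fin 2) F) = a ∨ (n : Matrix (Fin 2) (Fin 2) F) = -a ∨
    (n : Matrix (Fin 2) (Fin 2) F) = b ∨ (n : Matrix (Fin 2) (Fin 2) F) = -b ∨
    (n : Matrix (Fin 2) (Fin 2) F) = (a : Matrix (Fin 2) (Fin 2) F) * b ∨
    (n : Matrix (Fin 2) (Fin 2) F) = -((a : Matrix (Fin 2) (Fin 2) F) * b) := by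
  have hba : (b : Matrix (Fin 2) (Fin 2) F) * a = -((a : Matrix (Fin 2) (Fin 2) F) * b) := by
    rw [hab, neg_neg]
  rcases ha with ha | ha
  · have h1 := congrArg (fun x : SL2 F => (x : Matrix (Fin 2) (Fin 2) F)) ha
    simp only [Matrix.SpecialLinearGroup.coe_mul] at h1
    rcases STR_pm1 h20 (STR_anti_ns h20 hab) (STR_anti_tr h20 hab) htn h1 with h | h
    · exact Or.inl h
    · exact Or.inr (Or.inl h)
  · rcases hb with hb | hb
    · have h1 := congrArg (fun x : SL2 F => (x : Matrix (Fin 2) (Fin 2) F)) hb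
      simp only [Matrix.SpecialLinearGroup.coe_mul] at h1
      rcases STR_pm1 h20 (STR_anti_ns h20 hba) (STR_anti_tr h20 hba) htn h1 with h | h
      · exact Or.inr (Or.inr (Or.inl h))
      · exact Or.inr (Or.inr (Or.inr (Or.inl h)))
    · have h1 : ((a * b : SL2 F) : Matrix (Fin 2) (Fin 2) F) * b =
          -((b : Matrix (Fin 2) (Fin 2) F) * ((a * b : SL2 F) : Matrix (Fin 2) (Fin 2) F)) := by
        rw [Matrix.SpecialLinearGroup.coe_mul, ← Matrix.mul_assoc, hba, Matrix.neg_mul, neg_neg]
      have h2 : (n : Matrix (Fin 2) (Fin 2) F) * ((a * b : SL2 F) : Matrix (Fin 2) (Fin 2) F) =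
          ((a * b : SL2 F) : Matrix (Fin 2) (Fin 2) F) * n := by
        rw [Matrix.SpecialLinearGroup.coe_mul, ← Matrix.mul_assoc, ha, Matrix.neg_mul,
          Matrix.mul_assoc, hb, Matrix.mul_neg, neg_neg, Matrix.mul_assoc]
      rcases STR_pm1 h20 (STR_anti_ns h20 h1) (STR_anti_tr h20 h1) htn h2 with h | h
      · rw [Matrix.SpecialLinearGroup.coe_mul] at h
        exact Or.inr (Or.inr (Or.inr (Or.inr (Or.inl h))))
      · rw [Matrix.SpecialLinearGroup.coe_mul] at h
        exact Or.inr (Or.inr (Or.inr (Or.inr (Or.inr h))))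

end STR_aux

theorem prf_STR : STR := by
  intro F _ H N hNH hn hnc hcom
  obtain ⟨α, hαN, hαc⟩ := hnc
  by_cases hab : ∀ a ∈ N, ∀ b ∈ N, a * b = b * a
  · by_cases ht : tr α ^ 2 = 4
    · -- unipotent case
      left
      obtain ⟨e, he1, he2⟩ : ∃ e : F, 2 * e = tr α ∧ e ^ 2 = 1 := by
        by_cases h20 : (2 : F) = 0
        · refine ⟨1, ?_, by ring⟩
          have : tr α ^ 2 = 0 := by rw [ht]; linear_combination 2 * h20
          rw [pow_eq_zero_iff (by norm_num)] at this
          rw [this]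
          linear_combination h20
        · refine ⟨tr α / 2, by field_simp, ?_⟩
          rw [div_pow, ht]
          have h4 : (2 : F) ^ 2 ≠ 0 := pow_ne_zero 2 h20
          rw [div_eq_one_iff_eq h4]
          norm_num
      set E : Matrix (Fin 2) (Fin 2) F := (-e) • 1 + (1 : F) • (α : Matrix (Fin 2) (Fin 2) F)
        with hE
      have hE0 : E ≠ 0 := by
        intro h
        apply STR_ns hαc e
        rw [hE, one_smul, neg_smul] at h
        exact (neg_add_eq_zero.mp h).symm
      have hdet : E.det = 0 := by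
        rw [hE, STR_det_lin]
        linear_combination e * he1 - he2
      obtain ⟨v, hv, hEv⟩ := Matrix.exists_mulVec_eq_zero_iff.mpr hdet
      have hαv : (α : Matrix (Fin 2) (Fin 2) F).mulVec v = e • v := by
        rw [hE, Matrix.add_mulVec, Matrix.smul_mulVec, Matrix.smul_mulVec, Matrix.one_mulVec,
          one_smul, neg_smul] at hEv
        exact (neg_add_eq_zero.mp hEv).symm
      refine ⟨v, hv, fun h hh => ?_⟩
      obtain ⟨c, d, hcd, h1, h2⟩ := STR_conj hn hab hαN hαc hh
      have h3 : c + d * e = e := by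
        have : (c + d * e - e) ^ 2 = 0 := by
          linear_combination h2 + c * d * he1 + (d ^ 2 + 1) * he2 - e * h1 - d * e * he1 +
            e * he1 - 2 * he2
        rw [pow_eq_zero_iff (by norm_num)] at this
        exact sub_eq_zero.mp this
      have hd : d ≠ 0 := by
        rintro rfl
        rw [zero_mul, add_zero] at h3
        rw [zero_smul, add_zero] at hcd
        have h4 : (h : Matrix (Fin 2) (Fin 2) F) * α = c • (h : Matrix (Fin 2) (Fin 2) F) := by
          have h5 := congrArg (fun x : SL2 F => (x : Matrix (Fin 2) (Fin 2) F))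
            (show h * α = h * α * h⁻¹ * h by group)
          simp only [Matrix.SpecialLinearGroup.coe_mul (h * α * h⁻¹) h,
            Matrix.SpecialLinearGroup.coe_mul h α] at h5
          rw [h5, hcd, Matrix.smul_mul, Matrix.one_mul]
        apply STR_ns hαc c
        have h6 : ((h⁻¹ : SL2 F) : Matrix (Fin 2) (Fin 2) F) * h = 1 := by
          rw [← Matrix.SpecialLinearGroup.coe_mul, inv_mul_cancel]
          rfl
        calc (α : Matrix (Fin 2) (Fin 2) F) = ((h⁻¹ : SL2 F) : Matrix (Fin 2) (Fin 2) F) *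
              (h * α) := by rw [← Matrix.mul_assoc, h6, Matrix.one_mul]
          _ = c • 1 := by rw [h4, Matrix.mul_smul, h6]
      have h4 : (α : Matrix (Fin 2) (Fin 2) F).mulVec
          ((h : Matrix (Fin 2) (Fin 2) F).mulVec v) =
          e • ((h : Matrix (Fin 2) (Fin 2) F).mulVec v) := by
        have h5 := congrArg (fun x : SL2 F => (x : Matrix (Fin 2) (Fin 2) F))
          (show h * α * h⁻¹ * h = h * α by group)
        simp only [Matrix.SpecialLinearGroup.coe_mul (h * α * h⁻¹) h,
          Matrix.SpecialLinearGroup.coe_mul h α] at h5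
        have h6 : (((h * α * h⁻¹ : SL2 F) : Matrix (Fin 2) (Fin 2) F) * h).mulVec v =
            ((h : Matrix (Fin 2) (Fin 2) F) * α).mulVec v := by rw [h5]
        rw [← Matrix.mulVec_mulVec, ← Matrix.mulVec_mulVec, hαv, hcd, Matrix.add_mulVec,
          Matrix.smul_mulVec, Matrix.smul_mulVec, Matrix.one_mulVec, Matrix.mulVec_smul] at h6
        have h7 : d • (α : Matrix (Fin 2) (Fin 2) F).mulVec
            ((h : Matrix (Fin 2) (Fin 2) F).mulVec v) =
            d • (e • ((h : Matrix (Fin 2) (Fin 2) F).mulVec v)) := by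
          rw [smul_smul, show d * e = e - c by linear_combination h3, sub_smul, ← h6]
          abel
        exact smul_right_injective _ hd h7
      have h8 : E.mulVec ((h : Matrix (Fin 2) (Fin 2) F).mulVec v) = 0 := by
        rw [hE, Matrix.add_mulVec, Matrix.smul_mulVec, Matrix.smul_mulVec, Matrix.one_mulVec,
          one_smul, neg_smul, h4]
        exact neg_add_cancel _
      exact STR_ker hE0 hv hEv h8
    · -- torus case
      right
      left
      refine ⟨α, ht, fun h hh => ?_⟩
      obtain ⟨c, d, hcd, h1, h2⟩ := STR_conj hn hab hαN hαc hh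
      rcases STR_a1 ht h1 h2 with ⟨rfl, rfl⟩ | ⟨rfl, rfl⟩
      · left
        rw [zero_smul, zero_add, one_smul] at hcd
        have h3 : h * α * h⁻¹ = α := Subtype.ext hcd
        calc h * α = h * α * h⁻¹ * h := by group
          _ = α * h := by rw [h3]
      · right
        have h3 : h * α * h⁻¹ = α⁻¹ := by
          apply Subtype.ext
          rw [STR_inv, sub_eq_add_neg]
          rw [neg_one_smul] at hcd
          exact hcd
        have h4 : h * α = α⁻¹ * h := by
          calc h * α = h * α * h⁻¹ * h := by group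
            _ = α⁻¹ * h := by rw [h3]
        exact ⟨h4, STR_tr0 ht h4⟩
  · -- noncommutative case
    right
    right
    push Not at hab
    obtain ⟨a, haN, b, hbN, hne⟩ := hab
    have hanti : ∀ x ∈ N, ∀ y ∈ N, x * y = y * x ∨
        (x : Matrix (Fin 2) (Fin 2) F) * y = -((y : Matrix (Fin 2) (Fin 2) F) * x) :=
      fun x hx y hy => STR_pm (hcom x hx y hy)
    have hab1 : (a : Matrix (Fin 2) (Fin 2) F) * b = -((b : Matrix (Fin 2) (Fin 2) F) * a) :=
      (hanti a haN b hbN).resolve_left hne
    have h20 : (2 : F) ≠ 0 := by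
      intro h20
      apply hne
      apply Subtype.ext
      rw [Matrix.SpecialLinearGroup.coe_mul, Matrix.SpecialLinearGroup.coe_mul, hab1]
      have : (2 : F) • ((b : Matrix (Fin 2) (Fin 2) F) * a) = 0 := by rw [h20, zero_smul]
      rw [two_smul] at this
      exact neg_eq_of_add_eq_zero_left this
    have hba1 : (b : Matrix (Fin 2) (Fin 2) F) * a = -((a : Matrix (Fin 2) (Fin 2) F) * b) := by
      rw [hab1, neg_neg]
    have hta := STR_anti_tr h20 hab1
    have htb := STR_anti_tr h20 hba1
    refine ⟨h20, a, b, ?_, ?_, hab1, ?_⟩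
    · rw [STR_ch, hta, zero_smul, zero_sub]
    · rw [STR_ch, htb, zero_smul, zero_sub]
    · intro h hh
      refine ⟨((h * a * h⁻¹ : SL2 F) : Matrix (Fin 2) (Fin 2) F),
        ((h * b * h⁻¹ : SL2 F) : Matrix (Fin 2) (Fin 2) F), ?_, ?_, ?_, ?_⟩
      · have hx := hn h hh a haN
        exact STR_six h20 hab1 (by rw [STR_trc, hta]) (hanti _ hx a haN) (hanti _ hx b hbN)
      · have hx := hn h hh b hbN
        exact STR_six h20 hab1 (by rw [STR_trc, htb]) (hanti _ hx a haN) (hanti _ hx b hbN)
      · rw [← Matrix.SpecialLinearGroup.coe_mul, ← Matrix.SpecialLinearGroup.coe_mul,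
          inv_mul_cancel_right]
      · rw [← Matrix.SpecialLinearGroup.coe_mul, ← Matrix.SpecialLinearGroup.coe_mul,
          inv_mul_cancel_right]

end MP_8aaf67.PS
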