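import Pool.Agent.Work.MP_8aaf67_al.PS.Stmts

/-! # Choice of the traces, odd characteristic -/

set_option autoImplicit false

open Subgroup

namespace MP_8aaf67.PS

private lemma SelOdd_roots {F : Type} [Field F] [Fintype F] [DecidableEq F] (a : F) :
    (Finset.univ.filter (fun z : F => z ^ 2 = a)).card ≤ 2 := by
  by_cases h : ∃ w : F, w ^ 2 = a
  · obtain ⟨w, hw⟩ := h
    have hsub : Finset.univ.filter (fun z : F => z ^ 2 = a) ⊆ {w, -w} := by
      intro z hz
      rw [Finset.mem_filter] at hz
      have h1 : z ^ 2 = w ^ 2 := hz.2.trans hw.symm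
      rw [Finset.mem_insert, Finset.mem_singleton]
      exact sq_eq_sq_iff_eq_or_eq_neg.mp h1
    exact (Finset.card_le_card hsub).trans Finset.card_le_two
  · have : Finset.univ.filter (fun z : F => z ^ 2 = a) = ∅ := by
      ext z
      simp only [Finset.mem_filter, Finset.mem_univ, true_and, Finset.notMem_empty, iff_false]
      exact fun hz => h ⟨z, hz⟩
    rw [this]
    simp

private lemma SelOdd_quad {F : Type} [Field F] [Fintype F] (x c : F) (h2 : (2 : F) ≠ 0)
    (hx : x ^ 2 ≠ 4) : ∃ D G : F, D ^ 2 - x * G * D + G ^ 2 = c := by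
  have hchar : ringChar F ≠ 2 := by
    intro h4
    apply h2
    have h5 := (ringChar.spec F 2).mpr (by rw [h4])
    exact_mod_cast h5
  have hcard := FiniteField.odd_card_of_char_ne_two hchar
  have h4 : (4 : F) ≠ 0 := by
    have : (4 : F) = 2 * 2 := by norm_num
    rw [this]; exact mul_ne_zero h2 h2
  have hk : 1 - x ^ 2 / 4 ≠ 0 := by
    intro hk
    apply hx
    have : x ^ 2 / 4 = 1 := by linear_combination -hk
    rw [div_eq_iff h4] at this
    rw [this]; ring
  have hf : (Polynomial.X ^ 2 - Polynomial.C c : Polynomial F).degree = 2 :=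
    Polynomial.degree_X_pow_sub_C (by norm_num) c
  have hg : (Polynomial.C (1 - x ^ 2 / 4) * Polynomial.X ^ 2 : Polynomial F).degree = 2 :=
    Polynomial.degree_C_mul_X_pow 2 hk
  obtain ⟨a, b, hab⟩ := FiniteField.exists_root_sum_quadratic hf hg hcard
  simp only [Polynomial.eval_sub, Polynomial.eval_pow, Polynomial.eval_X, Polynomial.eval_C,
    Polynomial.eval_mul] at hab
  refine ⟨a + x * b / 2, b, ?_⟩
  have e : (a + x * b / 2) ^ 2 - x * b * (a + x * b / 2) + b ^ 2 =
      a ^ 2 + (1 - x ^ 2 / 4) * b ^ 2 := by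
    field_simp
    ring
  rw [e]
  linear_combination hab

/-- a field with 9 elements has characteristic 3 -/
private lemma SelOdd_nine {F : Type} [Field F] [Fintype F] (h : Fintype.card F = 9) :
    (3 : F) = 0 := by
  have h1 : ((Fintype.card F : ℕ) : F) = 0 := FiniteField.cast_card_eq_zero F
  rw [h] at h1
  have h2 : (3 : F) * 3 = 0 := by
    have : (3 : F) * 3 = ((9 : ℕ) : F) := by norm_num
    rw [this, h1]
  exact mul_self_eq_zero.mp h2

private lemma SelOdd_z {F : Type} [Field F] [Fintype F] (hc : 9 ≤ Fintype.card F)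
    (κ : F) : ∃ z : F, z ≠ 0 ∧ z ^ 2 ≠ 1 ∧ z ^ 2 ≠ 2 ∧ z ^ 2 ≠ 4 ∧ z ^ 2 ≠ κ + 2 := by
  classical
  let R : F → Finset F := fun a => Finset.univ.filter (fun z : F => z ^ 2 = a)
  have hR : ∀ a, (R a).card ≤ 2 := fun a => SelOdd_roots a
  have hmem : ∀ a z, z ∈ R a ↔ z ^ 2 = a := fun a z => by simp [R]
  rcases Nat.lt_or_ge 9 (Fintype.card F) with h10 | h10
  · let B : Finset F := {0} ∪ (R 1 ∪ (R 2 ∪ (R 4 ∪ R (κ + 2))))
    have hB : B.card ≤ 9 := by
      calc B.card ≤ ({0} : Finset F).card + (R 1 ∪ (R 2 ∪ (R 4 ∪ R (κ + 2)))).card :=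
            Finset.card_union_le _ _
        _ ≤ 1 + ((R 1).card + ((R 2).card + ((R 4).card + (R (κ + 2)).card))) := by
            refine Nat.add_le_add (by simp) ((Finset.card_union_le _ _).trans
              (Nat.add_le_add_left ((Finset.card_union_le _ _).trans
                (Nat.add_le_add_left (Finset.card_union_le _ _) _)) _))
        _ ≤ 9 := by
            have := hR 1
            have := hR 2
            have := hR 4
            have := hR (κ + 2)
            omega
    have hlt : B.card < (Finset.univ : Finset F).card := by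
      rw [Finset.card_univ]; omega
    obtain ⟨z, _, hz⟩ := Finset.exists_mem_notMem_of_card_lt_card hlt
    refine ⟨z, ?_, ?_, ?_, ?_, ?_⟩ <;> intro h <;> apply hz <;>
      simp only [B, Finset.mem_union, Finset.mem_singleton, hmem] <;> tauto
  · have h9 : Fintype.card F = 9 := by omega
    have h3 := SelOdd_nine h9
    have h41 : (4 : F) = 1 := by linear_combination h3
    let B : Finset F := {0} ∪ (R 1 ∪ (R 2 ∪ R (κ + 2)))
    have hB : B.card ≤ 7 := by
      calc B.card ≤ ({0} : Finset F).card + (R 1 ∪ (R 2 ∪ R (κ + 2))).card :=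
            Finset.card_union_le _ _
        _ ≤ 1 + ((R 1).card + ((R 2).card + (R (κ + 2)).card)) := by
            refine Nat.add_le_add (by simp) ((Finset.card_union_le _ _).trans
              (Nat.add_le_add_left (Finset.card_union_le _ _) _))
        _ ≤ 7 := by
            have := hR 1
            have := hR 2
            have := hR (κ + 2)
            omega
    have hlt : B.card < (Finset.univ : Finset F).card := by
      rw [Finset.card_univ]; omega
    obtain ⟨z, _, hz⟩ := Finset.exists_mem_notMem_of_card_lt_card hlt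
    refine ⟨z, ?_, ?_, ?_, ?_, ?_⟩
    · intro h; apply hz
      simp only [B, Finset.mem_union, Finset.mem_singleton, hmem]; tauto
    · intro h; apply hz
      simp only [B, Finset.mem_union, Finset.mem_singleton, hmem]; tauto
    · intro h; apply hz
      simp only [B, Finset.mem_union, Finset.mem_singleton, hmem]; tauto
    · intro h
      rw [h41] at h
      apply hz
      simp only [B, Finset.mem_union, Finset.mem_singleton, hmem]; tauto
    · intro h; apply hz
      simp only [B, Finset.mem_union, Finset.mem_singleton, hmem]; tauto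

theorem prf_SelOdd : SelOdd := by
  intro F _ _ h2 hc κ
  have := Fintype.ofFinite F
  rw [Nat.card_eq_fintype_card] at hc
  obtain ⟨z, hz0, hz1, hz2, hz4, hzk⟩ := SelOdd_z hc κ
  obtain ⟨x, y, hxy⟩ := SelOdd_quad z (κ + 2 - z ^ 2) h2 hz4
  refine ⟨x, y, z, ?_, ?_, hz0, hz1, hz2, hz4⟩
  · linear_combination hxy
  · by_contra h
    push Not at h
    obtain ⟨hx, hy⟩ := h
    apply hzk
    rw [hx, hy] at hxy
    linear_combination hxy

end MP_8aaf67.PS
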