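import Pool.Agent.Work.MP_8aaf67_al.PS.Stmts

/-!
# MP_8aaf67_al, project PS, item SolTri
-/

set_option autoImplicit false

open Subgroup

open scoped commutatorElement

namespace MP_8aaf67.PS

/-- a nontrivial soluble group has a nontrivial commutative normal subgroup -/
theorem SolTri_ab {K : Type*} [Group K] (hK : Group.IsSolvable K) (hne : Nontrivial K) :
    ∃ N : Subgroup K, N.Normal ∧ N ≠ ⊥ ∧ ∀ a ∈ N, ∀ b ∈ N, a * b = b * a := by
  classical
  have hex : ∃ n, derivedSeries K n = ⊥ := hK.solvable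
  obtain ⟨n, hn, hmin⟩ : ∃ n, derivedSeries K n = ⊥ ∧ ∀ m < n, derivedSeries K m ≠ ⊥ :=
    ⟨Nat.find hex, Nat.find_spec hex, fun m hm => Nat.find_min hex hm⟩
  obtain _ | n := n
  · exfalso
    rw [derivedSeries_zero] at hn
    exact top_ne_bot hn
  · refine ⟨derivedSeries K n, derivedSeries_normal K n, hmin n (Nat.lt_succ_self n), ?_⟩
    intro a ha b hb
    have h1 : ⁅a, b⁆ ∈ derivedSeries K (n + 1) := by
      rw [derivedSeries_succ]
      exact commutator_mem_commutator ha hb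
    rw [hn, mem_bot] at h1
    exact commutatorElement_eq_one_iff_mul_comm.1 h1

theorem SolTri_det {F : Type} [Field F] (X : SL2 F) (v : Fin 2 → F) (hv : v ≠ 0)
    (h : (X : Matrix (Fin 2) (Fin 2) F).mulVec v = v) : tr X = 2 := by
  have h1 : ((X : Matrix (Fin 2) (Fin 2) F) - 1).det = 0 := by
    rw [← Matrix.exists_mulVec_eq_zero_iff]
    exact ⟨v, hv, by rw [Matrix.sub_mulVec, Matrix.one_mulVec, h, sub_self]⟩
  have h2 := X.det_coe
  rw [Matrix.det_fin_two] at h1 h2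
  simp only [Matrix.sub_apply, Matrix.one_apply_eq, ne_eq, zero_ne_one, not_false_eq_true,
    Matrix.one_apply_ne, one_ne_zero, sub_zero] at h1
  unfold tr
  rw [Matrix.trace_fin_two]
  linear_combination h2 - h1

theorem SolTri_caseI {F : Type} [Field F] (A B : SL2 F)
    (h : CaseI (closure ({A, B} : Set (SL2 F)))) : tr (cm A B) = 2 := by
  obtain ⟨v, hv, h⟩ := h
  obtain ⟨c, hc⟩ := h A (subset_closure (by simp))
  obtain ⟨d, hd⟩ := h B (subset_closure (by simp))
  refine SolTri_det _ v hv ?_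
  have e1 : (B * A) * cm A B = A * B := by
    unfold cm; group
  have e2 : ((B * A : SL2 F) : Matrix (Fin 2) (Fin 2) F).mulVec
      (((cm A B : SL2 F) : Matrix (Fin 2) (Fin 2) F).mulVec v) =
      ((B * A : SL2 F) : Matrix (Fin 2) (Fin 2) F).mulVec v := by
    rw [Matrix.mulVec_mulVec, ← Matrix.SpecialLinearGroup.coe_mul, e1]
    rw [Matrix.SpecialLinearGroup.coe_mul, Matrix.SpecialLinearGroup.coe_mul,
      ← Matrix.mulVec_mulVec, ← Matrix.mulVec_mulVec, hd, hc, Matrix.mulVec_smul,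
      Matrix.mulVec_smul, hc, hd, smul_comm]
  have e3 : ((B * A : SL2 F) : Matrix (Fin 2) (Fin 2) F)⁻¹ *
      ((B * A : SL2 F) : Matrix (Fin 2) (Fin 2) F) = 1 :=
    Matrix.nonsing_inv_mul _ (by rw [Matrix.SpecialLinearGroup.det_coe]; exact isUnit_one)
  have e4 := congrArg (fun w => ((B * A : SL2 F) : Matrix (Fin 2) (Fin 2) F)⁻¹.mulVec w) e2
  simp only [Matrix.mulVec_mulVec] at e4
  rw [← Matrix.mul_assoc, e3, Matrix.one_mul, Matrix.one_mulVec] at e4
  exact e4

theorem SolTri_cm {G : Type*} [Group G] {A B : G} (h : A * B = B * A) : cm A B = 1 := by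
  unfold cm
  rw [mul_assoc, mul_assoc, h]
  group

theorem prf_SolTri (hSTR : STR) : SolTri := by
  intro F _ _ A B htr hNS
  unfold NS at hNS
  rw [not_not] at hNS
  have hpr : ∀ X : SL2 F, pr X = 1 ↔ X ∈ center (SL2 F) := fun X =>
    QuotientGroup.eq_one_iff X
  have hmul : ∀ X Y : SL2 F, pr (X * Y) = pr X * pr Y := fun X Y => rfl
  have hinv : ∀ X : SL2 F, pr X⁻¹ = (pr X)⁻¹ := fun X => rfl
  set H : Subgroup (SL2 F) := closure ({A, B} : Set (SL2 F)) with hH
  set Kb : Subgroup (PSL2 F) := closure ({pr A, pr B} : Set (PSL2 F)) with hKb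
  have hmap : H.map (QuotientGroup.mk' (center (SL2 F))) = Kb := by
    rw [hH, hKb, MonoidHom.map_closure, Set.image_pair]
    rfl
  have hHK : ∀ h ∈ H, pr h ∈ Kb := fun h hh => by
    rw [← hmap]
    exact mem_map_of_mem _ hh
  have hne : Nontrivial Kb := by
    rw [nontrivial_iff_ne_bot]
    intro hbot
    apply htr
    have hA : pr A = 1 := by
      have : pr A ∈ Kb := subset_closure (by simp)
      rwa [hbot, mem_bot] at this
    have hcomm : A * B = B * A := by
      have := mem_center_iff.1 ((hpr A).1 hA) B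
      exact this.symm
    rw [SolTri_cm hcomm]
    unfold tr
    rw [Matrix.SpecialLinearGroup.coe_one, Matrix.trace_one]
    simp
  obtain ⟨N, hN1, hN2, hN3⟩ := SolTri_ab hNS hne
  set Nb : Subgroup (PSL2 F) := N.map Kb.subtype with hNb
  have hNbK : Nb ≤ Kb := map_subtype_le N
  have hnorm : ∀ k ∈ Kb, ∀ n ∈ Nb, k * n * k⁻¹ ∈ Nb := by
    intro k hk n hn
    obtain ⟨n', hn', rfl⟩ := hn
    exact ⟨⟨k, hk⟩ * n' * ⟨k, hk⟩⁻¹, hN1.conj_mem n' hn' ⟨k, hk⟩, rfl⟩
  have hcomm : ∀ a ∈ Nb, ∀ b ∈ Nb, a * b = b * a := by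
    intro a ha b hb
    obtain ⟨a', ha', rfl⟩ := ha
    obtain ⟨b', hb', rfl⟩ := hb
    exact congrArg Subtype.val (hN3 a' ha' b' hb')
  set N' : Subgroup (SL2 F) := H ⊓ Nb.comap (QuotientGroup.mk' (center (SL2 F))) with hN'
  have hmem : ∀ n, n ∈ N' ↔ n ∈ H ∧ pr n ∈ Nb := fun n => Iff.rfl
  have key := hSTR F H N' inf_le_left ?_ ?_ ?_
  · rcases key with h | h | h
    · exact absurd (SolTri_caseI A B h) htr
    · exact Or.inl h
    · exact Or.inr h
  · intro h hh n hn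
    rw [hmem] at hn ⊢
    refine ⟨H.mul_mem (H.mul_mem hh hn.1) (H.inv_mem hh), ?_⟩
    rw [hmul, hmul, hinv]
    exact hnorm _ (hHK h hh) _ hn.2
  · obtain ⟨y, hy, hy1⟩ := (bot_or_exists_ne_one N).resolve_left hN2
    have hyK : (y : PSL2 F) ∈ H.map (QuotientGroup.mk' (center (SL2 F))) :=
      hmap.symm ▸ y.2
    obtain ⟨n, hn, hny⟩ := hyK
    refine ⟨n, (hmem n).2 ⟨hn, ⟨y, hy, hny.symm⟩⟩, ?_⟩
    intro hc
    have h1 : pr n = 1 := (hpr n).2 hc
    apply hy1
    apply Subtype.ext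
    exact hny.symm.trans h1
  · intro a ha b hb
    rw [hmem] at ha hb
    rw [← hpr, hmul, hmul, hmul, hinv, hinv, hcomm _ ha.2 _ hb.2]
    group

end MP_8aaf67.PS
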