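import Pool.Agent.Work.MP_8aaf67_al.PS.InvConj

/-!
# Project PS: Sylow 2-subgroups of PSL(2,F) are generated by involutions
-/

set_option autoImplicit false

open Subgroup Matrix

namespace MP_8aaf67.PS

theorem SylInv_one_iff {F : Type} [Field F] (A : SL2 F) :
    pr A = 1 ↔ A ∈ center (SL2 F) :=
  QuotientGroup.eq_one_iff A

theorem SylInv_mul {F : Type} [Field F] (A B : SL2 F) : pr (A * B) = pr A * pr B :=
  map_mul (QuotientGroup.mk' (center (SL2 F))) A B

theorem SylInv_sq {F : Type} [Field F] (D : SL2 F) (h : D.1 0 0 + D.1 1 1 = 0) :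
    pr D * pr D = 1 := by
  rw [← SylInv_mul, SylInv_one_iff]
  have hval : (D * D).1 = D.1 * D.1 := rfl
  apply InvConj_center
  · rw [hval, Matrix.mul_apply, Fin.sum_univ_two]
    linear_combination D.1 0 1 * h
  · rw [hval, Matrix.mul_apply, Fin.sum_univ_two]
    linear_combination D.1 1 0 * h
  · rw [hval, Matrix.mul_apply, Matrix.mul_apply, Fin.sum_univ_two, Fin.sum_univ_two]
    linear_combination (D.1 0 0 - D.1 1 1) * h

theorem SylInv_comm {F : Type} [Field F] (C D : SL2 F) (h : pr D * pr C = pr C * pr D) :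
    D * C = C * D ∨ D.1 * C.1 = -(C.1 * D.1) := by
  have h1 : pr (D * C * (C * D)⁻¹) = 1 := by
    have e : pr (D * C * (C * D)⁻¹) = pr (D * C) * (pr (C * D))⁻¹ := by
      rw [SylInv_mul]
      congr 1
    rw [e, SylInv_mul, SylInv_mul, h, mul_inv_cancel]
  rw [SylInv_one_iff, Matrix.SpecialLinearGroup.mem_center_iff] at h1
  obtain ⟨r, hr2, hr⟩ := h1
  rw [Fintype.card_fin] at hr2
  have h2 : D.1 * C.1 = (Matrix.scalar (Fin 2)) r * (C.1 * D.1) := by
    have h3 : D * C = (D * C * (C * D)⁻¹) * (C * D) := (inv_mul_cancel_right _ _).symm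
    have h4 : (D * C).1 = (D * C * (C * D)⁻¹).1 * (C * D).1 := congrArg Subtype.val h3
    rw [hr]
    exact h4
  have hr' : r = 1 ∨ r = -1 := by
    have h5 : (r - 1) * (r + 1) = 0 := by linear_combination hr2
    rcases mul_eq_zero.1 h5 with h6 | h6
    · left
      exact sub_eq_zero.1 h6
    · right
      exact eq_neg_of_add_eq_zero_left h6
  rcases hr' with rfl | rfl
  · left
    apply Subtype.ext
    have h6 : D.1 * C.1 = C.1 * D.1 := by rw [h2, map_one, one_mul]
    exact h6
  · right
    rw [h2, map_neg, map_one, neg_mul, one_mul]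

theorem SylInv_anti {F : Type} [Field F] {C D : SL2 F} (h2 : (2 : F) ≠ 0)
    (ht : C.1 0 0 + C.1 1 1 = 0) (h : D.1 * C.1 = -(C.1 * D.1)) :
    D.1 0 0 + D.1 1 1 = 0 := by
  have hd := InvConj_det C
  have e00 := congrFun (congrFun h 0) 0
  have e01 := congrFun (congrFun h 0) 1
  have e10 := congrFun (congrFun h 1) 0
  have e11 := congrFun (congrFun h 1) 1
  simp only [Matrix.mul_apply, Fin.sum_univ_two, Matrix.neg_apply] at e01 e10 e00 e11
  have h11 : C.1 1 1 = -C.1 0 0 := eq_neg_of_add_eq_zero_right ht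
  rw [h11] at e01 e11 hd
  have k1 : C.1 0 1 * (D.1 0 0 + D.1 1 1) = 0 := by linear_combination e01
  have k2 : 2 * (C.1 0 0 * (D.1 0 0 + D.1 1 1)) = 0 := by linear_combination e00 - e11
  have k3 : C.1 0 0 * (D.1 0 0 + D.1 1 1) = 0 := (mul_eq_zero.1 k2).resolve_left h2
  linear_combination -(D.1 0 0 + D.1 1 1) * hd - C.1 0 0 * k3 - C.1 1 0 * k1

theorem SylInv_char2 {F : Type} [Field F] {C D : SL2 F} (h2 : (2 : F) = 0)
    (hC : C ∉ center (SL2 F)) (ht : C.1 0 0 + C.1 1 1 = 0) (h : D.1 * C.1 = C.1 * D.1) :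
    D.1 0 0 + D.1 1 1 = 0 := by
  have e01 := congrFun (congrFun h 0) 1
  have e10 := congrFun (congrFun h 1) 0
  simp only [Matrix.mul_apply, Fin.sum_univ_two] at e01 e10
  have k1 : C.1 0 1 * (D.1 0 0 + D.1 1 1) = 0 := by
    linear_combination e01 - D.1 0 1 * ht + (C.1 0 1 * D.1 1 1 + C.1 0 0 * D.1 0 1) * h2
  have k2 : C.1 1 0 * (D.1 0 0 + D.1 1 1) = 0 := by
    linear_combination e10 - D.1 1 0 * ht + (C.1 1 0 * D.1 0 0 + C.1 1 1 * D.1 1 0) * h2
  by_contra h0
  apply hC
  refine InvConj_center ((mul_eq_zero.1 k1).resolve_right h0)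
    ((mul_eq_zero.1 k2).resolve_right h0) ?_
  linear_combination ht - C.1 1 1 * h2

/-- an element that anticommutes with `C` -/
theorem SylInv_J {F : Type} [Field F] [Finite F] {C : SL2 F} (hC : C ∉ center (SL2 F))
    (ht : C.1 0 0 + C.1 1 1 = 0) : ∃ J : SL2 F, J.1 * C.1 = -(C.1 * J.1) := by
  obtain ⟨P, hP, hCP⟩ := InvConj_P hC ht
  obtain ⟨a, b, hab⟩ := InvConj_sum_sq (F := F) (-1)
  have hadj : P.adjugate * C.1 = !![0, -1; 1, 0] * P.adjugate := by
    have h1 : P.adjugate * (C.1 * P) * P.adjugate =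
        P.adjugate * (P * !![0, -1; 1, 0]) * P.adjugate := by rw [hCP]
    have h2 : P.adjugate * (C.1 * P) * P.adjugate = P.det • (P.adjugate * C.1) := by
      rw [Matrix.mul_assoc, Matrix.mul_assoc, Matrix.mul_adjugate, Matrix.mul_smul,
        Matrix.mul_one, Matrix.mul_smul]
    have h3 : P.adjugate * (P * !![0, -1; 1, 0]) * P.adjugate =
        P.det • (!![0, -1; 1, 0] * P.adjugate) := by
      rw [← Matrix.mul_assoc P.adjugate P, Matrix.adjugate_mul, Matrix.smul_mul, Matrix.one_mul,
        Matrix.smul_mul]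
    rw [h2, h3] at h1
    exact smul_right_injective _ hP h1
  have hJ : (!![a, b; b, -a] : Matrix (Fin 2) (Fin 2) F) * !![0, -1; 1, 0] =
      -(!![0, -1; 1, 0] * !![a, b; b, -a]) := by
    ext i j
    fin_cases i <;> fin_cases j <;> simp [Matrix.mul_apply, Fin.sum_univ_two]
  set M : Matrix (Fin 2) (Fin 2) F := P.det⁻¹ • (P * !![a, b; b, -a] * P.adjugate) with hM
  have hMdet : M.det = 1 := by
    rw [hM, Matrix.det_smul, Matrix.det_mul, Matrix.det_mul, Matrix.det_fin_two_of,
      Matrix.det_adjugate]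
    rw [Fintype.card_fin]
    have h1 : a * -a - b * b = 1 := by linear_combination -hab
    rw [h1]
    show P.det⁻¹ ^ 2 * (P.det * 1 * P.det ^ 1) = 1
    field_simp
  refine ⟨⟨M, hMdet⟩, ?_⟩
  show M * C.1 = -(C.1 * M)
  rw [hM, Matrix.smul_mul, Matrix.mul_smul, ← smul_neg]
  congr 1
  rw [Matrix.mul_assoc, hadj, ← Matrix.mul_assoc, Matrix.mul_assoc P, hJ, Matrix.mul_neg,
    Matrix.neg_mul, ← Matrix.mul_assoc P, ← hCP]
  simp only [Matrix.mul_assoc]

/-- a central involution of a nontrivial 2-group -/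
theorem SylInv_cen {G : Type} [Group G] [Finite G] (P : Subgroup G) (hP : IsPGroup 2 P)
    (hbot : P ≠ ⊥) : ∃ v ∈ P, v ≠ 1 ∧ v * v = 1 ∧ ∀ x ∈ P, x * v = v * x := by
  have : Nontrivial P := (Subgroup.nontrivial_iff_ne_bot _).2 hbot
  have : Fact (Nat.Prime 2) := ⟨Nat.prime_two⟩
  have hnt : Nontrivial (center P) := hP.center_nontrivial
  have hcen : IsPGroup 2 (center P) := hP.to_subgroup _
  obtain ⟨n, hn⟩ := IsPGroup.iff_card.1 hcen
  have h2 : 2 ∣ Nat.card (center P) := by
    have h1 : 1 < Nat.card (center P) := Finite.one_lt_card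
    rw [hn] at h1 ⊢
    apply dvd_pow_self
    rintro rfl
    simp at h1
  obtain ⟨z, hz⟩ := exists_prime_orderOf_dvd_card' 2 h2
  have hz2 : z * z = 1 := by
    rw [← pow_two, ← hz, pow_orderOf_eq_one]
  have hz1 : z ≠ 1 := by
    rintro rfl
    rw [orderOf_one] at hz
    omega
  refine ⟨z.1.1, z.1.2, ?_, ?_, ?_⟩
  · intro h
    apply hz1
    apply Subtype.ext
    apply Subtype.ext
    exact h
  · exact congrArg Subtype.val (congrArg Subtype.val hz2)
  · intro x hx
    exact congrArg Subtype.val (Subgroup.mem_center_iff.1 z.2 ⟨x, hx⟩)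

/-- generation by involutions from a subgroup of index two -/
theorem SylInv_gen {G : Type} [Group G] [Finite G] (P : Sylow 2 G) (A K : Subgroup G)
    (hPK : (P : Subgroup G) ≤ K) (hrel : A.relIndex K = 2)
    (hinv : ∀ x ∈ (P : Subgroup G), x ∉ A → x * x = 1) :
    (P : Subgroup G) ≤ closure {t | t ∈ (P : Subgroup G) ∧ t * t = 1} := by
  have hnot : ¬ (P : Subgroup G) ≤ A := by
    intro hPA
    have hAK : A.relIndex K = 2 := hrel
    have h1 : (P : Subgroup G).relIndex K = (P : Subgroup G).relIndex (A ⊓ K) * 2 := by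
      have h0 : (A ⊓ K).relIndex K = 2 := by rw [Subgroup.inf_relIndex_right, hrel]
      have h00 := Subgroup.relIndex_mul_relIndex (P : Subgroup G) (A ⊓ K) K (le_inf hPA hPK)
        inf_le_right
      rw [h0] at h00
      exact h00.symm
    have h2 : (P : Subgroup G).relIndex K ∣ (P : Subgroup G).index :=
      Subgroup.relIndex_dvd_index_of_le hPK
    have h3 : ¬ 2 ∣ (P : Subgroup G).index := P.not_dvd_index
    apply h3
    refine dvd_trans ?_ h2
    rw [h1]
    exact Dvd.intro_left _ rfl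
  obtain ⟨b, hbP, hbA⟩ := SetLike.not_le_iff_exists.1 hnot
  have hmem : ∀ x ∈ (P : Subgroup G), x ∉ A →
      x ∈ closure {t | t ∈ (P : Subgroup G) ∧ t * t = 1} := by
    intro x hx hxA
    exact Subgroup.subset_closure ⟨hx, hinv x hx hxA⟩
  intro a ha
  by_cases haA : a ∈ A
  · have h1 : a * b ∉ A := fun h => hbA ((A.mul_mem_cancel_left haA).1 h)
    have h2 := hmem (a * b) (mul_mem ha hbP) h1
    have h3 := hmem b hbP hbA
    have h4 : a = (a * b) * b⁻¹ := (mul_inv_cancel_right a b).symm
    rw [h4]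
    exact mul_mem h2 (inv_mem h3)
  · exact hmem a ha haA

theorem prf_SylInv : SylInv := by
  intro F _ _ P
  apply le_antisymm
  swap
  · rw [closure_le]
    rintro t ⟨ht, -⟩
    exact ht
  by_cases hbot : (P : Subgroup (PSL2 F)) = ⊥
  · rw [hbot]
    exact bot_le
  obtain ⟨v, hvP, hv1, hv2, hvc⟩ := SylInv_cen (P : Subgroup (PSL2 F)) P.2 hbot
  obtain ⟨C, rfl⟩ := QuotientGroup.mk'_surjective (center (SL2 F)) v
  change pr C ≠ 1 at hv1
  change pr C * pr C = 1 at hv2
  have hC : C ∉ center (SL2 F) := fun h => hv1 ((SylInv_one_iff C).2 h)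
  have hC2 : C * C ∈ center (SL2 F) := by
    rw [← SylInv_one_iff, SylInv_mul]
    exact hv2
  have ht := InvConj_tr hC hC2
  have hcom : ∀ D : SL2 F, pr D ∈ (P : Subgroup (PSL2 F)) →
      D * C = C * D ∨ D.1 * C.1 = -(C.1 * D.1) := by
    intro D hD
    exact SylInv_comm C D (hvc _ hD)
  by_cases h2 : (2 : F) = 0
  · intro x hx
    obtain ⟨D, rfl⟩ := QuotientGroup.mk'_surjective (center (SL2 F)) x
    apply Subgroup.subset_closure
    refine ⟨hx, ?_⟩
    apply SylInv_sq D
    have h3 : D.1 * C.1 = C.1 * D.1 := by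
      rcases hcom D hx with h | h
      · exact congrArg Subtype.val h
      · rw [h]
        ext i j
        rw [Matrix.neg_apply]
        linear_combination -((C.1 * D.1) i j) * h2
    exact SylInv_char2 h2 hC ht h3
  · let A : Subgroup (PSL2 F) :=
      (centralizer ({C} : Set (SL2 F))).map (QuotientGroup.mk' (center (SL2 F)))
    let K : Subgroup (PSL2 F) := centralizer ({pr C} : Set (PSL2 F))
    have hmA : ∀ D : SL2 F, D * C = C * D → pr D ∈ A := by
      intro D hD
      refine ⟨D, ?_, rfl⟩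
      rw [SetLike.mem_coe, mem_centralizer_singleton_iff]
      exact hD
    have hmA' : ∀ D : SL2 F, D.1 * C.1 = -(C.1 * D.1) → pr D ∉ A := by
      rintro D hD ⟨E, hE, hED⟩
      rw [SetLike.mem_coe, mem_centralizer_singleton_iff] at hE
      have h3 : pr (E⁻¹ * D) = 1 := by
        have e : pr (E⁻¹ * D) = (pr E)⁻¹ * pr D := by
          rw [SylInv_mul]
          congr 1
        rw [e]
        have hED' : pr E = pr D := hED
        rw [hED', inv_mul_cancel]
      rw [SylInv_one_iff] at h3
      have h4 : D * C = C * D := by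
        have h5 : D = E * (E⁻¹ * D) := (mul_inv_cancel_left E D).symm
        have h6 := Subgroup.mem_center_iff.1 h3 C
        rw [h5, mul_assoc, ← h6, ← mul_assoc, ← mul_assoc, hE, mul_assoc, mul_assoc]
      have h7 : D.1 * C.1 = C.1 * D.1 := congrArg Subtype.val h4
      rw [h7] at hD
      have hdet : (C.1 * D.1).det = 1 := by
        rw [Matrix.det_mul, C.2, D.2, one_mul]
      have hz : C.1 * D.1 = 0 := by
        ext i j
        have h8 := congrFun (congrFun hD i) j
        rw [Matrix.neg_apply] at h8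
        have h9 : 2 * (C.1 * D.1) i j = 0 := by linear_combination h8
        exact (mul_eq_zero.1 h9).resolve_left h2
      rw [hz, Matrix.det_zero] at hdet
      exact zero_ne_one hdet
    have hK : ∀ D : SL2 F, pr D ∈ K → D * C = C * D ∨ D.1 * C.1 = -(C.1 * D.1) := by
      intro D hD
      rw [mem_centralizer_singleton_iff] at hD
      exact SylInv_comm C D hD
    have hrel : A.relIndex K = 2 := by
      rw [Subgroup.relIndex_eq_two_iff]
      obtain ⟨J, hJ⟩ := SylInv_J hC ht
      refine ⟨pr J, ?_, ?_⟩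
      · rw [mem_centralizer_singleton_iff]
        have h3 : ((J * C) * (C * J)⁻¹) ∈ center (SL2 F) := by
          rw [Matrix.SpecialLinearGroup.mem_center_iff]
          refine ⟨-1, by simp, ?_⟩
          have h4 : (J * C).1 = -(C * J).1 := hJ
          show _ = (J * C).1 * ((C * J)⁻¹).1
          rw [h4, Matrix.neg_mul]
          have h5 : (C * J).1 * ((C * J)⁻¹).1 = 1 := by
            have := congrArg Subtype.val (mul_inv_cancel (C * J))
            exact this
          rw [h5, map_neg, map_one]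
        rw [← SylInv_one_iff] at h3
        have e : pr ((J * C) * (C * J)⁻¹) = pr (J * C) * (pr (C * J))⁻¹ := by
          rw [SylInv_mul]
          congr 1
        rw [e, mul_inv_eq_one, SylInv_mul, SylInv_mul] at h3
        exact h3
      · intro y hy
        obtain ⟨D, rfl⟩ := QuotientGroup.mk'_surjective (center (SL2 F)) y
        have hDJ : (D * J).1 * C.1 = D.1 * (J.1 * C.1) := Matrix.mul_assoc _ _ _
        change Xor (pr D * pr J ∈ A) (pr D ∈ A)
        rw [← SylInv_mul]
        rcases hK D hy with h | h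
        · right
          refine ⟨hmA D h, ?_⟩
          apply hmA'
          rw [hDJ, hJ, Matrix.mul_neg, ← Matrix.mul_assoc]
          have h' : D.1 * C.1 = C.1 * D.1 := congrArg Subtype.val h
          rw [h', Matrix.mul_assoc]
          rfl
        · left
          refine ⟨?_, hmA' D h⟩
          apply hmA
          apply Subtype.ext
          show (D * J).1 * C.1 = C.1 * (D * J).1
          rw [hDJ, hJ, Matrix.mul_neg, ← Matrix.mul_assoc, h, Matrix.neg_mul, neg_neg,
            Matrix.mul_assoc]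
          rfl
    apply SylInv_gen P A K ?_ hrel
    · intro x hx hxA
      obtain ⟨D, rfl⟩ := QuotientGroup.mk'_surjective (center (SL2 F)) x
      apply SylInv_sq D
      rcases hcom D hx with h | h
      · exact absurd (hmA D h) hxA
      · exact SylInv_anti h2 ht h
    · intro x hx
      rw [mem_centralizer_singleton_iff]
      exact hvc x hx

end MP_8aaf67.PS
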