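import Pool.Agent.Work.MP_8aaf67_al.PS.Stmts

/-!
# The trace of a commutator in SL(2,F)
-/

set_option autoImplicit false

open Subgroup

namespace MP_8aaf67.PS

theorem prf_TrC : TrC := by
  intro F _ A B
  have hA : (A : Matrix (Fin 2) (Fin 2) F) 0 0 * (A : Matrix (Fin 2) (Fin 2) F) 1 1 -
      (A : Matrix (Fin 2) (Fin 2) F) 0 1 * (A : Matrix (Fin 2) (Fin 2) F) 1 0 = 1 := by
    rw [← Matrix.det_fin_two]
    exact A.det_coe
  have hB : (B : Matrix (Fin 2) (Fin 2) F) 0 0 * (B : Matrix (Fin 2) (Fin 2) F) 1 1 -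
      (B : Matrix (Fin 2) (Fin 2) F) 0 1 * (B : Matrix (Fin 2) (Fin 2) F) 1 0 = 1 := by
    rw [← Matrix.det_fin_two]
    exact B.det_coe
  simp only [tr, cm, Matrix.SpecialLinearGroup.coe_mul, Matrix.SpecialLinearGroup.coe_inv,
    Matrix.adjugate_fin_two, Matrix.trace_fin_two, Matrix.mul_apply, Fin.sum_univ_two,
    Matrix.of_apply, Matrix.cons_val', Matrix.cons_val_zero, Matrix.cons_val_one,
    Matrix.empty_val', Matrix.cons_val_fin_one]
  generalize (A : Matrix (Fin 2) (Fin 2) F) 0 0 = a at *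
  generalize (A : Matrix (Fin 2) (Fin 2) F) 0 1 = b at *
  generalize (A : Matrix (Fin 2) (Fin 2) F) 1 0 = c at *
  generalize (A : Matrix (Fin 2) (Fin 2) F) 1 1 = d at *
  generalize (B : Matrix (Fin 2) (Fin 2) F) 0 0 = e at *
  generalize (B : Matrix (Fin 2) (Fin 2) F) 0 1 = f at *
  generalize (B : Matrix (Fin 2) (Fin 2) F) 1 0 = g at *
  generalize (B : Matrix (Fin 2) (Fin 2) F) 1 1 = h at *
  linear_combination ((a + d) ^ 2 - 2) * hB + ((e + h) ^ 2 - 2 * (e * h - f * g)) * hA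

end MP_8aaf67.PS
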