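import Pool.Agent.Work.MP_8aaf67_al.PS.Stmts

/-! Each of the three cases gives a soluble group. -/

set_option autoImplicit false

open Subgroup

namespace MP_8aaf67.PS

/-! ### Group theory -/

private theorem TriSol_step {G : Type} [Group G] (H H1 : Subgroup G)
    (h : ∀ a ∈ H, ∀ b ∈ H, a * b * a⁻¹ * b⁻¹ ∈ H1) (h1 : Group.IsSolvable H1) :
    Group.IsSolvable H := by
  have hle : commutator H ≤ H1.comap H.subtype := by
    refine Subgroup.commutator_le.2 ?_
    intro a _ b _
    exact h a a.2 b b.2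
  let f : commutator H →* H1 :=
    ((H.subtype).comp (commutator H).subtype).codRestrict H1 (fun x => hle x.2)
  have hf : Function.Injective f := by
    intro x y hxy
    apply Subtype.ext
    apply Subtype.ext
    exact congrArg (fun z : H1 => (z : G)) hxy
  have hs : Group.IsSolvable (commutator H) := Group.isSolvable_of_isSolvable_injective hf
  refine Group.isSolvable_of_ker_le_range (commutator H).subtype
    (Abelianization.of : H →* Abelianization H) ?_
  rw [Abelianization.ker_of, Subgroup.range_subtype]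

private theorem TriSol_perm3 : Group.IsSolvable (Equiv.Perm (Fin 3)) := by
  have hk : Group.IsSolvable (MonoidHom.ker (Equiv.Perm.sign : Equiv.Perm (Fin 3) →* ℤˣ)) := by
    apply Group.isSolvable_of_comm
    rintro ⟨a, ha⟩ ⟨b, hb⟩
    apply Subtype.ext
    have key : ∀ a b : Equiv.Perm (Fin 3), Equiv.Perm.sign a = 1 → Equiv.Perm.sign b = 1 →
        a * b = b * a := by decide
    exact key a b (MonoidHom.mem_ker.1 ha) (MonoidHom.mem_ker.1 hb)
  refine Group.isSolvable_of_ker_le_range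
    (MonoidHom.ker (Equiv.Perm.sign : Equiv.Perm (Fin 3) →* ℤˣ)).subtype
    (Equiv.Perm.sign : Equiv.Perm (Fin 3) →* ℤˣ) ?_
  rw [Subgroup.range_subtype]

private theorem TriSol_act {G : Type} [Group G] (H K : Subgroup G) (R : G → Fin 3 → Fin 3 → Prop)
    (hex : ∀ h ∈ H, ∀ i, ∃ j, R h i j) (hun : ∀ h ∈ H, ∀ i j j', R h i j → R h i j' → j = j')
    (h1 : ∀ i, R 1 i i) (hm : ∀ g ∈ H, ∀ h ∈ H, ∀ i j l, R h i j → R g j l → R (g * h) i l)
    (hK : ∀ h ∈ H, (∀ i, R h i i) → h ∈ K) (hs : Group.IsSolvable K) : Group.IsSolvable H := by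
  choose! f hf using hex
  let act : MulAction H (Fin 3) :=
    { smul := fun h i => f h i
      one_smul := fun i => hun 1 H.one_mem i _ _ (hf 1 H.one_mem i) (h1 i)
      mul_smul := fun g h i => hun _ (H.mul_mem g.2 h.2) i _ _ (hf _ (H.mul_mem g.2 h.2) i)
        (hm g g.2 h h.2 i _ _ (hf h h.2 i) (hf g g.2 _)) }
  let φ : H →* Equiv.Perm (Fin 3) := @MulAction.toPermHom H (Fin 3) _ act
  have hφ : ∀ (h : H) (i : Fin 3), φ h i = f h i := fun _ _ => rfl
  have hle : ∀ x ∈ φ.ker, (x : G) ∈ K := by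
    intro x hx
    apply hK x x.2
    intro i
    have h2 := hf x x.2 i
    have h3 : f x i = i := by
      rw [← hφ, MonoidHom.mem_ker.1 hx]
      rfl
    rwa [h3] at h2
  let g : φ.ker →* K :=
    ((H.subtype).comp φ.ker.subtype).codRestrict K (fun x => hle x x.2)
  have hg : Function.Injective g := by
    intro x y hxy
    apply Subtype.ext
    apply Subtype.ext
    exact congrArg (fun z : K => (z : G)) hxy
  have hsk : Group.IsSolvable φ.ker := Group.isSolvable_of_isSolvable_injective hg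
  have hp := TriSol_perm3
  refine Group.isSolvable_of_ker_le_range φ.ker.subtype φ ?_
  rw [Subgroup.range_subtype]

/-! ### Matrices -/

variable {F : Type} [Field F]

private theorem TriSol_prop {b c e y z s y' z' s' : F} (h : b ≠ 0 ∨ c ≠ 0 ∨ e ≠ 0)
    (h1 : y * c = z * b) (h2 : y * e = s * b) (h3 : z * e = s * c) (h1' : y' * c = z' * b)
    (h2' : y' * e = s' * b) (h3' : z' * e = s' * c) :
    y * z' = y' * z ∧ y * s' = y' * s ∧ z * s' = z' * s := by
  rcases h with h | h | h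
  · have k1 : y * z' = y' * z := by
      apply mul_left_cancel₀ h
      linear_combination y' * h1 - y * h1'
    have k2 : y * s' = y' * s := by
      apply mul_left_cancel₀ h
      linear_combination y' * h2 - y * h2'
    have k3 : z * s' = z' * s := by
      apply mul_left_cancel₀ h
      linear_combination z' * h2 - z * h2' - e * k1
    exact ⟨k1, k2, k3⟩
  · have k1 : y * z' = y' * z := by
      apply mul_left_cancel₀ h
      linear_combination z' * h1 - z * h1'
    have k3 : z * s' = z' * s := by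
      apply mul_left_cancel₀ h
      linear_combination z' * h3 - z * h3'
    have k2 : y * s' = y' * s := by
      apply mul_left_cancel₀ h
      linear_combination s' * h1 - s * h1' + b * k3
    exact ⟨k1, k2, k3⟩
  · have k2 : y * s' = y' * s := by
      apply mul_left_cancel₀ h
      linear_combination s' * h2 - s * h2'
    have k3 : z * s' = z' * s := by
      apply mul_left_cancel₀ h
      linear_combination s' * h3 - s * h3'
    have k1 : y * z' = y' * z := by
      apply mul_left_cancel₀ h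
      linear_combination y * h3' - y' * h3 + c * k2
    exact ⟨k1, k2, k3⟩

/-- matrices which commute with a matrix that is not scalar commute -/
private theorem TriSol_cen (M A B : Matrix (Fin 2) (Fin 2) F)
    (hM : M 0 1 ≠ 0 ∨ M 1 0 ≠ 0 ∨ M 0 0 - M 1 1 ≠ 0) (hA : A * M = M * A) (hB : B * M = M * B) :
    A * B = B * A := by
  have ent : ∀ X : Matrix (Fin 2) (Fin 2) F, X * M = M * X →
      X 0 1 * M 1 0 = X 1 0 * M 0 1 ∧ X 0 1 * (M 0 0 - M 1 1) = (X 0 0 - X 1 1) * M 0 1 ∧
      X 1 0 * (M 0 0 - M 1 1) = (X 0 0 - X 1 1) * M 1 0 := by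
    intro X hX
    have e00 := congrFun (congrFun hX 0) 0
    have e01 := congrFun (congrFun hX 0) 1
    have e10 := congrFun (congrFun hX 1) 0
    simp only [Matrix.mul_apply, Fin.sum_univ_two] at e00 e01 e10
    refine ⟨by linear_combination e00, by linear_combination -e01, by linear_combination e10⟩
  obtain ⟨a1, a2, a3⟩ := ent A hA
  obtain ⟨b1, b2, b3⟩ := ent B hB
  obtain ⟨k1, k2, k3⟩ := TriSol_prop hM a1 a2 a3 b1 b2 b3
  ext i j
  fin_cases i <;> fin_cases j <;>
    simp only [Matrix.mul_apply, Fin.sum_univ_two, Fin.zero_eta, Fin.mk_one, Fin.isValue]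
  · linear_combination k1
  · linear_combination -k2
  · linear_combination k3
  · linear_combination -k1

/-- the matrices of `SL2` which commute with `M` -/
private def TriSol_C (M : Matrix (Fin 2) (Fin 2) F) : Subgroup (SL2 F) where
  carrier := {g | (g : Matrix (Fin 2) (Fin 2) F) * M = M * (g : Matrix (Fin 2) (Fin 2) F)}
  one_mem' := by
    change ((1 : SL2 F) : Matrix (Fin 2) (Fin 2) F) * M =
      M * ((1 : SL2 F) : Matrix (Fin 2) (Fin 2) F)
    rw [Matrix.SpecialLinearGroup.coe_one, one_mul, mul_one]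
  mul_mem' := by
    intro a b ha hb
    change ((a * b : SL2 F) : Matrix (Fin 2) (Fin 2) F) * M =
      M * ((a * b : SL2 F) : Matrix (Fin 2) (Fin 2) F)
    change (a : Matrix (Fin 2) (Fin 2) F) * M = M * (a : Matrix (Fin 2) (Fin 2) F) at ha
    change (b : Matrix (Fin 2) (Fin 2) F) * M = M * (b : Matrix (Fin 2) (Fin 2) F) at hb
    rw [Matrix.SpecialLinearGroup.coe_mul, mul_assoc, hb, ← mul_assoc, ha, mul_assoc]
  inv_mem' := by
    intro a ha
    change ((a⁻¹ : SL2 F) : Matrix (Fin 2) (Fin 2) F) * M =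
      M * ((a⁻¹ : SL2 F) : Matrix (Fin 2) (Fin 2) F)
    change (a : Matrix (Fin 2) (Fin 2) F) * M = M * (a : Matrix (Fin 2) (Fin 2) F) at ha
    have h1 : ((a⁻¹ : SL2 F) : Matrix (Fin 2) (Fin 2) F) * (a : Matrix (Fin 2) (Fin 2) F) = 1 := by
      rw [← Matrix.SpecialLinearGroup.coe_mul, inv_mul_cancel, Matrix.SpecialLinearGroup.coe_one]
    have h2 : (a : Matrix (Fin 2) (Fin 2) F) * ((a⁻¹ : SL2 F) : Matrix (Fin 2) (Fin 2) F) = 1 := by
      rw [← Matrix.SpecialLinearGroup.coe_mul, mul_inv_cancel, Matrix.SpecialLinearGroup.coe_one]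
    calc ((a⁻¹ : SL2 F) : Matrix (Fin 2) (Fin 2) F) * M
        = ((a⁻¹ : SL2 F) : Matrix (Fin 2) (Fin 2) F) * (M * ((a : Matrix (Fin 2) (Fin 2) F) *
          ((a⁻¹ : SL2 F) : Matrix (Fin 2) (Fin 2) F))) := by rw [h2, mul_one]
      _ = (((a⁻¹ : SL2 F) : Matrix (Fin 2) (Fin 2) F) * (a : Matrix (Fin 2) (Fin 2) F)) * (M *
          ((a⁻¹ : SL2 F) : Matrix (Fin 2) (Fin 2) F)) := by
          rw [← mul_assoc M, ← ha]
          simp only [mul_assoc]
      _ = M * ((a⁻¹ : SL2 F) : Matrix (Fin 2) (Fin 2) F) := by rw [h1, one_mul]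

private theorem TriSol_Csol (M : Matrix (Fin 2) (Fin 2) F)
    (hM : M 0 1 ≠ 0 ∨ M 1 0 ≠ 0 ∨ M 0 0 - M 1 1 ≠ 0) : Group.IsSolvable (TriSol_C M) := by
  apply Group.isSolvable_of_comm
  rintro ⟨a, ha⟩ ⟨b, hb⟩
  apply Subtype.ext
  apply Subtype.ext
  change ((a * b : SL2 F) : Matrix (Fin 2) (Fin 2) F) = ((b * a : SL2 F) : Matrix (Fin 2) (Fin 2) F)
  rw [Matrix.SpecialLinearGroup.coe_mul, Matrix.SpecialLinearGroup.coe_mul]
  exact TriSol_cen M _ _ hM ha hb

/-! ### Case one -/

/-- the stabiliser of a vector -/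
private def TriSol_S (v : Fin 2 → F) : Subgroup (SL2 F) where
  carrier := {g | (g : Matrix (Fin 2) (Fin 2) F).mulVec v = v}
  one_mem' := by
    change ((1 : SL2 F) : Matrix (Fin 2) (Fin 2) F).mulVec v = v
    rw [Matrix.SpecialLinearGroup.coe_one, Matrix.one_mulVec]
  mul_mem' := by
    intro a b ha hb
    change ((a * b : SL2 F) : Matrix (Fin 2) (Fin 2) F).mulVec v = v
    change (a : Matrix (Fin 2) (Fin 2) F).mulVec v = v at ha
    change (b : Matrix (Fin 2) (Fin 2) F).mulVec v = v at hb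
    rw [Matrix.SpecialLinearGroup.coe_mul, ← Matrix.mulVec_mulVec, hb, ha]
  inv_mem' := by
    intro a ha
    change ((a⁻¹ : SL2 F) : Matrix (Fin 2) (Fin 2) F).mulVec v = v
    change (a : Matrix (Fin 2) (Fin 2) F).mulVec v = v at ha
    conv_lhs => rw [← ha]
    rw [Matrix.mulVec_mulVec, ← Matrix.SpecialLinearGroup.coe_mul, inv_mul_cancel,
      Matrix.SpecialLinearGroup.coe_one, Matrix.one_mulVec]

private theorem TriSol_form (v : Fin 2 → F) (hv : v ≠ 0) (g : SL2 F)
    (hg : (g : Matrix (Fin 2) (Fin 2) F).mulVec v = v) : ∃ t : F,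
    g.1 0 0 = 1 + t * (v 0 * v 1) ∧ g.1 0 1 = -t * v 0 ^ 2 ∧ g.1 1 0 = t * v 1 ^ 2 ∧
      g.1 1 1 = 1 - t * (v 0 * v 1) := by
  have e0 := congrFun hg 0
  have e1 := congrFun hg 1
  simp only [Matrix.mulVec, dotProduct, Fin.sum_univ_two] at e0 e1
  have hd := g.2
  rw [Matrix.det_fin_two] at hd
  by_cases h0 : v 0 = 0
  · have h1 : v 1 ≠ 0 := by
      intro h1
      apply hv
      funext i
      fin_cases i
      · exact h0
      · exact h1
    rw [h0] at e0 e1 ⊢
    have k1 : g.1 0 1 = 0 := by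
      rcases mul_eq_zero.1 (show g.1 0 1 * v 1 = 0 by linear_combination e0) with h | h
      · exact h
      · exact absurd h h1
    have k2 : g.1 1 1 = 1 := by
      apply mul_right_cancel₀ h1
      linear_combination e1
    rw [k1, k2] at hd
    refine ⟨g.1 1 0 / v 1 ^ 2, by linear_combination hd, by rw [k1]; ring, ?_,
      by rw [k2]; ring⟩
    field_simp
  · have k1 : g.1 0 0 = 1 - g.1 0 1 * v 1 / v 0 := by
      field_simp
      linear_combination e0
    have k2 : g.1 1 1 = 1 + g.1 0 1 * v 1 / v 0 := by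
      have h2 : v 0 * (g.1 1 1 - (1 + g.1 0 1 * v 1 / v 0)) = 0 := by
        field_simp
        linear_combination v 0 * hd - g.1 1 1 * e0 + g.1 0 1 * e1
      have h3 := (mul_eq_zero.1 h2).resolve_left h0
      linear_combination h3
    have k3 : g.1 1 0 = -(g.1 0 1 * v 1 ^ 2) / v 0 ^ 2 := by
      rw [k2] at e1
      have h2 : v 0 * (g.1 1 0 - -(g.1 0 1 * v 1 ^ 2) / v 0 ^ 2) = 0 := by
        have h4 : v 0 * (v 0 * (g.1 1 0 - -(g.1 0 1 * v 1 ^ 2) / v 0 ^ 2)) = 0 := by
          field_simp at e1 ⊢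
          linear_combination e1
        exact (mul_eq_zero.1 h4).resolve_left h0
      have h3 := (mul_eq_zero.1 h2).resolve_left h0
      linear_combination h3
    refine ⟨-(g.1 0 1) / v 0 ^ 2, ?_, ?_, ?_, ?_⟩
    · rw [k1]
      field_simp
      ring
    · field_simp
    · rw [k3]
      field_simp
    · rw [k2]
      field_simp
      ring

private theorem TriSol_Ssol (v : Fin 2 → F) (hv : v ≠ 0) : Group.IsSolvable (TriSol_S v) := by
  apply Group.isSolvable_of_comm
  rintro ⟨a, ha⟩ ⟨b, hb⟩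
  apply Subtype.ext
  apply Subtype.ext
  change ((a * b : SL2 F) : Matrix (Fin 2) (Fin 2) F) = ((b * a : SL2 F) : Matrix (Fin 2) (Fin 2) F)
  rw [Matrix.SpecialLinearGroup.coe_mul, Matrix.SpecialLinearGroup.coe_mul]
  obtain ⟨t, a0, a1, a2, a3⟩ := TriSol_form v hv a ha
  obtain ⟨s, b0, b1, b2, b3⟩ := TriSol_form v hv b hb
  ext i j
  fin_cases i <;> fin_cases j <;>
    simp only [Matrix.mul_apply, Fin.sum_univ_two, Fin.zero_eta, Fin.mk_one, Fin.isValue,
      a0, a1, a2, a3, b0, b1, b2, b3] <;> ring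

private theorem TriSol_I (H : Subgroup (SL2 F)) (h : CaseI H) : Group.IsSolvable H := by
  obtain ⟨v, hv, h⟩ := h
  apply TriSol_step H (TriSol_S v) _ (TriSol_Ssol v hv)
  intro a ha b hb
  obtain ⟨c, hc⟩ := h a ha
  obtain ⟨d, hd⟩ := h b hb
  have e1 : ((a * b : SL2 F) : Matrix (Fin 2) (Fin 2) F).mulVec v = (c * d) • v := by
    rw [Matrix.SpecialLinearGroup.coe_mul, ← Matrix.mulVec_mulVec, hd, Matrix.mulVec_smul, hc,
      smul_smul, mul_comm]
  have e2 : ((b * a : SL2 F) : Matrix (Fin 2) (Fin 2) F).mulVec v = (c * d) • v := by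
    rw [Matrix.SpecialLinearGroup.coe_mul, ← Matrix.mulVec_mulVec, hc, Matrix.mulVec_smul, hd,
      smul_smul]
  have e3 : (((b * a)⁻¹ : SL2 F) : Matrix (Fin 2) (Fin 2) F).mulVec ((c * d) • v) = v := by
    rw [← e2, Matrix.mulVec_mulVec, ← Matrix.SpecialLinearGroup.coe_mul, inv_mul_cancel,
      Matrix.SpecialLinearGroup.coe_one, Matrix.one_mulVec]
  have hcd : c * d ≠ 0 := by
    intro h0
    rw [h0, zero_smul, Matrix.mulVec_zero] at e3
    exact hv e3.symm
  change ((a * b * a⁻¹ * b⁻¹ : SL2 F) : Matrix (Fin 2) (Fin 2) F).mulVec v = v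
  have e4 : a * b * a⁻¹ * b⁻¹ = (a * b) * (b * a)⁻¹ := by group
  rw [Matrix.mulVec_smul] at e3
  have e5 : (((b * a)⁻¹ : SL2 F) : Matrix (Fin 2) (Fin 2) F).mulVec v = (c * d)⁻¹ • v := by
    calc (((b * a)⁻¹ : SL2 F) : Matrix (Fin 2) (Fin 2) F).mulVec v
        = (c * d)⁻¹ • ((c * d) • (((b * a)⁻¹ : SL2 F) : Matrix (Fin 2) (Fin 2) F).mulVec v) := by
          rw [smul_smul, inv_mul_cancel₀ hcd, one_smul]
      _ = (c * d)⁻¹ • v := by rw [e3]
  rw [e4, Matrix.SpecialLinearGroup.coe_mul, ← Matrix.mulVec_mulVec, e5, Matrix.mulVec_smul, e1,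
    smul_smul, inv_mul_cancel₀ hcd, one_smul]

/-! ### Case two -/

private theorem TriSol_II (H : Subgroup (SL2 F)) (h : CaseII H) : Group.IsSolvable H := by
  obtain ⟨α, hα, h⟩ := h
  have hM : α.1 0 1 ≠ 0 ∨ α.1 1 0 ≠ 0 ∨ α.1 0 0 - α.1 1 1 ≠ 0 := by
    by_contra hc
    push Not at hc
    obtain ⟨h1, h2, h3⟩ := hc
    apply hα
    have hd := α.2
    rw [Matrix.det_fin_two, h1] at hd
    unfold tr
    rw [Matrix.trace_fin_two]
    have h3' : α.1 0 0 = α.1 1 1 := by linear_combination h3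
    rw [h3'] at hd ⊢
    linear_combination 4 * hd
  apply TriSol_step H (TriSol_C α.1) _ (TriSol_Csol α.1 hM)
  have hs : ∀ a ∈ H, (SemiconjBy a α α ∧ SemiconjBy a α⁻¹ α⁻¹) ∨
      (SemiconjBy a α α⁻¹ ∧ SemiconjBy a α⁻¹ α) := by
    intro a ha
    rcases h a ha with h1 | ⟨h1, -⟩
    · exact Or.inl ⟨h1, SemiconjBy.inv_right h1⟩
    · have h2 : SemiconjBy a α α⁻¹ := h1
      refine Or.inr ⟨h2, ?_⟩
      have := SemiconjBy.inv_right h2
      rwa [inv_inv] at this
  intro a ha b hb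
  have key : SemiconjBy (a * b * a⁻¹ * b⁻¹) α α := by
    rcases hs a ha with ⟨a1, a2⟩ | ⟨a1, a2⟩ <;> rcases hs b hb with ⟨b1, b2⟩ | ⟨b1, b2⟩
    · exact ((a1.mul_left b1).mul_left a1.inv_symm_left).mul_left b1.inv_symm_left
    · exact ((a1.mul_left b2).mul_left a2.inv_symm_left).mul_left b2.inv_symm_left
    · exact ((a2.mul_left b2).mul_left a2.inv_symm_left).mul_left b1.inv_symm_left
    · exact ((a2.mul_left b1).mul_left a1.inv_symm_left).mul_left b2.inv_symm_left
  change ((a * b * a⁻¹ * b⁻¹ : SL2 F) : Matrix (Fin 2) (Fin 2) F) * α.1 =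
    α.1 * ((a * b * a⁻¹ * b⁻¹ : SL2 F) : Matrix (Fin 2) (Fin 2) F)
  have := congrArg (fun g : SL2 F => (g : Matrix (Fin 2) (Fin 2) F)) key
  simpa only [Matrix.SpecialLinearGroup.coe_mul] using this

/-! ### Case three -/

private theorem TriSol_smul (M : Matrix (Fin 2) (Fin 2) F) (a b : SL2 F) (ε η : F)
    (ha : (a : Matrix (Fin 2) (Fin 2) F) * M = ε • (M * (a : Matrix (Fin 2) (Fin 2) F)))
    (hb : (b : Matrix (Fin 2) (Fin 2) F) * M = η • (M * (b : Matrix (Fin 2) (Fin 2) F))) :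
    ((a * b : SL2 F) : Matrix (Fin 2) (Fin 2) F) * M =
      (ε * η) • (M * ((a * b : SL2 F) : Matrix (Fin 2) (Fin 2) F)) := by
  rw [Matrix.SpecialLinearGroup.coe_mul, mul_assoc, hb, Matrix.mul_smul, ← mul_assoc, ha,
    Matrix.smul_mul, smul_smul, mul_assoc, mul_comm η ε]

private theorem TriSol_sinv (M : Matrix (Fin 2) (Fin 2) F) (a : SL2 F) (ε : F) (hε : ε * ε = 1)
    (ha : (a : Matrix (Fin 2) (Fin 2) F) * M = ε • (M * (a : Matrix (Fin 2) (Fin 2) F))) :
    ((a⁻¹ : SL2 F) : Matrix (Fin 2) (Fin 2) F) * M =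
      ε • (M * ((a⁻¹ : SL2 F) : Matrix (Fin 2) (Fin 2) F)) := by
  have h1 : ((a⁻¹ : SL2 F) : Matrix (Fin 2) (Fin 2) F) * (a : Matrix (Fin 2) (Fin 2) F) = 1 := by
    rw [← Matrix.SpecialLinearGroup.coe_mul, inv_mul_cancel, Matrix.SpecialLinearGroup.coe_one]
  have h2 : (a : Matrix (Fin 2) (Fin 2) F) * ((a⁻¹ : SL2 F) : Matrix (Fin 2) (Fin 2) F) = 1 := by
    rw [← Matrix.SpecialLinearGroup.coe_mul, mul_inv_cancel, Matrix.SpecialLinearGroup.coe_one]
  have h3 : M * (a : Matrix (Fin 2) (Fin 2) F) = ε • ((a : Matrix (Fin 2) (Fin 2) F) * M) := by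
    rw [ha, smul_smul, hε, one_smul]
  calc ((a⁻¹ : SL2 F) : Matrix (Fin 2) (Fin 2) F) * M
      = ((a⁻¹ : SL2 F) : Matrix (Fin 2) (Fin 2) F) * ((M * (a : Matrix (Fin 2) (Fin 2) F)) *
        ((a⁻¹ : SL2 F) : Matrix (Fin 2) (Fin 2) F)) := by rw [mul_assoc M, h2, mul_one]
    _ = ε • ((((a⁻¹ : SL2 F) : Matrix (Fin 2) (Fin 2) F) * (a : Matrix (Fin 2) (Fin 2) F)) * (M *
        ((a⁻¹ : SL2 F) : Matrix (Fin 2) (Fin 2) F))) := by
        rw [h3, Matrix.smul_mul, Matrix.mul_smul]
        simp only [mul_assoc]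
    _ = ε • (M * ((a⁻¹ : SL2 F) : Matrix (Fin 2) (Fin 2) F)) := by rw [h1, one_mul]

/-- the matrices of `SL2` which commute with `M` up to sign -/
private def TriSol_D (M : Matrix (Fin 2) (Fin 2) F) : Subgroup (SL2 F) where
  carrier := {g | ∃ ε : F, ε * ε = 1 ∧ (g : Matrix (Fin 2) (Fin 2) F) * M =
    ε • (M * (g : Matrix (Fin 2) (Fin 2) F))}
  one_mem' := by
    refine ⟨1, mul_one 1, ?_⟩
    rw [Matrix.SpecialLinearGroup.coe_one, one_mul, mul_one, one_smul]
  mul_mem' := by
    rintro a b ⟨ε, hε, ha⟩ ⟨η, hη, hb⟩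
    exact ⟨ε * η, by linear_combination η * η * hε + hη, TriSol_smul M a b ε η ha hb⟩
  inv_mem' := by
    rintro a ⟨ε, hε, ha⟩
    exact ⟨ε, hε, TriSol_sinv M a ε hε ha⟩

private theorem TriSol_Dsol (M : Matrix (Fin 2) (Fin 2) F)
    (hM : M 0 1 ≠ 0 ∨ M 1 0 ≠ 0 ∨ M 0 0 - M 1 1 ≠ 0) : Group.IsSolvable (TriSol_D M) := by
  apply TriSol_step _ (TriSol_C M) _ (TriSol_Csol M hM)
  rintro a ⟨ε, hε, ha⟩ b ⟨η, hη, hb⟩
  have h := TriSol_smul M _ _ _ _ (TriSol_smul M _ _ _ _ (TriSol_smul M _ _ _ _ ha hb)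
    (TriSol_sinv M a ε hε ha)) (TriSol_sinv M b η hη hb)
  have e : ε * η * ε * η = 1 := by linear_combination η * η * hε + hη
  rw [e, one_smul] at h
  exact h

private theorem TriSol_ne (h2 : (2 : F) ≠ 0) (x y : Matrix (Fin 2) (Fin 2) F)
    (hxy : x * y = -(y * x)) (hx : x * x = -1) : x ≠ y ∧ x ≠ -y := by
  have h1 : ∀ c : F, c • (1 : Matrix (Fin 2) (Fin 2) F) = 0 → c = 0 := by
    intro c hc
    have := congrFun (congrFun hc 0) 0
    simpa using this
  constructor
  · rintro rfl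
    rw [hx] at hxy
    apply h2
    apply h1
    rw [two_smul]
    nth_rewrite 1 [← neg_neg (1 : Matrix (Fin 2) (Fin 2) F)]
    rw [← hxy]
    exact neg_add_cancel _
  · intro h
    have hy : y = -x := by rw [h, neg_neg]
    rw [hy, mul_neg, neg_mul, hx, neg_neg] at hxy
    apply h2
    apply h1
    rw [two_smul]
    nth_rewrite 1 [hxy]
    exact neg_add_cancel _

private theorem TriSol_III (H : Subgroup (SL2 F)) (h : CaseIII H) : Group.IsSolvable H := by
  obtain ⟨h2, α, β, hα, hβ, hαβ, h⟩ := h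
  have hβα : β * α = -(α * β) := by rw [hαβ, neg_neg]
  -- the three matrices
  let e : Fin 3 → Matrix (Fin 2) (Fin 2) F := ![α, β, α * β]
  have e0 : e 0 = α := rfl
  have e1 : e 1 = β := rfl
  have e2 : e 2 = α * β := rfl
  have m02 : α * (α * β) = -β := by rw [← mul_assoc, hα, neg_mul, one_mul]
  have m20 : α * β * α = β := by rw [mul_assoc, hβα, mul_neg, m02, neg_neg]
  have m21 : α * β * β = -α := by rw [mul_assoc, hβ, mul_neg, mul_one]
  have m12 : β * (α * β) = α := by rw [← mul_assoc, hβα, neg_mul, m21, neg_neg]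
  have m22 : α * β * (α * β) = -1 := by rw [← mul_assoc, m20, hβ]
  have sq : ∀ i, e i * e i = -1 := by
    intro i
    fin_cases i
    · exact hα
    · exact hβ
    · exact m22
  have anti : ∀ i j, i ≠ j → e i * e j = -(e j * e i) := by
    intro i j hij
    fin_cases i <;> fin_cases j
    · exact absurd rfl hij
    · exact hαβ
    · change α * (α * β) = -(α * β * α)
      rw [m02, m20]
    · exact hβα
    · exact absurd rfl hij
    · change β * (α * β) = -(α * β * β)
      rw [m12, m21, neg_neg]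
    · change α * β * α = -(α * (α * β))
      rw [m02, m20, neg_neg]
    · change α * β * β = -(β * (α * β))
      rw [m12, m21]
    · exact absurd rfl hij
  have prod : ∀ i j, i ≠ j → ∃ l, e i * e j = e l ∨ e i * e j = -(e l) := by
    intro i j hij
    fin_cases i <;> fin_cases j
    · exact absurd rfl hij
    · exact ⟨2, Or.inl rfl⟩
    · exact ⟨1, Or.inr m02⟩
    · exact ⟨2, Or.inr hβα⟩
    · exact absurd rfl hij
    · exact ⟨0, Or.inl m12⟩
    · exact ⟨1, Or.inl m20⟩
    · exact ⟨0, Or.inr m21⟩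
    · exact absurd rfl hij
  have inj : ∀ i j, (e i = e j ∨ e i = -(e j)) → i = j := by
    intro i j hij
    by_contra hne
    obtain ⟨k1, k2⟩ := TriSol_ne h2 (e i) (e j) (anti i j hne) (sq i)
    rcases hij with h | h
    · exact k1 h
    · exact k2 h
  have canc : ∀ (g : SL2 F) (x y : Matrix (Fin 2) (Fin 2) F),
      x * (g : Matrix (Fin 2) (Fin 2) F) = y * (g : Matrix (Fin 2) (Fin 2) F) → x = y := by
    intro g x y hxy
    have h2 : (g : Matrix (Fin 2) (Fin 2) F) * ((g⁻¹ : SL2 F) : Matrix (Fin 2) (Fin 2) F) = 1 := by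
      rw [← Matrix.SpecialLinearGroup.coe_mul, mul_inv_cancel,
        Matrix.SpecialLinearGroup.coe_one]
    rw [← mul_one x, ← mul_one y, ← h2, ← mul_assoc, ← mul_assoc, hxy]
  let R : SL2 F → Fin 3 → Fin 3 → Prop := fun g i j =>
    (g : Matrix (Fin 2) (Fin 2) F) * e i = e j * (g : Matrix (Fin 2) (Fin 2) F) ∨
    (g : Matrix (Fin 2) (Fin 2) F) * e i = -(e j * (g : Matrix (Fin 2) (Fin 2) F))
  have cls : ∀ γ : Matrix (Fin 2) (Fin 2) F,
      (γ = α ∨ γ = -α ∨ γ = β ∨ γ = -β ∨ γ = α * β ∨ γ = -(α * β)) →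
      ∃ i, γ = e i ∨ γ = -(e i) := by
    rintro γ (h | h | h | h | h | h)
    · exact ⟨0, Or.inl h⟩
    · exact ⟨0, Or.inr h⟩
    · exact ⟨1, Or.inl h⟩
    · exact ⟨1, Or.inr h⟩
    · exact ⟨2, Or.inl h⟩
    · exact ⟨2, Or.inr h⟩
  have hun : ∀ g ∈ H, ∀ i j j', R g i j → R g i j' → j = j' := by
    intro g _ i j j' h1 h2
    apply inj
    rcases h1 with h1 | h1 <;> rcases h2 with h2 | h2
    · left
      exact canc g _ _ (h1.symm.trans h2)
    · right
      apply canc g
      rw [neg_mul]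
      exact h1.symm.trans h2
    · right
      apply canc g
      rw [neg_mul, ← h2, h1, neg_neg]
    · left
      apply canc g
      exact neg_injective (h1.symm.trans h2)
  have hex : ∀ g ∈ H, ∀ i, ∃ j, R g i j := by
    intro g hg
    obtain ⟨γ, δ, hγ, hδ, h1, h2'⟩ := h g hg
    obtain ⟨k, hk⟩ := cls γ hγ
    obtain ⟨l, hl⟩ := cls δ hδ
    have r0 : R g 0 k := by
      rcases hk with hk | hk
      · left
        rw [← hk]
        exact h1
      · right
        rw [← neg_mul, ← hk]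
        exact h1
    have r1 : R g 1 l := by
      rcases hl with hl | hl
      · left
        rw [← hl]
        exact h2'
      · right
        rw [← neg_mul, ← hl]
        exact h2'
    have hkl : k ≠ l := by
      rintro rfl
      have h3 : (g : Matrix (Fin 2) (Fin 2) F) * e 0 = (g : Matrix (Fin 2) (Fin 2) F) * e 1 ∨
          (g : Matrix (Fin 2) (Fin 2) F) * e 0 = (g : Matrix (Fin 2) (Fin 2) F) * (-(e 1)) := by
        rcases r0 with r0 | r0 <;> rcases r1 with r1 | r1
        · left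
          rw [r0, r1]
        · right
          rw [mul_neg, r0, r1, neg_neg]
        · right
          rw [mul_neg, r0, r1]
        · left
          rw [r0, r1]
      have h4 : ((g⁻¹ : SL2 F) : Matrix (Fin 2) (Fin 2) F) *
          (g : Matrix (Fin 2) (Fin 2) F) = 1 := by
        rw [← Matrix.SpecialLinearGroup.coe_mul, inv_mul_cancel,
          Matrix.SpecialLinearGroup.coe_one]
      have h5 : e 0 = e 1 ∨ e 0 = -(e 1) := by
        rcases h3 with h3 | h3
        · left
          rw [← one_mul (e 0), ← one_mul (e 1), ← h4, mul_assoc, mul_assoc, h3]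
        · right
          rw [← one_mul (e 0), ← one_mul (-(e 1)), ← h4, mul_assoc, mul_assoc, h3]
      exact absurd (inj 0 1 h5) (by decide)
    obtain ⟨m, hm⟩ := prod k l hkl
    have r2 : R g 2 m := by
      have q : (g : Matrix (Fin 2) (Fin 2) F) * e 2 =
          (g : Matrix (Fin 2) (Fin 2) F) * e 0 * e 1 := by
        rw [e2, e0, e1, mul_assoc]
      have q1 : (g : Matrix (Fin 2) (Fin 2) F) * e 2 = e k * e l *
          (g : Matrix (Fin 2) (Fin 2) F) ∨ (g : Matrix (Fin 2) (Fin 2) F) * e 2 =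
          -(e k * e l * (g : Matrix (Fin 2) (Fin 2) F)) := by
        rcases r0 with r0 | r0 <;> rcases r1 with r1 | r1
        · left
          rw [q, r0, mul_assoc, r1, mul_assoc]
        · right
          rw [q, r0, mul_assoc, r1, mul_neg, mul_assoc]
        · right
          rw [q, r0, neg_mul, mul_assoc, r1, mul_assoc]
        · left
          rw [q, r0, neg_mul, mul_assoc, r1, mul_neg, neg_neg, mul_assoc]
      rcases hm with hm | hm
      · rw [hm] at q1
        exact q1
      · rw [hm, neg_mul, neg_neg] at q1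
        exact q1.symm
    intro i
    fin_cases i
    · exact ⟨k, r0⟩
    · exact ⟨l, r1⟩
    · exact ⟨m, r2⟩
  have hM : α 0 1 ≠ 0 ∨ α 1 0 ≠ 0 ∨ α 0 0 - α 1 1 ≠ 0 := by
    by_contra hc
    push Not at hc
    obtain ⟨k1, k2, k3⟩ := hc
    have hsc : α = α 0 0 • (1 : Matrix (Fin 2) (Fin 2) F) := by
      ext i j
      fin_cases i <;> fin_cases j
      · simp
      · simp [k1]
      · simp [k2]
      · simp only [Fin.mk_one, Fin.isValue, Matrix.smul_apply, Matrix.one_apply_eq, smul_eq_mul,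
          mul_one]
        linear_combination -k3
    have hc : α * β = β * α := by
      rw [hsc, Matrix.smul_mul, Matrix.mul_smul, one_mul, mul_one]
    have h3 := (TriSol_ne h2 β α hβα hβ)
    have h5 : α * β = 0 := by
      have h6 : (2 : F) • (α * β) = 0 := by
        rw [two_smul]
        nth_rewrite 1 [hαβ]
        rw [hc]
        exact neg_add_cancel _
      exact (smul_eq_zero.1 h6).resolve_left h2
    have h7 := m22
    rw [h5, mul_zero] at h7
    have h8 := congrFun (congrFun h7 0) 0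
    simp at h8
  apply TriSol_act H (TriSol_D α) R hex hun _ _ _ (TriSol_Dsol α hM)
  · intro i
    left
    rw [Matrix.SpecialLinearGroup.coe_one, one_mul, mul_one]
  · intro g _ k _ i j l h1 h2
    have q : ((g * k : SL2 F) : Matrix (Fin 2) (Fin 2) F) = (g : Matrix (Fin 2) (Fin 2) F) *
      (k : Matrix (Fin 2) (Fin 2) F) := Matrix.SpecialLinearGroup.coe_mul _ _
    change ((g * k : SL2 F) : Matrix (Fin 2) (Fin 2) F) * e i =
        e l * ((g * k : SL2 F) : Matrix (Fin 2) (Fin 2) F) ∨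
      ((g * k : SL2 F) : Matrix (Fin 2) (Fin 2) F) * e i =
        -(e l * ((g * k : SL2 F) : Matrix (Fin 2) (Fin 2) F))
    rw [q]
    rcases h1 with h1 | h1 <;> rcases h2 with h2 | h2
    · left
      rw [mul_assoc, h1, ← mul_assoc, h2, mul_assoc]
    · right
      rw [mul_assoc, h1, ← mul_assoc, h2, neg_mul, mul_assoc]
    · right
      rw [mul_assoc, h1, mul_neg, ← mul_assoc, h2, mul_assoc]
    · left
      rw [mul_assoc, h1, mul_neg, ← mul_assoc, h2, neg_mul, neg_neg, mul_assoc]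
  · intro g _ hg
    rcases hg 0 with h1 | h1
    · exact ⟨1, mul_one 1, by rw [one_smul]; exact h1⟩
    · exact ⟨-1, by ring, by rw [neg_smul, one_smul]; exact h1⟩

theorem prf_TriSol : TriSol := by
  intro F _ H h
  rcases h with h | h | h
  · exact TriSol_I H h
  · exact TriSol_II H h
  · exact TriSol_III H h

end MP_8aaf67.PS
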