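import Pool.Agent.Work.MP_8aaf67_al.PS.Stmts

/-!
# MP_8aaf67_al, project PS: `GTsm`, the fields with 5 and 7 elements
-/

set_option autoImplicit false

open Subgroup

namespace MP_8aaf67.PS

private theorem GTsm_pr_mul {F : Type} [Field F] (A B : SL2 F) : pr (A * B) = pr A * pr B := rfl

private theorem GTsm_pr_cm {F : Type} [Field F] (A B : SL2 F) :
    pr (cm A B) = cm (pr A) (pr B) := rfl

private theorem GTsm_neg_center {F : Type} [Field F] : (-1 : SL2 F) ∈ center (SL2 F) := by
  rw [Subgroup.mem_center_iff]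
  intro g
  simp

private theorem GTsm_pr_neg {F : Type} [Field F] (A : SL2 F) : pr (-A) = pr A := by
  have h : -A = A * (-1) := by simp
  rw [h, GTsm_pr_mul]
  have h1 : pr (-1 : SL2 F) = 1 := (QuotientGroup.eq_one_iff _).2 GTsm_neg_center
  rw [h1, mul_one]

private theorem GTsm_tr_neg {F : Type} [Field F] (A : SL2 F) : tr (-A) = -tr A := by
  unfold tr
  rw [Matrix.SpecialLinearGroup.coe_neg, Matrix.trace_neg]

private theorem GTsm_neg_notMem {F : Type} [Field F] (C : SL2 F) (hC : C ∉ center (SL2 F)) :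
    -C ∉ center (SL2 F) := by
  intro h
  apply hC
  have e : C = -C * (-1) := by simp
  rw [e]
  exact Subgroup.mul_mem _ h GTsm_neg_center

private theorem GTsm_center {F : Type} [Field F] (D : SL2 F) (hD : D ∈ center (SL2 F)) :
    D = 1 ∨ D = -1 := by
  obtain ⟨r, hr, hrD⟩ := Matrix.SpecialLinearGroup.mem_center_iff.1 hD
  rw [Fintype.card_fin] at hr
  have h2 : (r - 1) * (r + 1) = 0 := by linear_combination hr
  rcases mul_eq_zero.1 h2 with h | h
  · left
    have hr1 : r = 1 := by linear_combination h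
    apply Subtype.ext
    rw [← hrD, hr1]
    simp
  · right
    have hr1 : r = -1 := by linear_combination h
    apply Subtype.ext
    rw [← hrD, hr1]
    ext i j
    fin_cases i <;> fin_cases j <;> simp

private theorem GTsm_tr_mul_comm {F : Type} [Field F] (A B : SL2 F) : tr (A * B) = tr (B * A) := by
  unfold tr
  rw [Matrix.SpecialLinearGroup.coe_mul, Matrix.SpecialLinearGroup.coe_mul, Matrix.trace_mul_comm]

private theorem GTsm_zero {F : Type} [Field F] (h2 : (2 : F) ≠ 0) {a : F} (h : a = -a) : a = 0 := by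
  have h3 : (2 : F) * a = 0 := by linear_combination h
  rcases mul_eq_zero.1 h3 with h | h
  · exact absurd h h2
  · exact h

private theorem GTsm_cm_notMem {F : Type} [Field F] (h2 : (2 : F) ≠ 0) (A B : SL2 F)
    (ht : tr (cm A B) ≠ 2) (hne : tr A ≠ 0 ∨ tr B ≠ 0 ∨ tr (A * B) ≠ 0) :
    cm A B ∉ center (SL2 F) := by
  intro hcen
  rcases GTsm_center _ hcen with h | h
  · apply ht
    rw [h]
    simp [tr]
  · have hAB : A * B = -(B * A) := by
      have e : A * B = B * A * (cm A B) := by unfold cm; group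
      rw [e, h]
      simp
    have t3 : tr (A * B) = 0 := by
      apply GTsm_zero h2
      have e := congrArg tr hAB
      rwa [GTsm_tr_neg, GTsm_tr_mul_comm B A] at e
    have t1 : tr A = 0 := by
      apply GTsm_zero h2
      have e : B⁻¹ * A * B = -A := by
        calc B⁻¹ * A * B = B⁻¹ * (A * B) := by group
          _ = B⁻¹ * (-(B * A)) := by rw [hAB]
          _ = -(B⁻¹ * (B * A)) := by simp
          _ = -A := by rw [inv_mul_cancel_left]
      have e2 := congrArg tr e
      rw [GTsm_tr_mul_comm, mul_inv_cancel_left, GTsm_tr_neg] at e2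
      exact e2
    have t2 : tr B = 0 := by
      apply GTsm_zero h2
      have e : A * B * A⁻¹ = -B := by
        rw [hAB]
        calc -(B * A) * A⁻¹ = -(B * A * A⁻¹) := by simp
          _ = -B := by rw [mul_inv_cancel_right]
      have e2 := congrArg tr e
      rw [GTsm_tr_mul_comm, inv_mul_cancel_left, GTsm_tr_neg] at e2
      exact e2
    rcases hne with h | h | h
    · exact h t1
    · exact h t2
    · exact h t3

private theorem GTsm_left {F : Type} [Field F] (A B : SL2 F) (h : cm A B ∉ center (SL2 F)) :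
    A ∉ center (SL2 F) := by
  intro hA
  apply h
  rw [Subgroup.mem_center_iff] at hA
  have e := hA B
  have : cm A B = 1 := by
    unfold cm
    calc A⁻¹ * B⁻¹ * A * B = A⁻¹ * B⁻¹ * (A * B) := by group
      _ = A⁻¹ * B⁻¹ * (B * A) := by rw [e]
      _ = 1 := by group
  rw [this]
  exact Subgroup.one_mem _

private theorem GTsm_right {F : Type} [Field F] (A B : SL2 F) (h : cm A B ∉ center (SL2 F)) :
    B ∉ center (SL2 F) := by
  intro hB
  apply h
  rw [Subgroup.mem_center_iff] at hB
  have e := hB A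
  have : cm A B = 1 := by
    unfold cm
    calc A⁻¹ * B⁻¹ * A * B = A⁻¹ * B⁻¹ * (A * B) := by group
      _ = A⁻¹ * B⁻¹ * (B * A) := by rw [e]
      _ = 1 := by group
  rw [this]
  exact Subgroup.one_mem _

/-- the step -/
private theorem GTsm_step {F : Type} [Field F] [Finite F] (hPair : PairEx) (hTrC : TrC)
    (hCnj : Cnj) (hCrit : CritB) (h2 : (2 : F) ≠ 0) (h3 : (3 : F) ≠ 0)
    (hK : ∀ K : Subgroup (PSL2 F), K ≠ ⊤ → Group.IsSolvable K) (k : ℕ) (x y z κ : F)
    (hκ : x ^ 2 + y ^ 2 + z ^ 2 - x * y * z - 2 = κ) (hκ2 : κ ≠ 2) (hne : x ≠ 0 ∨ y ≠ 0 ∨ z ≠ 0)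
    (hgood : ∀ A B : SL2 F, tr A = x → tr B = y → tr (A * B) = z → cm A B ∉ center (SL2 F) →
      tr (cm A B) = κ →
      ∃ h ∈ closure ({A, B} : Set (SL2 F)), h ∉ center (SL2 F) ∧ tr h ^ 2 = 4)
    (ihA : ∀ A : SL2 F, A ∉ center (SL2 F) → tr A = x → pr A ∈ GT (PSL2 F) k)
    (ihB : ∀ A : SL2 F, A ∉ center (SL2 F) → tr A = y → pr A ∈ GT (PSL2 F) k)
    (C : SL2 F) (hC : C ∉ center (SL2 F)) (ht : tr C = κ) : pr C ∈ GT (PSL2 F) (k + 1) := by
  obtain ⟨A, B, hA, hB, hAB⟩ := hPair F x y z (by rw [hκ]; exact hκ2)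
  have hcm : tr (cm A B) = tr C := by rw [hTrC F A B, hA, hB, hAB, hκ, ht]
  have hnc : cm A B ∉ center (SL2 F) := by
    apply GTsm_cm_notMem h2 A B
    · rw [hcm, ht]
      exact hκ2
    · rw [hA, hB, hAB]
      exact hne
  obtain ⟨φ, hφ, hφC⟩ := hCnj F (cm A B) C hnc hC hcm
  have hcm' : cm (φ A) (φ B) = C := by
    rw [← hφC]
    unfold cm
    simp
  have hnc' : cm (φ A) (φ B) ∉ center (SL2 F) := by rwa [hcm']
  have hNS' : NS (φ A) (φ B) := by
    refine hCrit F (φ A) (φ B) h2 h3 (by rw [hcm', ht]; exact hκ2) ?_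
    exact hgood (φ A) (φ B) (by rw [hφ, hA]) (by rw [hφ, hB]) (by rw [← map_mul, hφ, hAB]) hnc'
      (by rw [hcm', ht])
  have htop : closure ({pr (φ A), pr (φ B)} : Set (PSL2 F)) = ⊤ := by
    by_contra hne
    exact hNS' (hK _ hne)
  exact ⟨pr (φ A), ihA _ (GTsm_left _ _ hnc') (by rw [hφ, hA]), pr (φ B),
    ihB _ (GTsm_right _ _ hnc') (by rw [hφ, hB]), htop, by rw [← GTsm_pr_cm, hcm']⟩

/-- the step up to sign -/
private theorem GTsm_step' {F : Type} [Field F] [Finite F] (hPair : PairEx) (hTrC : TrC)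
    (hCnj : Cnj) (hCrit : CritB) (h2 : (2 : F) ≠ 0) (h3 : (3 : F) ≠ 0)
    (hK : ∀ K : Subgroup (PSL2 F), K ≠ ⊤ → Group.IsSolvable K) (k : ℕ) (x y z κ : F)
    (hκ : x ^ 2 + y ^ 2 + z ^ 2 - x * y * z - 2 = κ) (hκ2 : κ ≠ 2) (hne : x ≠ 0 ∨ y ≠ 0 ∨ z ≠ 0)
    (hgood : ∀ A B : SL2 F, tr A = x → tr B = y → tr (A * B) = z → cm A B ∉ center (SL2 F) →
      tr (cm A B) = κ →
      ∃ h ∈ closure ({A, B} : Set (SL2 F)), h ∉ center (SL2 F) ∧ tr h ^ 2 = 4)
    (ihA : ∀ A : SL2 F, A ∉ center (SL2 F) → tr A = x → pr A ∈ GT (PSL2 F) k)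
    (ihB : ∀ A : SL2 F, A ∉ center (SL2 F) → tr A = y → pr A ∈ GT (PSL2 F) k)
    (C : SL2 F) (hC : C ∉ center (SL2 F)) (ht : tr C ^ 2 = κ ^ 2) :
    pr C ∈ GT (PSL2 F) (k + 1) := by
  have h : (tr C - κ) * (tr C + κ) = 0 := by linear_combination ht
  rcases mul_eq_zero.1 h with h | h
  · exact GTsm_step hPair hTrC hCnj hCrit h2 h3 hK k x y z κ hκ hκ2 hne hgood ihA ihB C hC
      (by linear_combination h)
  · rw [← GTsm_pr_neg]
    exact GTsm_step hPair hTrC hCnj hCrit h2 h3 hK k x y z κ hκ hκ2 hne hgood ihA ihB (-C)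
      (GTsm_neg_notMem C hC) (by rw [GTsm_tr_neg]; linear_combination -h)

private theorem GTsm_first {F : Type} [Field F] [Finite F] (hPair : PairEx) (hTrC : TrC)
    (hCnj : Cnj) (hCrit : CritB) (h2 : (2 : F) ≠ 0) (h3 : (3 : F) ≠ 0)
    (hK : ∀ K : Subgroup (PSL2 F), K ≠ ⊤ → Group.IsSolvable K) (k : ℕ) :
    ∀ C : SL2 F, C ∉ center (SL2 F) → (tr C ^ 2 = 4 ∨ tr C ^ 2 = 9) → pr C ∈ GT (PSL2 F) k := by
  have h4 : (4 : F) ≠ 0 := by
    intro h
    have : (2 : F) * 2 = 0 := by linear_combination h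
    rcases mul_eq_zero.1 this with h | h <;> exact h2 h
  induction k with
  | zero => intro C _ _; exact Set.mem_univ _
  | succ k ih =>
    rintro C hC (ht | ht)
    · refine GTsm_step' hPair hTrC hCnj hCrit h2 h3 hK k 3 3 3 (-2) (by norm_num) ?_
        (Or.inl h3) ?_ ?_ ?_ C hC (by rw [ht]; norm_num)
      · intro h
        apply h4
        linear_combination -h
      · intro A B _ _ _ hc hκ
        refine ⟨cm A B, ?_, hc, by rw [hκ]; norm_num⟩
        have hA : A ∈ closure ({A, B} : Set (SL2 F)) := subset_closure (Set.mem_insert A {B})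
        have hB : B ∈ closure ({A, B} : Set (SL2 F)) :=
          subset_closure (Set.mem_insert_of_mem A (Set.mem_singleton B))
        unfold cm
        exact Subgroup.mul_mem _ (Subgroup.mul_mem _ (Subgroup.mul_mem _
          (Subgroup.inv_mem _ hA) (Subgroup.inv_mem _ hB)) hA) hB
      · intro A hA hx
        exact ih A hA (Or.inr (by rw [hx]; norm_num))
      · intro A hA hx
        exact ih A hA (Or.inr (by rw [hx]; norm_num))
    · refine GTsm_step' hPair hTrC hCnj hCrit h2 h3 hK k 2 2 3 3 (by norm_num) ?_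
        (Or.inl h2) ?_ ?_ ?_ C hC (by rw [ht]; norm_num)
      · intro h
        have h1 : (1 : F) = 0 := by linear_combination h
        exact one_ne_zero h1
      · intro A B hA _ _ hc _
        exact ⟨A, subset_closure (Set.mem_insert A {B}), GTsm_left _ _ hc,
          by rw [hA]; norm_num⟩
      · intro A hA hx
        exact ih A hA (Or.inl (by rw [hx]; norm_num))
      · intro A hA hx
        exact ih A hA (Or.inl (by rw [hx]; norm_num))

theorem prf_GTsm (hPair : PairEx) (hTrC : TrC) (hCnj : Cnj) (hCrit : CritB) : GTsm := by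
  intro F _ _ hcard hK k C ht
  have := Fintype.ofFinite F
  have h0 : ((Nat.card F : ℕ) : F) = 0 := by
    rw [Nat.card_eq_fintype_card]
    exact FiniteField.cast_card_eq_zero F
  have h57 : (5 : F) = 0 ∨ (7 : F) = 0 := by
    rcases hcard with h | h
    · left
      rw [h] at h0
      exact_mod_cast h0
    · right
      rw [h] at h0
      exact_mod_cast h0
  have h2 : (2 : F) ≠ 0 := by
    intro h
    rcases h57 with h5 | h7
    · exact one_ne_zero (α := F) (by linear_combination h5 - 2 * h)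
    · exact one_ne_zero (α := F) (by linear_combination h7 - 3 * h)
  have h3 : (3 : F) ≠ 0 := by
    intro h
    rcases h57 with h5 | h7
    · exact one_ne_zero (α := F) (by linear_combination 2 * h - h5)
    · exact one_ne_zero (α := F) (by linear_combination h7 - 2 * h)
  have h4 : (4 : F) ≠ 0 := by
    intro h
    have : (2 : F) * 2 = 0 := by linear_combination h
    rcases mul_eq_zero.1 this with h | h <;> exact h2 h
  have hC : C ∉ center (SL2 F) := by
    intro hc
    have h41 : (4 : F) = 1 := by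
      rcases GTsm_center C hc with h | h
      · rw [h] at ht
        simp only [tr, Matrix.SpecialLinearGroup.coe_one, Matrix.trace_one, Fintype.card_fin] at ht
        push_cast at ht
        linear_combination ht
      · rw [h, GTsm_tr_neg] at ht
        simp only [tr, Matrix.SpecialLinearGroup.coe_one, Matrix.trace_one, Fintype.card_fin] at ht
        push_cast at ht
        linear_combination ht
    apply h3
    linear_combination h41
  cases k with
  | zero => exact Set.mem_univ _
  | succ k =>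
    have hfirst := GTsm_first hPair hTrC hCnj hCrit h2 h3 hK k
    refine GTsm_step' hPair hTrC hCnj hCrit h2 h3 hK k 2 2 4 6 (by norm_num) ?_
      (Or.inl h2) ?_ ?_ ?_ C hC ?_
    · intro h
      apply h4
      linear_combination h
    · intro A B hA _ _ hc _
      exact ⟨A, subset_closure (Set.mem_insert A {B}), GTsm_left _ _ hc,
        by rw [hA]; norm_num⟩
    · intro A hA hx
      exact hfirst A hA (Or.inl (by rw [hx]; norm_num))
    · intro A hA hx
      exact hfirst A hA (Or.inl (by rw [hx]; norm_num))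
    · rw [ht]
      rcases h57 with h | h
      · linear_combination -7 * h
      · linear_combination -5 * h

end MP_8aaf67.PS
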