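import Pool.Agent.Work.MP_8aaf67_al.PS.Stmts

/-! The values of commutators of generating pairs are values of the words. -/

set_option autoImplicit false

namespace MP_8aaf67.PS

theorem prf_GV : GV := by
  intro Q _ k
  induction k with
  | zero => exact fun _ _ => Set.mem_univ _
  | succ k ih =>
    rintro g ⟨a, ha, b, hb, -, h⟩
    exact ⟨a, ih ha, b, ih hb, h⟩

end MP_8aaf67.PS
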