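import Pool.Agent.Work.MP_8aaf67_al.Bridge
import Pool.Agent.Work.MP_8aaf67_al.Step

/-!
# MP_8aaf67_al, project PS: Sylow 2-subgroups, sections of type PSL(2,F)

Statements of the items. `cm a b = a⁻¹ * b⁻¹ * a * b`.
-/

set_option autoImplicit false

open Subgroup

namespace MP_8aaf67.PS

/-! ## Definitions -/

/-- iterated commutators of generating pairs -/
def GT (Q : Type) [Group Q] : ℕ → Set Q
  | 0 => Set.univ
  | k + 1 => {g | ∃ a ∈ GT Q k, ∃ b ∈ GT Q k, closure {a, b} = ⊤ ∧ cm a b = g}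

abbrev SL2 (F : Type) [Field F] : Type := Matrix.SpecialLinearGroup (Fin 2) F

abbrev PSL2 (F : Type) [Field F] : Type := Matrix.ProjectiveSpecialLinearGroup (Fin 2) F

/-- the trace -/
def tr {F : Type} [Field F] (A : SL2 F) : F := (A : Matrix (Fin 2) (Fin 2) F).trace

/-- the image in PSL(2,F) -/
def pr {F : Type} [Field F] (A : SL2 F) : PSL2 F := QuotientGroup.mk' (center (SL2 F)) A

/-- the images of `A` and `B` in `PSL(2,F)` generate a group that is not soluble -/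
def NS {F : Type} [Field F] (A B : SL2 F) : Prop :=
  ¬ Group.IsSolvable (closure ({pr A, pr B} : Set (PSL2 F)))

/-- `t` lies in a subgroup of `X` that is isomorphic to `PSL(2,F)`, `F` finite, `|F| ≥ 4` -/
def InPSL (X : Type) [Group X] (t : X) : Prop :=
  ∃ (F : Type) (_ : Field F) (_ : Finite F) (H : Subgroup X), 4 ≤ Nat.card F ∧ t ∈ H ∧
    Nonempty (H ≃* PSL2 F)

/-- Sylow 2-subgroups are generated by involutions lying in subgroups of type `PSL(2,F)` -/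
def Bcond (X : Type) [Group X] : Prop :=
  (∃ t, InPSL X t) ∧
    ∀ P : Sylow 2 X, (P : Subgroup X) = closure {t | t ∈ P ∧ t * t = 1 ∧ InPSL X t}

/-! ## Lifting -/

/-- (short) -/
def GV : Prop := ∀ (Q : Type) [Group Q] (k : ℕ), GT Q k ⊆ vals (dtree k) Q

/-- noncentral minimal normal subgroups -/
def LNC : Prop := ∀ (T : Type) [Group T] [Finite T] (V : Subgroup T) [V.Normal],
  MinNormal V → (∀ x ∈ V, ∀ y ∈ V, x * y = y * x) → V ≤ frattini T → ¬ V ≤ center T →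
  ∀ (k : ℕ) (g : T), (QuotientGroup.mk g : T ⧸ V) ∈ GT (T ⧸ V) k → g ∈ GT T k

/-- central subgroups -/
def LC : Prop := ∀ (T : Type) [Group T] [Finite T] (V : Subgroup T) [V.Normal],
  V ≤ frattini T → V ≤ center T →
  ∀ (k : ℕ) (g : T), (QuotientGroup.mk g : T ⧸ V) ∈ GT (T ⧸ V) k → ∃ z ∈ V, g * z ∈ GT T k

/-- fixed points in a coset -/
def FixC : Prop := ∀ (p : ℕ) [Fact p.Prime] (T : Type) [Group T] [Finite T] (V : Subgroup T)
  [V.Normal] (Q : Subgroup T), ¬ p ∣ Nat.card V → IsPGroup p Q → ∀ m : T,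
  (∀ q ∈ Q, cm m q ∈ V) → ∃ v ∈ V, ∀ q ∈ Q, (m * v) * q = q * (m * v)

/-- lifting of GT with control over a p-subgroup -/
def GTL : Prop := ∀ (p : ℕ) [Fact p.Prime] (T : Type) [Group T] [Finite T] (M : Subgroup T)
  [M.Normal], M ≤ frattini T → ¬ p ∣ Nat.card M → ∀ (Q : Subgroup T), IsPGroup p Q →
  ∀ (k : ℕ) (g : T), (∀ q ∈ Q, g * q * g⁻¹ ∈ Q) → (QuotientGroup.mk g : T ⧸ M) ∈ GT (T ⧸ M) k →
  ∃ c ∈ M, (∀ q ∈ Q, c * q = q * c) ∧ g * c ∈ GT T k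

/-- fusion of involutions modulo a normal subgroup of odd order -/
def Fus : Prop := ∀ (T : Type) [Group T] [Finite T] (M : Subgroup T) [M.Normal],
  ¬ 2 ∣ Nat.card M →
  (∀ x y : T ⧸ M, x ≠ 1 → y ≠ 1 → x * x = 1 → y * y = 1 → IsConj x y) →
  ∀ x y : T, x ≠ 1 → y ≠ 1 → x * x = 1 → y * y = 1 → IsConj x y

/-- all involutions are values -/
def ABS : Prop := ∀ (T : Type) [Group T] [Finite T] (M : Subgroup T) [M.Normal],
  M ≤ frattini T → ¬ 2 ∣ Nat.card M →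
  (∀ x y : T ⧸ M, x ≠ 1 → y ≠ 1 → x * x = 1 → y * y = 1 → IsConj x y) →
  ∀ (V : Subgroup (T ⧸ M)) (g v : T ⧸ M), (∀ x ∈ V, x * x = 1) → (∀ x ∈ V, g * x * g⁻¹ ∈ V) →
  v ∈ V → cm v g ≠ 1 → (∀ k, g ∈ GT (T ⧸ M) k) →
  ∀ (k : ℕ) (t : T), t * t = 1 → t ≠ 1 → t ∈ vals (dtree k) T

/-- minimal subgroups with nonsoluble image -/
def MinSub : Prop := ∀ (S : Type) [Group S] [Finite S] (M : Subgroup S) [M.Normal],
  ¬ Group.IsSolvable (S ⧸ M) →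
  (∀ K N : Subgroup (S ⧸ M), N ≤ K → (∀ k ∈ K, ∀ n ∈ N, k * n * k⁻¹ ∈ N) →
    (∀ a ∈ N, ∀ b ∈ N, a * b = b * a) → ¬ Group.IsSolvable K → N = ⊥) →
  ∃ T : Subgroup S, M.subgroupOf T ≤ frattini T ∧ IsSimpleGroup (T ⧸ M.subgroupOf T) ∧
    (∃ a b : T ⧸ M.subgroupOf T, a * b ≠ b * a) ∧
    ∀ K : Subgroup (T ⧸ M.subgroupOf T), K ≠ ⊤ → Group.IsSolvable K

/-! ## Subgroups of SL(2,F) -/

/-- the structure of a subgroup normalising an almost commutative subgroup, case (i):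
a common eigenvector -/
def CaseI {F : Type} [Field F] (H : Subgroup (SL2 F)) : Prop :=
  ∃ v : Fin 2 → F, v ≠ 0 ∧ ∀ h ∈ H, ∃ c : F, (h : Matrix (Fin 2) (Fin 2) F).mulVec v = c • v

/-- case (ii): normaliser of a torus -/
def CaseII {F : Type} [Field F] (H : Subgroup (SL2 F)) : Prop :=
  ∃ α : SL2 F, tr α ^ 2 ≠ 4 ∧ ∀ h ∈ H, h * α = α * h ∨ (h * α = α⁻¹ * h ∧ tr h = 0)

/-- case (iii): `h` permutes `±α, ±β, ±αβ` where `α² = β² = -1`, `αβ = -βα` -/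
def CaseIII {F : Type} [Field F] (H : Subgroup (SL2 F)) : Prop :=
  (2 : F) ≠ 0 ∧ ∃ α β : Matrix (Fin 2) (Fin 2) F, α * α = -1 ∧ β * β = -1 ∧ α * β = -(β * α) ∧
    ∀ h ∈ H, ∃ γ δ : Matrix (Fin 2) (Fin 2) F,
      (γ = α ∨ γ = -α ∨ γ = β ∨ γ = -β ∨ γ = α * β ∨ γ = -(α * β)) ∧
      (δ = α ∨ δ = -α ∨ δ = β ∨ δ = -β ∨ δ = α * β ∨ δ = -(α * β)) ∧
      (h : Matrix (Fin 2) (Fin 2) F) * α = γ * h ∧ (h : Matrix (Fin 2) (Fin 2) F) * β = δ * h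

/-- the trichotomy -/
def STR : Prop := ∀ (F : Type) [Field F] (H N : Subgroup (SL2 F)), N ≤ H →
  (∀ h ∈ H, ∀ n ∈ N, h * n * h⁻¹ ∈ N) → (∃ n ∈ N, n ∉ center (SL2 F)) →
  (∀ a ∈ N, ∀ b ∈ N, a * b * a⁻¹ * b⁻¹ ∈ center (SL2 F)) → CaseI H ∨ CaseII H ∨ CaseIII H

/-- each case gives a soluble group -/
def TriSol : Prop := ∀ (F : Type) [Field F] (H : Subgroup (SL2 F)),
  CaseI H ∨ CaseII H ∨ CaseIII H → Group.IsSolvable H

/-- the traces in case (iii) -/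
def TrIII : Prop := ∀ (F : Type) [Field F] (H : Subgroup (SL2 F)), CaseIII H → ∀ h ∈ H,
  h ∈ center (SL2 F) ∨ tr h ^ 2 = 0 ∨ tr h ^ 2 = 1 ∨ tr h ^ 2 = 2

/-- nonsoluble subgroups have no commutative normal subgroups -/
def NormAb : Prop := ∀ (F : Type) [Field F] (K N : Subgroup (PSL2 F)), N ≤ K →
  (∀ k ∈ K, ∀ n ∈ N, k * n * k⁻¹ ∈ N) → (∀ a ∈ N, ∀ b ∈ N, a * b = b * a) →
  ¬ Group.IsSolvable K → N = ⊥

/-- trace of a commutator -/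
def TrC : Prop := ∀ (F : Type) [Field F] (A B : SL2 F),
  tr (cm A B) = tr A ^ 2 + tr B ^ 2 + tr (A * B) ^ 2 - tr A * tr B * tr (A * B) - 2

/-- pairs with given traces -/
def PairEx : Prop := ∀ (F : Type) [Field F] [Finite F] (x y z : F),
  x ^ 2 + y ^ 2 + z ^ 2 - x * y * z - 2 ≠ 2 → ∃ A B : SL2 F, tr A = x ∧ tr B = y ∧ tr (A * B) = z

/-- elements with the same trace -/
def Cnj : Prop := ∀ (F : Type) [Field F] (C D : SL2 F), C ∉ center (SL2 F) →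
  D ∉ center (SL2 F) → tr C = tr D → ∃ φ : SL2 F ≃* SL2 F, (∀ A, tr (φ A) = tr A) ∧ φ C = D

/-- if the pair generates a soluble group modulo the centre then the trichotomy applies -/
def SolTri : Prop := ∀ (F : Type) [Field F] [Finite F] (A B : SL2 F), tr (cm A B) ≠ 2 →
  ¬ NS A B → CaseII (closure {A, B}) ∨ CaseIII (closure {A, B})

/-- nonsolubility criterion -/
def CritA : Prop := ∀ (F : Type) [Field F] [Finite F] (A B : SL2 F), tr (cm A B) ≠ 2 →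
  (tr A ≠ 0 ∨ tr B ≠ 0) → tr (A * B) ≠ 0 →
  ((2 : F) = 0 → tr A ≠ 0 ∧ tr B ≠ 0) →
  ((2 : F) ≠ 0 → tr (A * B) ^ 2 ≠ 1 ∧ tr (A * B) ^ 2 ≠ 2 ∧ tr (A * B) ^ 2 ≠ 4) → NS A B

/-- nonsolubility criterion with a unipotent element -/
def CritB : Prop := ∀ (F : Type) [Field F] [Finite F] (A B : SL2 F), (2 : F) ≠ 0 → (3 : F) ≠ 0 →
  tr (cm A B) ≠ 2 → (∃ h ∈ closure ({A, B} : Set (SL2 F)), h ∉ center (SL2 F) ∧ tr h ^ 2 = 4) →
  NS A B

/-- choice of the traces, odd characteristic -/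
def SelOdd : Prop := ∀ (F : Type) [Field F] [Finite F], (2 : F) ≠ 0 → 9 ≤ Nat.card F →
  ∀ κ : F, ∃ x y z : F, x ^ 2 + y ^ 2 + z ^ 2 - x * y * z - 2 = κ ∧ (x ≠ 0 ∨ y ≠ 0) ∧ z ≠ 0 ∧
    z ^ 2 ≠ 1 ∧ z ^ 2 ≠ 2 ∧ z ^ 2 ≠ 4

/-- all nontrivial elements are in GT, `F` odd, `|F| ≥ 9` -/
def GTodd : Prop := ∀ (F : Type) [Field F] [Finite F], (2 : F) ≠ 0 → 9 ≤ Nat.card F →
  (∀ K : Subgroup (PSL2 F), K ≠ ⊤ → Group.IsSolvable K) →
  ∀ (k : ℕ) (C : SL2 F), C ∉ center (SL2 F) → pr C ∈ GT (PSL2 F) k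

/-- characteristic 2 -/
def GTeven : Prop := ∀ (F : Type) [Field F] [Finite F], (2 : F) = 0 → 4 ≤ Nat.card F →
  (∀ K : Subgroup (PSL2 F), K ≠ ⊤ → Group.IsSolvable K) →
  ∀ (k : ℕ) (C : SL2 F), tr C ≠ 0 → pr C ∈ GT (PSL2 F) k

/-- fields with 5 or 7 elements -/
def GTsm : Prop := ∀ (F : Type) [Field F] [Finite F], Nat.card F = 5 ∨ Nat.card F = 7 →
  (∀ K : Subgroup (PSL2 F), K ≠ ⊤ → Group.IsSolvable K) →
  ∀ (k : ℕ) (C : SL2 F), tr C ^ 2 = 1 → pr C ∈ GT (PSL2 F) k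

/-- the configuration -/
def Cfg : Prop := ∀ (F : Type) [Field F] [Finite F], 4 ≤ Nat.card F →
  ∃ (V : Subgroup (PSL2 F)) (C : SL2 F) (v : PSL2 F), (∀ x ∈ V, x * x = 1) ∧
    (∀ x ∈ V, pr C * x * (pr C)⁻¹ ∈ V) ∧ v ∈ V ∧ cm v (pr C) ≠ 1 ∧
    ((2 : F) ≠ 0 → tr C = -1) ∧ ((2 : F) = 0 → tr C ≠ 0)

/-- involutions of PSL(2,F) are conjugate -/
def InvConj : Prop := ∀ (F : Type) [Field F] [Finite F] (x y : PSL2 F), x ≠ 1 → y ≠ 1 →
  x * x = 1 → y * y = 1 → IsConj x y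

/-- Sylow 2-subgroups of PSL(2,F) are generated by involutions -/
def SylInv : Prop := ∀ (F : Type) [Field F] [Finite F] (P : Sylow 2 (PSL2 F)),
  (P : Subgroup (PSL2 F)) = closure {t | t ∈ P ∧ t * t = 1}

/-! ## The end -/

/-- the hypothesis on the sections -/
def HypS (G : Type) [Group G] : Prop := ∀ (X : Type) [Group X] [Finite X], IsSectionOf X G →
  IsSimpleGroup X → (∃ a b : X, a * b ≠ b * a) →
  (∃ (F : Type) (_ : Field F) (_ : Finite F), 4 ≤ Nat.card F ∧ Nonempty (X ≃* PSL2 F)) ∨ Bcond X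

/-- involutions are values -/
def InvVal : Prop := ∀ (S : Type) [Group S] [Finite S] (M : Subgroup S) [M.Normal],
  ¬ 2 ∣ Nat.card M → HypS S →
  (∃ (F : Type) (_ : Field F) (_ : Finite F), 4 ≤ Nat.card F ∧ Nonempty ((S ⧸ M) ≃* PSL2 F)) →
  ∀ (k : ℕ) (t : S), t * t = 1 → t ≠ 1 → t ∈ vals (dtree k) S

/-- the final statement -/
def FinS : Prop := ∀ (G : Type) [Group G] [Finite G], HypS G → ∀ t : Tree, A 2 t G

end MP_8aaf67.PS
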