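import Pool.Agent.Work.MP_8aaf67_al.PS.Stmts

/-! Item TrIII: the traces in case (iii). -/

set_option autoImplicit false

open Subgroup

namespace MP_8aaf67.PS

/-- polarised Cayley-Hamilton identity -/
theorem TrIII_pol {F : Type} [Field F] (h x : Matrix (Fin 2) (Fin 2) F) (hx : x.trace = 0) :
    h * x + x * h = h.trace • x + (h * x).trace • (1 : Matrix (Fin 2) (Fin 2) F) := by
  have hx' : x 1 1 = - x 0 0 := by
    rw [Matrix.trace_fin_two] at hx
    linear_combination hx
  ext i j
  fin_cases i <;> fin_cases j <;>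
    simp [Matrix.mul_apply, Fin.sum_univ_two, Matrix.trace_fin_two, hx'] <;> ring

theorem TrIII_tr0 {F : Type} [Field F] (h2 : (2 : F) ≠ 0) (x y : Matrix (Fin 2) (Fin 2) F)
    (hy : y * y = -1) (hxy : x * y = -(y * x)) : x.trace = 0 := by
  have h1 : (x * y * y).trace = (-(y * x) * y).trace := by rw [hxy]
  have hL : (x * y * y).trace = -x.trace := by
    rw [mul_assoc, hy, mul_neg, mul_one, Matrix.trace_neg]
  have hR : (y * x * y).trace = -x.trace := by
    rw [Matrix.trace_mul_comm, ← mul_assoc, hy, neg_mul, one_mul, Matrix.trace_neg]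
  rw [hL, neg_mul, Matrix.trace_neg, hR] at h1
  have h3 : (2 : F) * x.trace = 0 := by linear_combination -h1
  exact (mul_eq_zero.mp h3).resolve_left h2

theorem TrIII_comb {F : Type} [Field F] (t a b c : F) (h2 : (2 : F) ≠ 0)
    (hn : t ^ 2 + a ^ 2 + b ^ 2 + c ^ 2 = 4)
    (hg : (b = 0 ∧ c = 0) ∨ t = 0 ∨ (∃ e : F, e ^ 2 = 1 ∧ a = e * b ∧ c = -(e * t)) ∨
      (∃ e : F, e ^ 2 = 1 ∧ a = e * c ∧ b = e * t))
    (hd : (a = 0 ∧ c = 0) ∨ t = 0 ∨ (∃ e : F, e ^ 2 = 1 ∧ t = e * c ∧ b = e * a) ∨
      (∃ e : F, e ^ 2 = 1 ∧ b = e * c ∧ a = -(e * t))) :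
    (a = 0 ∧ b = 0 ∧ c = 0) ∨ t ^ 2 = 0 ∨ t ^ 2 = 1 ∨ t ^ 2 = 2 := by
  have two : ∀ x : F, 2 * x = 0 → x = 0 := fun x hx => (mul_eq_zero.mp hx).resolve_left h2
  have c2 : 2 * t ^ 2 = 4 → t ^ 2 = 2 := fun h => by
    have := two (t ^ 2 - 2) (by linear_combination h)
    linear_combination this
  have c4 : 4 * t ^ 2 = 4 → t ^ 2 = 1 := fun h => by
    have := two _ (two (t ^ 2 - 1) |> fun _ => (by linear_combination h : 2 * (2 * (t ^ 2 - 1)) = 0))
    have := two _ this
    linear_combination this
  have t0 : t = 0 → t ^ 2 = 0 := fun h => by rw [h]; ring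
  rcases hg with ⟨hb, hc⟩ | ht | ⟨e, he, ha, hc⟩ | ⟨e, he, ha, hb⟩
  · rcases hd with ⟨ha', hc'⟩ | ht | ⟨e', he', ht', hb'⟩ | ⟨e', he', hb', ha'⟩
    · exact Or.inl ⟨ha', hb, hc⟩
    · exact Or.inr (Or.inl (t0 ht))
    · refine Or.inr (Or.inl (t0 ?_))
      rw [ht', hc, mul_zero]
    · refine Or.inr (Or.inr (Or.inr (c2 ?_)))
      rw [hb, hc, ha'] at hn
      linear_combination hn - t ^ 2 * he'
  · exact Or.inr (Or.inl (t0 ht))
  · rcases hd with ⟨ha', hc'⟩ | ht | ⟨e', he', ht', hb'⟩ | ⟨e', he', hb', ha'⟩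
    · refine Or.inr (Or.inl ?_)
      have h1 : e * t = 0 := by linear_combination hc - hc'
      linear_combination (-t ^ 2) * he + e * t * h1
    · exact Or.inr (Or.inl (t0 ht))
    · -- t = - e e' t, a = e e' a
      have h1 : t * (1 + e * e') = 0 := by
        have : t = e' * (-(e * t)) := by rw [← hc]; exact ht'
        linear_combination this
      have h3 : a * (1 - e * e') = 0 := by
        have : a = e * (e' * a) := by rw [← hb']; exact ha
        linear_combination this
      rcases mul_eq_zero.mp h1 with h4 | h4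
      · exact Or.inr (Or.inl (t0 h4))
      · have ha0 : a = 0 := by
          refine two a ?_
          linear_combination h3 + a * h4
        refine Or.inr (Or.inr (Or.inr (c2 ?_)))
        rw [hb', hc, ha0] at hn
        linear_combination hn - t ^ 2 * he
    · refine Or.inr (Or.inr (Or.inl (c4 ?_)))
      have hc2 : c ^ 2 = t ^ 2 := by rw [hc]; linear_combination t ^ 2 * he
      have hb2 : b ^ 2 = c ^ 2 := by rw [hb']; linear_combination c ^ 2 * he'
      have ha2 : a ^ 2 = t ^ 2 := by rw [ha']; linear_combination t ^ 2 * he'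
      linear_combination hn - 2 * hc2 - hb2 - ha2
  · rcases hd with ⟨ha', hc'⟩ | ht | ⟨e', he', ht', hb'⟩ | ⟨e', he', hb', ha'⟩
    · refine Or.inr (Or.inr (Or.inr (c2 ?_)))
      rw [ha', hc', hb] at hn
      linear_combination hn - t ^ 2 * he
    · exact Or.inr (Or.inl (t0 ht))
    · refine Or.inr (Or.inr (Or.inl (c4 ?_)))
      have hc2 : t ^ 2 = c ^ 2 := by
        conv_lhs => rw [ht']
        linear_combination c ^ 2 * he'
      have hb2 : b ^ 2 = t ^ 2 := by rw [hb]; linear_combination t ^ 2 * he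
      have ha2 : a ^ 2 = c ^ 2 := by rw [ha]; linear_combination c ^ 2 * he
      linear_combination hn + 2 * hc2 - hb2 - ha2
    · -- c = e' e t, a = e' t = - e' t
      refine Or.inr (Or.inl ?_)
      have h1 : c = e' * (e * t) := by
        rw [← hb, hb']
        linear_combination (-c) * he'
      have h3 : a = e' * t := by
        rw [ha, h1]
        linear_combination (e' * t) * he
      have h4 : e' * t = 0 := two _ (by linear_combination ha' - h3)
      linear_combination (-t ^ 2) * he' + e' * t * h4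

theorem prf_TrIII : TrIII := by
  intro F _ H hH h hh
  obtain ⟨h2, α, β, haa, hbb, hab, hc⟩ := hH
  obtain ⟨γ, δ, hγ, hδ, e1, e2⟩ := hc h hh
  have hba : β * α = -(α * β) := by rw [hab, neg_neg]
  set M : Matrix (Fin 2) (Fin 2) F := (h : Matrix (Fin 2) (Fin 2) F) with hM
  -- multiplication table
  have m1 : α * (α * β) = -β := by rw [← mul_assoc, haa, neg_mul, one_mul]
  have m2 : (α * β) * β = -α := by rw [mul_assoc, hbb, mul_neg, mul_one]
  have m3 : (α * β) * α = β := by rw [mul_assoc, hba, mul_neg, m1, neg_neg]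
  have m4 : β * (α * β) = α := by rw [← mul_assoc, hba, neg_mul, m2, neg_neg]
  have m5 : (α * β) * (α * β) = -1 := by rw [mul_assoc, m4, haa]
  have tα : α.trace = 0 := TrIII_tr0 h2 α β hbb hab
  have tβ : β.trace = 0 := TrIII_tr0 h2 β α haa hba
  have tk : (α * β).trace = 0 := TrIII_tr0 h2 (α * β) α haa (by rw [m3, m1, neg_neg])
  -- coordinates
  have p1 := TrIII_pol M α tα
  have p2 := TrIII_pol M β tβ
  have p3 := TrIII_pol M (α * β) tk
  obtain ⟨t, ht⟩ : ∃ t, t = M.trace := ⟨_, rfl⟩
  obtain ⟨a, ha⟩ : ∃ a, a = (M * α).trace := ⟨_, rfl⟩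
  obtain ⟨b, hb⟩ : ∃ b, b = (M * β).trace := ⟨_, rfl⟩
  obtain ⟨c, hc'⟩ : ∃ c, c = (M * (α * β)).trace := ⟨_, rfl⟩
  rw [← ht, ← ha] at p1
  rw [← ht, ← hb] at p2
  rw [← ht, ← hc'] at p3
  have q2 : β * M * β = M - t • 1 + b • β := by
    have h3 : (M * β + β * M) * β = (t • β + b • (1 : Matrix (Fin 2) (Fin 2) F)) * β := by rw [p2]
    rw [add_mul, add_mul, mul_assoc M β β, hbb, smul_mul_assoc, smul_mul_assoc, hbb, one_mul] at h3
    rw [mul_neg, mul_one, smul_neg] at h3
    have h4 : β * M * β = M + (-M + β * M * β) := by abel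
    rw [h4, h3]
    abel
  have q3 : (α * β) * M * (α * β) = M - t • 1 + c • (α * β) := by
    have h3 : (M * (α * β) + (α * β) * M) * (α * β) =
      (t • (α * β) + c • (1 : Matrix (Fin 2) (Fin 2) F)) * (α * β) := by rw [p3]
    rw [add_mul, add_mul, mul_assoc M (α * β) (α * β), m5, smul_mul_assoc, smul_mul_assoc, m5,
      one_mul] at h3
    rw [mul_neg, mul_one, smul_neg] at h3
    have h4 : (α * β) * M * (α * β) = M + (-M + (α * β) * M * (α * β)) := by abel
    rw [h4, h3]
    abel
  have q4 : (α * β) * M * (α * β) = -(a • α) - M - b • β := by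
    have h3 : (α * β) * M * (α * β) = (α * β) * (M * α) * β := by simp only [mul_assoc]
    have h4 : M * α = t • α + a • (1 : Matrix (Fin 2) (Fin 2) F) - α * M := by
      rw [← p1]
      abel
    rw [h3, h4, mul_sub, sub_mul, mul_add, add_mul, mul_smul_comm, mul_smul_comm, mul_one,
      smul_mul_assoc, smul_mul_assoc, m3, hbb, m2, ← mul_assoc (α * β) α M, m3, q2]
    simp only [smul_neg]
    abel
  have q5 : (2 : F) • M = t • 1 - a • α - b • β - c • (α * β) := by
    have h3 : M - t • 1 + c • (α * β) = -(a • α) - M - b • β := by rw [← q3, q4]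
    have h4 : (2 : F) • M = M + M := two_smul F M
    have h5 : M + M = M + (M - t • 1 + c • (α * β)) + t • 1 - c • (α * β) := by abel
    rw [h4, h5, h3]
    abel
  have hdet : M.det = 1 := h.2
  have hn : t ^ 2 + a ^ 2 + b ^ 2 + c ^ 2 = 4 := by
    have h3 : (M * ((2 : F) • M)).trace = (M * (t • 1 - a • α - b • β - c • (α * β))).trace := by
      rw [q5]
    have h4 : (M * M).trace = t ^ 2 - 2 := by
      rw [ht, Matrix.trace_fin_two, Matrix.trace_fin_two]
      rw [Matrix.det_fin_two] at hdet
      simp only [Matrix.mul_apply, Fin.sum_univ_two]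
      linear_combination (-2) * hdet
    simp only [mul_sub, mul_smul_comm, mul_one, Matrix.trace_sub, Matrix.trace_smul, smul_eq_mul]
      at h3
    rw [h4, ← ht, ← ha, ← hb, ← hc'] at h3
    linear_combination h3
  -- trace relations
  have r1 : ∀ x, (M * (α * x)).trace = (M * (x * γ)).trace := by
    intro x
    rw [← mul_assoc, e1, mul_assoc, Matrix.trace_mul_comm, mul_assoc]
  have r2 : ∀ x, (M * (β * x)).trace = (M * (x * δ)).trace := by
    intro x
    rw [← mul_assoc, e2, mul_assoc, Matrix.trace_mul_comm, mul_assoc]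
  have hg : (b = 0 ∧ c = 0) ∨ t = 0 ∨ (∃ e : F, e ^ 2 = 1 ∧ a = e * b ∧ c = -(e * t)) ∨
      (∃ e : F, e ^ 2 = 1 ∧ a = e * c ∧ b = e * t) := by
    have s1 := r1 1
    have s2 := r1 α
    have s3 := r1 β
    have s4 := r1 (α * β)
    rw [mul_one, one_mul, ← ha] at s1
    rw [haa, mul_neg, mul_one, Matrix.trace_neg, ← ht] at s2
    rw [← hc'] at s3
    rw [m1, mul_neg, Matrix.trace_neg, ← hb] at s4
    have two : ∀ x : F, x = -x → x = 0 := fun x hx => by
      have : 2 * x = 0 := by linear_combination hx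
      exact (mul_eq_zero.mp this).resolve_left h2
    rcases hγ with rfl | rfl | rfl | rfl | rfl | rfl
    · left
      rw [m3, ← hb] at s4
      rw [hba, mul_neg, Matrix.trace_neg, ← hc'] at s3
      exact ⟨two b (by linear_combination -s4), two c s3⟩
    · right; left
      rw [mul_neg, haa, neg_neg, mul_one, ← ht] at s2
      exact two t (by linear_combination -s2)
    · right; right; left
      rw [← hb] at s1
      rw [hbb, mul_neg, mul_one, Matrix.trace_neg, ← ht] at s3
      exact ⟨1, by ring, by linear_combination s1, by linear_combination s3⟩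
    · right; right; left
      rw [mul_neg, Matrix.trace_neg, ← hb] at s1
      rw [mul_neg, hbb, neg_neg, mul_one, ← ht] at s3
      exact ⟨-1, by ring, by linear_combination s1, by linear_combination s3⟩
    · right; right; right
      rw [← hc'] at s1
      rw [m5, mul_neg, mul_one, Matrix.trace_neg, ← ht] at s4
      exact ⟨1, by ring, by linear_combination s1, by linear_combination -s4⟩
    · right; right; right
      rw [mul_neg, Matrix.trace_neg, ← hc'] at s1
      rw [mul_neg, m5, neg_neg, mul_one, ← ht] at s4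
      exact ⟨-1, by ring, by linear_combination s1, by linear_combination -s4⟩
  have hd : (a = 0 ∧ c = 0) ∨ t = 0 ∨ (∃ e : F, e ^ 2 = 1 ∧ t = e * c ∧ b = e * a) ∨
      (∃ e : F, e ^ 2 = 1 ∧ b = e * c ∧ a = -(e * t)) := by
    have s1 := r2 1
    have s2 := r2 β
    have s3 := r2 α
    have s4 := r2 (α * β)
    rw [mul_one, one_mul, ← hb] at s1
    rw [hbb, mul_neg, mul_one, Matrix.trace_neg, ← ht] at s2
    rw [hba, mul_neg, Matrix.trace_neg, ← hc'] at s3
    rw [m4, ← ha] at s4
    have two : ∀ x : F, x = -x → x = 0 := fun x hx => by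
      have : 2 * x = 0 := by linear_combination hx
      exact (mul_eq_zero.mp this).resolve_left h2
    rcases hδ with rfl | rfl | rfl | rfl | rfl | rfl
    · right; right; left
      rw [← ha] at s1
      rw [haa, mul_neg, mul_one, Matrix.trace_neg, ← ht] at s3
      exact ⟨1, by ring, by linear_combination s3, by linear_combination s1⟩
    · right; right; left
      rw [mul_neg, Matrix.trace_neg, ← ha] at s1
      rw [mul_neg, haa, neg_neg, mul_one, ← ht] at s3
      exact ⟨-1, by ring, by linear_combination -s3, by linear_combination s1⟩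
    · left
      rw [m2, mul_neg, Matrix.trace_neg, ← ha] at s4
      rw [← hc'] at s3
      exact ⟨two a s4, two c (by linear_combination -s3)⟩
    · right; left
      rw [mul_neg, hbb, neg_neg, mul_one, ← ht] at s2
      exact two t (by linear_combination -s2)
    · right; right; right
      rw [← hc'] at s1
      rw [m5, mul_neg, mul_one, Matrix.trace_neg, ← ht] at s4
      exact ⟨1, by ring, by linear_combination s1, by linear_combination s4⟩
    · right; right; right
      rw [mul_neg, Matrix.trace_neg, ← hc'] at s1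
      rw [mul_neg, m5, neg_neg, mul_one, ← ht] at s4
      exact ⟨-1, by ring, by linear_combination s1, by linear_combination s4⟩
  have htr : tr h = t := ht.symm
  rw [htr]
  rcases TrIII_comb t a b c h2 hn hg hd with ⟨ha0, hb0, hc0⟩ | h3
  · left
    rw [Matrix.SpecialLinearGroup.mem_center_iff]
    have q6 : M = (t / 2) • (1 : Matrix (Fin 2) (Fin 2) F) := by
      rw [ha0, hb0, hc0] at q5
      simp only [zero_smul, sub_zero] at q5
      rw [div_eq_inv_mul, mul_smul, ← q5, smul_smul, inv_mul_cancel₀ h2, one_smul]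
    refine ⟨t / 2, ?_, ?_⟩
    · rw [Fintype.card_fin]
      rw [q6, Matrix.det_smul, Matrix.det_one, Fintype.card_fin, mul_one] at hdet
      exact hdet
    · rw [← hM, q6]
      ext i j
      fin_cases i <;> fin_cases j <;> simp
  · exact Or.inr h3

end MP_8aaf67.PS
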